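import Pool.Agent.R867.B.Pen3

/-! The relative algebraic closedness over the field of definition. -/

set_option autoImplicit false

namespace Pool.Agent.R867.B

open Pool.Agent.TH178.HI Polynomial

variable {k E : Type} [Field k] [Field E] [Algebra k E]

theorem range_opt (w1 w2 : E) :
    Set.range (fun o : Option Unit => o.elim w2 (fun _ => w1)) = {w1, w2} := by
  ext x
  constructor
  · rintro ⟨_ | _, rfl⟩
    · exact Or.inr rfl
    · exact Or.inl rfl
  · rintro (rfl | rfl)
    · exact ⟨some (), rfl⟩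
    · exact ⟨none, rfl⟩

theorem frac_w {ι : Type} {A₀ : IntermediateField k E} {w : ι → E} {x : E}
    (hx : x ∈ IntermediateField.adjoin k ((A₀ : Set E) ∪ Set.range w)) :
    ∃ n d : MvPolynomial ι A₀, MvPolynomial.aeval w d ≠ 0 ∧
      x * MvPolynomial.aeval w d = MvPolynomial.aeval w n := by
  rw [← adjoin_rs, IntermediateField.mem_restrictScalars,
    IntermediateField.mem_adjoin_range_iff] at hx
  obtain ⟨n, d, h⟩ := hx
  by_cases h0 : MvPolynomial.aeval w d = 0
  · rw [h0, div_zero] at h
    refine ⟨0, 1, ?_, ?_⟩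
    · rw [map_one]; exact one_ne_zero
    · rw [h, zero_mul, map_zero]
  · exact ⟨n, d, h0, by rw [h, div_mul_cancel₀ _ h0]⟩

theorem relK {Om A₀ : IntermediateField k E} (hAO : A₀ ≤ Om) {G P R : ℕ → ℕ → ℕ → E}
    {W t xa xb xe u : E} (h : Pt3 Om A₀ G P R W t xa xb xe u) :
    RelCl (IntermediateField.adjoin k ((A₀ : Set E) ∪ {u}))
      (IntermediateField.adjoin k ((A₀ : Set E) ∪ {xb / xa, xe / xa})) := by
  intro α hα halg
  have h1 : IntermediateField.adjoin k ((A₀ : Set E) ∪ {xb / xa, xe / xa}) ≤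
      IntermediateField.adjoin k (((IntermediateField.adjoin k ((Om : Set E) ∪ {W}) :
        IntermediateField k E) : Set E) ∪ {t}) := by
    refine adjoin_le' (fun x hx => memL (memL (hAO hx))) ?_
    rintro x (rfl | rfl)
    · exact div_mem h.bxb h.bxa
    · exact div_mem h.bxe h.bxa
  have h2 : α ∈ IntermediateField.adjoin k ((Om : Set E) ∪ {u}) := by
    refine h.rel α (h1 hα) (isAlgebraic_mono' ?_ halg)
    exact IntermediateField.adjoin.mono k _ _ (Set.union_subset_union_left _ hAO)
  obtain ⟨P', Q', hQ', hPQ⟩ := exists_ratio h2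
  have hQ0 : Q' ≠ 0 := by
    rintro rfl
    exact hQ' (map_zero _)
  have hu := h.mu
  rw [← range_opt] at hα hu
  obtain ⟨n, d, hd, hn⟩ := frac_w hα
  obtain ⟨p, q, hq, hp⟩ := frac_w hu
  let _ : Algebra A₀ Om := (IntermediateField.inclusion hAO).toRingHom.toAlgebra
  have : IsScalarTower A₀ Om E := IsScalarTower.of_algebraMap_eq fun _ => rfl
  obtain ⟨P1, Q1, hQ1, h3⟩ := descent (A := A₀) (B := Om) h.ind hq hd hp hn hQ0 hPQ
  have h4 : aeval u Q1 ≠ 0 := by
    intro h0
    apply h.tru
    refine ⟨Q1.map (algebraMap A₀ Om), ?_, ?_⟩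
    · rwa [Ne, Polynomial.map_eq_zero]
    · rw [aeval_map_algebraMap]
      exact h0
  have hmem : ∀ Q : A₀[X], aeval u Q ∈ IntermediateField.adjoin k ((A₀ : Set E) ∪ {u}) := by
    intro Q
    have hu' : u ∈ IntermediateField.adjoin k ((A₀ : Set E) ∪ {u}) := memR rfl
    induction Q using Polynomial.induction_on with
    | C a =>
      rw [aeval_C]
      exact memL a.2
    | add p q hp hq =>
      rw [map_add]
      exact add_mem hp hq
    | monomial n a h =>
      have h3 : aeval u (C a * X ^ (n + 1) : A₀[X]) = aeval u (C a * X ^ n : A₀[X]) * u := by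
        rw [pow_succ, ← mul_assoc, map_mul, aeval_X]
      rw [h3]
      exact mul_mem h hu'
  have h5 : α = aeval u P1 / aeval u Q1 := by
    rw [eq_div_iff h4]
    exact h3
  rw [h5]
  exact div_mem (hmem P1) (hmem Q1)

end Pool.Agent.R867.B
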