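import Pool.Agent.R867.B.Ev
import Pool.Agent.R867.B.RelK
import Pool.Agent.TH178.HI.Real

/-! The generic point of a quadric over a field over which it has a point. -/

set_option autoImplicit false

namespace Pool.Agent.R867.B

open Pool.Agent.TH178.HI MvPolynomial Pool.Agent.R867.H

variable {k E : Type} [Field k] [Field E] [Algebra k E]

section Disc

variable {S : Type} [CommRing S]

/-- coefficients of the discriminant -/
def dA (C : ℕ → ℕ → ℕ → S) : S := C 1 0 1 ^ 2 - 4 * C 0 0 2 * C 2 0 0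

/-- coefficients of the discriminant -/
def dB (C : ℕ → ℕ → ℕ → S) (Y : S) : S :=
  2 * (C 0 0 1 + C 0 1 1 * Y) * C 1 0 1 - 4 * C 0 0 2 * (C 1 0 0 + C 1 1 0 * Y)

/-- coefficients of the discriminant -/
def dC (C : ℕ → ℕ → ℕ → S) (Y : S) : S :=
  (C 0 0 1 + C 0 1 1 * Y) ^ 2 - 4 * C 0 0 2 * (C 0 0 0 + C 0 1 0 * Y + C 0 2 0 * Y ^ 2)

theorem disc_eq {C : ℕ → ℕ → ℕ → S} {X Y Z : S} (h : ev3 C X Y Z = 0) :
    (2 * C 0 0 2 * Z + (C 0 0 1 + C 0 1 1 * Y + C 1 0 1 * X)) ^ 2 =
      dA C * X ^ 2 + dB C Y * X + dC C Y := by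
  unfold ev3 li qd at h
  unfold dA dB dC
  linear_combination 4 * C 0 0 2 * h

end Disc

section Mem

variable {M : IntermediateField k E} {C : ℕ → ℕ → ℕ → E} {Y : E}

theorem four_mem (M : IntermediateField k E) : (4 : E) ∈ M := by
  exact_mod_cast M.natCast_mem 4

theorem dA_mem (hC : ∀ i j l, C i j l ∈ M) : dA C ∈ M :=
  sub_mem (pow_mem (hC _ _ _) 2) (mul_mem (mul_mem (four_mem M) (hC _ _ _)) (hC _ _ _))

theorem dB_mem (hC : ∀ i j l, C i j l ∈ M) (hY : Y ∈ M) : dB C Y ∈ M :=
  sub_mem (mul_mem (mul_mem (two_mem' M) (add_mem (hC _ _ _) (mul_mem (hC _ _ _) hY))) (hC _ _ _))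
    (mul_mem (mul_mem (four_mem M) (hC _ _ _)) (add_mem (hC _ _ _) (mul_mem (hC _ _ _) hY)))

theorem dC_mem (hC : ∀ i j l, C i j l ∈ M) (hY : Y ∈ M) : dC C Y ∈ M :=
  sub_mem (pow_mem (add_mem (hC _ _ _) (mul_mem (hC _ _ _) hY)) 2)
    (mul_mem (mul_mem (four_mem M) (hC _ _ _)) (add_mem (add_mem (hC _ _ _)
      (mul_mem (hC _ _ _) hY)) (mul_mem (hC _ _ _) (pow_mem hY 2))))

theorem Kf_mem {N : ℕ} {Ex : Finset (Fin N →₀ ℕ)} {a b e : Fin N} {c : (Fin N →₀ ℕ) → E}
    (hc : ∀ m, c m ∈ M) {X : Fin N → E} (hX : ∀ q ∈ oth a b e, X q ∈ M) (i j l : ℕ) :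
    Kf Ex a b e c X i j l ∈ M := by
  unfold Kf
  refine sum_mem fun m _ => ?_
  split_ifs
  · exact mul_mem (hc m) (prod_mem fun q hq => pow_mem (hX q hq) _)
  · exact M.zero_mem

theorem Cf_mem {N : ℕ} {Ex : Finset (Fin N →₀ ℕ)} {a b e : Fin N} {c : (Fin N →₀ ℕ) → E}
    (hc : ∀ m, c m ∈ M) {X : Fin N → E} (hX : ∀ q ∈ oth a b e, X q ∈ M) (r i j l : ℕ) :
    Cf Ex a b e c X r i j l ∈ M := by
  unfold Cf
  refine sum_mem fun m _ => ?_
  split_ifs
  · exact mul_mem (hc m) (prod_mem fun q hq => pow_mem (hX q hq) _)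
  · exact M.zero_mem

theorem aeval_mem' {N : ℕ} {M : IntermediateField k E} {X : Fin N → E} (hX : ∀ q, X q ∈ M)
    (g : MvPolynomial (Fin N) k) : aeval X g ∈ M := by
  induction g using MvPolynomial.induction_on with
  | C a => rw [aeval_C]; exact M.algebraMap_mem a
  | add p q hp hq => rw [map_add]; exact add_mem hp hq
  | mul_X p i hp => rw [map_mul, aeval_X]; exact mul_mem hp (hX i)

end Mem

theorem v_notMem [CharZero E] {Om : IntermediateField k E}
    {A B C₀ σ v : E} (hA : A ∈ Om) (hB : B ∈ Om) (hC : C₀ ∈ Om) (hd : B ^ 2 - 4 * A * C₀ ≠ 0)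
    (hσ : Transcendental Om σ) (hv : v ^ 2 = A * σ ^ 2 + B * σ + C₀) :
    v ∉ IntermediateField.adjoin k ((Om : Set E) ∪ {σ}) := by
  let A' : Om := ⟨A, hA⟩
  let B' : Om := ⟨B, hB⟩
  let C' : Om := ⟨C₀, hC⟩
  have hd' : B' ^ 2 - 4 * A' * C' ≠ 0 := by
    intro h0
    apply hd
    have h8 : algebraMap Om E (B' ^ 2 - 4 * A' * C') = 0 := by rw [h0, map_zero]
    rw [map_sub, map_mul, map_mul, map_pow, map_ofNat] at h8
    exact h8
  intro hvM
  have h1 : Polynomial.aeval σ (Polynomial.C A' * Polynomial.X ^ 2 + Polynomial.C B' * Polynomial.X +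
      Polynomial.C C' : Polynomial Om) = ((1 : Om) : E) * v ^ 2 := by
    rw [aeval_qd, hv]
    change A * σ ^ 2 + B * σ + C₀ = 1 * _
    rw [one_mul]
  obtain ⟨r, hr⟩ := exists_sq_poly hσ _ 1 hvM h1
  exact qd_ne_sq hd' _ _ hr

/-- iterated transcendental extensions -/
theorem rel_fam [CharZero E] {L M : IntermediateField k E} (h : L ≤ M) (hcl : RelCl L M)
    {κ : Type} {x : κ → E} (hx : AlgebraicIndependent M x) (s : Finset κ) :
    RelCl (IntermediateField.adjoin k ((L : Set E) ∪ x '' s))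
      (IntermediateField.adjoin k ((M : Set E) ∪ x '' s)) := by
  classical
  induction s using Finset.induction_on with
  | empty =>
    rw [Finset.coe_empty, Set.image_empty, Set.union_empty, Set.union_empty,
      IntermediateField.adjoin_self, IntermediateField.adjoin_self]
    exact hcl
  | insert i s hi ih =>
    have h1 : Transcendental (IntermediateField.adjoin k ((M : Set E) ∪ x '' s)) (x i) := by
      have h2 := hx.transcendental_adjoin (s := s) (i := i) (by exact_mod_cast hi)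
      rw [← IntermediateField.transcendental_adjoin_iff] at h2
      rw [← adjoin_rs]
      exact h2
    have h2 := rel_transcendental (IntermediateField.adjoin.mono k _ _
      (Set.union_subset_union_left _ h)) ih h1
    have e1 : ∀ L : IntermediateField k E, IntermediateField.adjoin k
        (((IntermediateField.adjoin k ((L : Set E) ∪ x '' s) : IntermediateField k E) : Set E) ∪
          {x i}) = IntermediateField.adjoin k ((L : Set E) ∪ x '' (insert i s : Finset κ)) := by
      intro L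
      apply le_antisymm
      · refine adjoin_le' (adjoin_le' (fun y hy => memL hy) ?_) ?_
        · rintro _ ⟨j, hj, rfl⟩
          exact memR ⟨j, by simpa using Or.inr hj, rfl⟩
        · intro y hy
          rw [Set.mem_singleton_iff] at hy
          rw [hy]
          exact memR ⟨i, by simp, rfl⟩
      · refine adjoin_le' (fun y hy => memL (memL hy)) ?_
        rintro _ ⟨j, hj, rfl⟩
        rw [Finset.coe_insert] at hj
        rcases hj with rfl | hj
        · exact memR rfl
        · exact memL (memR ⟨j, hj, rfl⟩)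
    rw [e1, e1] at h2
    exact h2

end Pool.Agent.R867.B
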