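import Pool.Agent.R867.B.Jac3
import Pool.Agent.R867.B.Stereo

/-! The base point of the general net. -/

set_option autoImplicit false

namespace Pool.Agent.R867.B

open MvPolynomial Pool.Agent.R867.H

universe u

section Map

variable {S S' : Type*} [CommRing S] [CommRing S']

end Map

section Map

variable {S : Type} {S' : Type} [CommRing S] [CommRing S'] (ψ : S →+* S') (C : ℕ → ℕ → ℕ → S)
  (X Y Z : S)

theorem qd_map : ψ (qd C X Y Z) = qd (fun i j l => ψ (C i j l)) (ψ X) (ψ Y) (ψ Z) := by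
  unfold qd
  simp only [map_add, map_mul, map_pow]

theorem ev3_map : ψ (ev3 C X Y Z) = ev3 (fun i j l => ψ (C i j l)) (ψ X) (ψ Y) (ψ Z) := by
  unfold ev3 li qd
  simp only [map_add, map_mul, map_pow]

theorem dx_map : ψ (dx C X Y Z) = dx (fun i j l => ψ (C i j l)) (ψ X) (ψ Y) (ψ Z) := by
  unfold dx
  simp only [map_add, map_mul, map_ofNat]

theorem dy_map : ψ (dy C X Y Z) = dy (fun i j l => ψ (C i j l)) (ψ X) (ψ Y) (ψ Z) := by
  unfold dy
  simp only [map_add, map_mul, map_ofNat]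

theorem dz_map : ψ (dz C X Y Z) = dz (fun i j l => ψ (C i j l)) (ψ X) (ψ Y) (ψ Z) := by
  unfold dz
  simp only [map_add, map_mul, map_ofNat]

theorem det3_map (G P R : ℕ → ℕ → ℕ → S) : ψ (det3 G P R X Y Z) = det3 (fun i j l => ψ (G i j l))
    (fun i j l => ψ (P i j l)) (fun i j l => ψ (R i j l)) (ψ X) (ψ Y) (ψ Z) := by
  unfold det3
  simp only [map_sub, map_mul, dx_map, dy_map, dz_map]

/-- the discriminant condition -/
def nd (C : ℕ → ℕ → ℕ → S) (Y : S) : S :=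
  C 0 0 2 * (dB C Y ^ 2 - 4 * dA C * dC C Y)

theorem nd_map : ψ (nd C Y) = nd (fun i j l => ψ (C i j l)) (ψ Y) := by
  unfold nd dA dB dC
  simp only [map_add, map_sub, map_mul, map_pow, map_ofNat]

end Map

section Hh

variable {S : Type} [CommRing S]

/-- the nonvanishing conditions at the base point -/
def hh (G P R : ℕ → ℕ → ℕ → S) (X Y Z : S) : S :=
  det3 G P R X Y Z * dz G X Y Z * qd G (dz G X Y Z) 0 (- dx G X Y Z) * X * qd G X Y Z

theorem hh_map {S' : Type} [CommRing S'] (ψ : S →+* S') (G P R : ℕ → ℕ → ℕ → S) (X Y Z : S) :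
    ψ (hh G P R X Y Z) = hh (fun i j l => ψ (G i j l))
    (fun i j l => ψ (P i j l)) (fun i j l => ψ (R i j l)) (ψ X) (ψ Y) (ψ Z) := by
  unfold hh
  simp only [map_mul, det3_map, dz_map, dx_map, qd_map, map_neg, map_zero]

/-- the polynomial in three variables -/
noncomputable def gP (C : ℕ → ℕ → ℕ → S) : MvPolynomial (Fin 3) S :=
  ev3 (fun i j l => MvPolynomial.C (C i j l)) (X 0) (X 1) (X 2)

theorem pd0 (C : ℕ → ℕ → ℕ → S) : pderiv 0 (gP C) =
    dx (fun i j l => MvPolynomial.C (C i j l)) (X 0) (X 1) (X 2) := by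
  unfold gP ev3 li qd dx
  simp only [map_add, pderiv_mul, pderiv_C, pderiv_pow, pderiv_X_self,
    pderiv_X_of_ne (show (1 : Fin 3) ≠ 0 by decide), pderiv_X_of_ne (show (2 : Fin 3) ≠ 0 by decide)]
  norm_num
  ring

theorem pd1 (C : ℕ → ℕ → ℕ → S) : pderiv 1 (gP C) =
    dy (fun i j l => MvPolynomial.C (C i j l)) (X 0) (X 1) (X 2) := by
  unfold gP ev3 li qd dy
  simp only [map_add, pderiv_mul, pderiv_C, pderiv_pow, pderiv_X_self,
    pderiv_X_of_ne (show (0 : Fin 3) ≠ 1 by decide), pderiv_X_of_ne (show (2 : Fin 3) ≠ 1 by decide)]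
  norm_num
  ring

theorem pd2 (C : ℕ → ℕ → ℕ → S) : pderiv 2 (gP C) =
    dz (fun i j l => MvPolynomial.C (C i j l)) (X 0) (X 1) (X 2) := by
  unfold gP ev3 li qd dz
  simp only [map_add, pderiv_mul, pderiv_C, pderiv_pow, pderiv_X_self,
    pderiv_X_of_ne (show (0 : Fin 3) ≠ 2 by decide), pderiv_X_of_ne (show (1 : Fin 3) ≠ 2 by decide)]
  norm_num
  ring

theorem ev_gP {S' : Type} [CommRing S'] (φ : S →+* S') (r : Fin 3 → S') (C : ℕ → ℕ → ℕ → S) :
    (gP C).eval₂ φ r = ev3 (fun i j l => φ (C i j l)) (r 0) (r 1) (r 2) := by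
  have h1 : (gP C).eval₂ φ r = eval₂Hom φ r (gP C) := rfl
  rw [h1]
  unfold gP
  rw [ev3_map]
  simp only [eval₂Hom_X', eval₂Hom_C]

end Hh

section Single

variable {N : ℕ} {S : Type} [CommRing S] {E : Finset (Fin N →₀ ℕ)} {a b e : Fin N}

theorem Cf_single [DecidableEq (Fin N →₀ ℕ)] {m₀ : Fin N →₀ ℕ} (hm : m₀ ∈ E) (κ : S) (v : Fin N → S)
    (r i j l : ℕ) : Cf E a b e (fun m => if m = m₀ then κ else 0) v r i j l =
      if (m₀ a = i ∧ m₀ b = j ∧ m₀ e = l) ∧ ∑ q ∈ oth a b e, m₀ q = r then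
        κ * pr v (oth a b e) m₀ else 0 := by
  unfold Cf
  rw [Finset.sum_eq_single m₀]
  · simp
  · intro m _ hne
    simp [hne]
  · intro h
    exact absurd hm h

theorem Cf_add (c c' : (Fin N →₀ ℕ) → S) (v : Fin N → S) (r i j l : ℕ) :
    Cf E a b e (fun m => c m + c' m) v r i j l = Cf E a b e c v r i j l +
      Cf E a b e c' v r i j l := by
  unfold Cf
  rw [← Finset.sum_add_distrib]
  refine Finset.sum_congr rfl fun m _ => ?_
  split_ifs
  · ring
  · ring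

theorem Kf_single [DecidableEq (Fin N →₀ ℕ)] {m₀ : Fin N →₀ ℕ} (hm : m₀ ∈ E) (κ : S) (v : Fin N → S)
    (i j l : ℕ) : Kf E a b e (fun m => if m = m₀ then κ else 0) v i j l =
      if (m₀ a = i ∧ m₀ b = j ∧ m₀ e = l) then
        κ * pr v (oth a b e) m₀ else 0 := by
  unfold Kf
  rw [Finset.sum_eq_single m₀]
  · simp
  · intro m _ hne
    simp [hne]
  · intro h
    exact absurd hm h

theorem Kf_add (c c' : (Fin N →₀ ℕ) → S) (v : Fin N → S) (i j l : ℕ) :
    Kf E a b e (fun m => c m + c' m) v i j l = Kf E a b e c v i j l +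
      Kf E a b e c' v i j l := by
  unfold Kf
  rw [← Finset.sum_add_distrib]
  refine Finset.sum_congr rfl fun m _ => ?_
  split_ifs
  · ring
  · ring

end Single

section CoefCond

theorem sum_ev {N : ℕ} {κ : Type} {L E : Type} [Field L] [CharZero L] [Field E] [Algebra L E]
    [CharZero E] (c : κ → L) (τ : Fin N → E) (P : MvPolynomial (Fin N ⊕ κ) ℚ) :
    aeval τ (MvPolynomial.map (aeval c : MvPolynomial κ ℚ →ₐ[ℚ] L).toRingHom
      (sumAlgEquiv ℚ (Fin N) κ P)) = aeval (Sum.elim τ (fun m => algebraMap L E (c m))) P := by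
  induction P using MvPolynomial.induction_on with
  | C a =>
    rw [sumAlgEquiv_C_inl, map_C, aeval_C, aeval_C]
    simp
  | add P Q hP hQ => simp only [map_add, hP, hQ]
  | mul_X P l hP =>
    rw [map_mul, map_mul, map_mul, hP, map_mul, aeval_X]
    congr 1
    rcases l with l | l
    · rw [sumAlgEquiv_X_inl, map_X, aeval_X]
      rfl
    · rw [sumAlgEquiv_X_inr, map_C, aeval_C]
      simp

/-- a coefficient with respect to the new variables -/
theorem coef_cond {N : ℕ} {κ : Type} {Φ' : MvPolynomial (Fin N ⊕ κ) ℚ} (h : Φ' ≠ 0) :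
    ∃ Φ₁ : MvPolynomial κ ℚ, Φ₁ ≠ 0 ∧ ∀ {L E : Type} [Field L] [CharZero L] [Field E] [Algebra L E]
      [CharZero E] (c : κ → L) (τ : Fin N → E), AlgebraicIndependent L τ → aeval c Φ₁ ≠ 0 →
        aeval (Sum.elim τ (fun m => algebraMap L E (c m))) Φ' ≠ 0 := by
  obtain ⟨Ψ, hΨ⟩ : ∃ Ψ, Ψ = sumAlgEquiv ℚ (Fin N) κ Φ' := ⟨_, rfl⟩
  have hΨ0 : Ψ ≠ 0 := by
    rw [hΨ]
    exact (map_ne_zero_iff _ (sumAlgEquiv ℚ (Fin N) κ).injective).mpr h
  obtain ⟨m, hm⟩ := MvPolynomial.ne_zero_iff.mp hΨ0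
  refine ⟨coeff m Ψ, hm, fun {L E} _ _ _ _ _ c τ hτ hc h0 => ?_⟩
  have h1 : aeval τ (MvPolynomial.map (aeval c : MvPolynomial κ ℚ →ₐ[ℚ] L).toRingHom Ψ) = 0 := by
    rw [hΨ, sum_ev, h0]
  have h2 : MvPolynomial.map (aeval c : MvPolynomial κ ℚ →ₐ[ℚ] L).toRingHom Ψ = 0 :=
    hτ (h1.trans (map_zero _).symm)
  have h3 := congrArg (coeff m) h2
  rw [coeff_map, coeff_zero] at h3
  exact hc h3

end CoefCond

end Pool.Agent.R867.B
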