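import Pool.Agent.R867.B.Stereo3
import Pool.Agent.R867.B.Univ3

/-! Auxiliary results for the assembly. -/

set_option autoImplicit false

namespace Pool.Agent.R867.B

open Pool.Agent.TH178.HI MvPolynomial Pool.Agent.R867.H

section Acl

variable {k E : Type} [Field k] [Field E] [Algebra k E]

theorem acl [IsAlgClosed E] (S : Set E) : IsAlgClosed (AC k S) := by
  apply IsAlgClosed.of_exists_root
  intro p hp hirr
  obtain ⟨x, hx⟩ := IsAlgClosed.exists_aeval_eq_zero E p
    (Polynomial.degree_pos_of_irreducible hirr).ne'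
  have h1 : x ∈ AC k S := AC_closed ⟨p, hirr.ne_zero, hx⟩
  refine ⟨⟨x, h1⟩, ?_⟩
  apply (algebraMap (AC k S) E).injective
  rw [map_zero, ← hx]
  exact (Polynomial.aeval_algebraMap_apply_eq_algebraMap_eval (A := E) (⟨x, h1⟩ : AC k S) p).symm

theorem restr {A₀ Om : IntermediateField k E} (h : A₀ ≤ Om) {ι : Type} {w : ι → E}
    (hw : AlgebraicIndependent Om w) : AlgebraicIndependent A₀ w := by
  let _ : Algebra A₀ Om := (IntermediateField.inclusion h).toRingHom.toAlgebra
  have : IsScalarTower A₀ Om E := IsScalarTower.of_algebraMap_eq fun _ => rfl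
  exact hw.restrictScalars (algebraMap A₀ Om).injective

end Acl

section Dz

variable {k : Type} [Field k] {N : ℕ} {Om : Type} [Field Om] [Algebra k Om]

theorem pderiv_dz {f : MvPolynomial (Fin N) k} {Ex : Finset (Fin N →₀ ℕ)} (hf : f.support ⊆ Ex)
    {a b e : Fin N} (hab : a ≠ b) (hae : a ≠ e) (hbe : b ≠ e)
    (hE : ∀ m ∈ Ex, m a + m b + m e ≤ 2) (Y : Fin N → Om) :
    aeval Y (pderiv e f) = dz (Kf Ex a b e (fun m => algebraMap k Om (coeff m f)) Y)
      (Y a) (Y b) (Y e) := by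
  classical
  obtain ⟨v, hv⟩ : ∃ v : Fin N → Om, v = Pi.single e 1 := ⟨_, rfl⟩
  have hve : v e = 1 := by rw [hv, Pi.single_eq_same]
  have hv0 : ∀ q, q ≠ e → v q = 0 := fun q hq => by rw [hv, Pi.single_eq_of_ne hq]
  have h1 := lin_derG Y v f
  rw [Finset.sum_eq_single e (fun l _ hl => by rw [hv0 l hl, map_zero, zero_mul])
    (fun h => absurd (Finset.mem_univ _) h), hve, map_one, one_mul] at h1
  have h2 := congrArg (Polynomial.eval 0) h1
  rw [lin_zero] at h2
  rw [← h2]
  obtain ⟨K, hK⟩ : ∃ K, K = Kf Ex a b e (fun m => algebraMap k Om (coeff m f)) Y := ⟨_, rfl⟩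
  have h3 : lin Y v f = ev3 (fun i j l => Polynomial.C (K i j l)) (Polynomial.C (Y a))
      (Polynomial.C (Y b)) (Polynomial.C (Y e) + Polynomial.X) := by
    unfold lin
    rw [aeval_evE hf, split3 hab hae hbe hE]
    have h4 : Kf Ex a b e (fun m => algebraMap k (Polynomial Om) (coeff m f))
        (fun l => Polynomial.C (Y l) + Polynomial.X * Polynomial.C (v l)) =
        fun i j l => Polynomial.C (K i j l) := by
      funext i j l
      rw [hK, Kf_map]
      have h5 : Kf Ex a b e (fun m => algebraMap k (Polynomial Om) (coeff m f))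
          (fun l => Polynomial.C (Y l) + Polynomial.X * Polynomial.C (v l)) =
          Kf Ex a b e (fun m => algebraMap k (Polynomial Om) (coeff m f))
          (fun l => Polynomial.C (Y l)) := by
        apply Kf_congr
        intro q hq
        rw [mem_oth] at hq
        rw [hv0 q hq.1, map_zero, mul_zero, add_zero]
      rw [h5]
      rfl
    rw [h4, hve, hv0 a hae, hv0 b hbe, map_zero, mul_zero, add_zero, add_zero, map_one, mul_one]
  rw [h3, ← hK]
  unfold ev3 li qd dz
  simp only [Polynomial.derivative_add, Polynomial.derivative_mul, Polynomial.derivative_C,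
    Polynomial.derivative_X, Polynomial.derivative_pow, Polynomial.eval_add, Polynomial.eval_mul,
    Polynomial.eval_C, Polynomial.eval_X, Polynomial.eval_pow, Polynomial.eval_zero,
    Polynomial.eval_one]
  simp
  ring

end Dz

section Nd

variable {L E : Type} [Field L] [Field E] [Algebra L E] {N : ℕ}

/-- the discriminant at a generic point -/
theorem nd_gen {Ex : Finset (Fin N →₀ ℕ)} {a b e : Fin N} (hab : a ≠ b) (hbe : b ≠ e)
    {c : (Fin N →₀ ℕ) → L}
    (h : nd (Kf Ex a b e c 0) 0 ≠ 0) {Y : Fin N → E}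
    (hY : AlgebraicIndependent L (fun q : {q : Fin N // q ≠ a ∧ q ≠ e} => Y q)) :
    nd (Kf Ex a b e (fun m => algebraMap L E (c m)) Y) (Y b) ≠ 0 := by
  classical
  obtain ⟨Y', hY'⟩ : ∃ Y' : Fin N → MvPolynomial {q : Fin N // q ≠ a ∧ q ≠ e} L,
    Y' = fun q => if h : q ≠ a ∧ q ≠ e then X ⟨q, h⟩ else 0 := ⟨_, rfl⟩
  have hYq : ∀ q (h : q ≠ a ∧ q ≠ e), Y' q = X ⟨q, h⟩ := by
    intro q h
    rw [hY']
    exact dif_pos h
  obtain ⟨D, hD⟩ : ∃ D, D = nd (Kf Ex a b e (fun m => MvPolynomial.C (c m)) Y') (Y' b) := ⟨_, rfl⟩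
  have hY0 : ∀ q, eval 0 (Y' q) = 0 := by
    intro q
    by_cases h : q ≠ a ∧ q ≠ e
    · rw [hYq q h, eval_X]
      rfl
    · rw [hY']
      simp only [dif_neg h, map_zero]
  have hD0 : D ≠ 0 := by
    rintro h0
    apply h
    have h1 := congrArg (eval (0 : {q : Fin N // q ≠ a ∧ q ≠ e} → L)) h0
    rw [hD, map_zero, nd_map] at h1
    have h2 : (fun i j l => (eval (0 : {q : Fin N // q ≠ a ∧ q ≠ e} → L))
        (Kf Ex a b e (fun m => MvPolynomial.C (c m)) Y' i j l)) = Kf Ex a b e c 0 := by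
      funext i j l
      rw [Kf_map]
      simp only [eval_C, hY0]
      rfl
    rw [h2, hY0] at h1
    exact h1
  intro h0
  apply hD0
  apply hY
  rw [map_zero, ← h0]
  have h1 : aeval (fun q : {q : Fin N // q ≠ a ∧ q ≠ e} => Y q) D =
    ((aeval (fun q : {q : Fin N // q ≠ a ∧ q ≠ e} => Y q) :
      MvPolynomial {q : Fin N // q ≠ a ∧ q ≠ e} L →ₐ[L] E) :
      MvPolynomial {q : Fin N // q ≠ a ∧ q ≠ e} L →+* E) D := rfl
  rw [h1, hD, nd_map]
  have h2 : ((aeval (fun q : {q : Fin N // q ≠ a ∧ q ≠ e} => Y q) :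
      MvPolynomial {q : Fin N // q ≠ a ∧ q ≠ e} L →ₐ[L] E) :
      MvPolynomial {q : Fin N // q ≠ a ∧ q ≠ e} L →+* E) (Y' b) = Y b := by
    rw [hYq b ⟨hab.symm, hbe⟩]
    simp
  rw [h2]
  congr 1
  funext i j l
  rw [Kf_map]
  have h3 : (fun m => ((aeval (fun q : {q : Fin N // q ≠ a ∧ q ≠ e} => Y q) :
      MvPolynomial {q : Fin N // q ≠ a ∧ q ≠ e} L →ₐ[L] E) :
      MvPolynomial {q : Fin N // q ≠ a ∧ q ≠ e} L →+* E) (MvPolynomial.C (c m))) =
      fun m => algebraMap L E (c m) := by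
    funext m
    simp
  rw [h3]
  refine congrFun (congrFun (congrFun (Kf_congr ?_) i) j) l
  intro q hq
  rw [mem_oth] at hq
  rw [hYq q ⟨hq.2.2, hq.1⟩]
  simp

end Nd

end Pool.Agent.R867.B
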