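import Pool.Agent.R867.B.Univ3

/-! The base point of the general net. -/

set_option autoImplicit false

namespace Pool.Agent.R867.B

open MvPolynomial Pool.Agent.R867.H

universe u

section Net

variable {N : ℕ} (E : Finset (Fin N →₀ ℕ)) (β : Fin N → Fin 2) (o : Fin N)

open Classical in
/-- universal coefficients -/
noncomputable def cU (m : Fin N →₀ ℕ) : MvPolynomial (Fin N ⊕ E) ℚ :=
  if h : m ∈ E then X (Sum.inr ⟨m, h⟩) else 0

/-- universal direction -/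
noncomputable def vU (q : Fin N) : MvPolynomial (Fin N ⊕ E) ℚ :=
  if q = o then 1 else if β q = 1 then X (Sum.inl q) else 0

/-- the table of the example -/
def tab (r i j l : ℕ) : ℚ :=
  (if (2 = i ∧ 0 = j ∧ 0 = l) ∧ 0 = r then 1 else 0) +
  (if (1 = i ∧ 0 = j ∧ 0 = l) ∧ 0 = r then -1 else 0) +
  (if (0 = i ∧ 0 = j ∧ 1 = l) ∧ 0 = r then 1 else 0) +
  (if (0 = i ∧ 1 = j ∧ 0 = l) ∧ 1 = r then 1 else 0) +
  (if (0 = i ∧ 0 = j ∧ 1 = l) ∧ 2 = r then 1 else 0)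

variable {E β o} {a b e : Fin N}

theorem one_term [DecidableEq (Fin N →₀ ℕ)] {m₀ : Fin N →₀ ℕ} (hm : m₀ ∈ E) (ho : o ∈ oth a b e)
    (h : ∀ q ∈ oth a b e, q ≠ o → m₀ q = 0) (κ : ℚ) (r i j l : ℕ) :
    Cf E a b e (fun m => if m = m₀ then κ else 0) (fun q => if q = o then 1 else 0) r i j l =
      if (m₀ a = i ∧ m₀ b = j ∧ m₀ e = l) ∧ m₀ o = r then κ else 0 := by
  rw [Cf_single hm]
  have h1 : ∑ q ∈ oth a b e, m₀ q = m₀ o := by
    rw [Finset.sum_eq_single o]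
    · intro q hq hqo
      exact h q hq hqo
    · intro h2
      exact absurd ho h2
  have h2 : pr (fun q => if q = o then (1 : ℚ) else 0) (oth a b e) m₀ = 1 := by
    unfold pr
    apply Finset.prod_eq_one
    intro q hq
    by_cases hqo : q = o
    · simp [hqo]
    · rw [h q hq hqo, pow_zero]
  rw [h1, h2, mul_one]

theorem net (hab : a ≠ b) (hae : a ≠ e) (hbe : b ≠ e) (hao : a ≠ o) (hbo : b ≠ o) (heo : e ≠ o)
    (m1 : Finsupp.single a 2 ∈ E) (m2 : Finsupp.single a 1 ∈ E) (m3 : Finsupp.single e 1 ∈ E)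
    (m4 : Finsupp.single o 1 + Finsupp.single b 1 ∈ E)
    (m5 : Finsupp.single o 2 + Finsupp.single e 1 ∈ E) :
    ∃ Φ : MvPolynomial (Fin N ⊕ E) ℚ, Φ ≠ 0 ∧ ∀ {k' : Type} [Field k'] [IsAlgClosed k']
      (φ : MvPolynomial (Fin N ⊕ E) ℚ →+* k'), φ Φ ≠ 0 → ∃ z : Fin 3 → k',
      ev3 (Cf E a b e (fun m => φ (cU E m)) (fun q => φ (vU E β o q)) 0) (z 0) (z 1) (z 2) = 0 ∧
      ev3 (Cf E a b e (fun m => φ (cU E m)) (fun q => φ (vU E β o q)) 1) (z 0) (z 1) (z 2) = 0 ∧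
      ev3 (Cf E a b e (fun m => φ (cU E m)) (fun q => φ (vU E β o q)) 2) (z 0) (z 1) (z 2) = 0 ∧
      hh (Cf E a b e (fun m => φ (cU E m)) (fun q => φ (vU E β o q)) 0)
        (Cf E a b e (fun m => φ (cU E m)) (fun q => φ (vU E β o q)) 1)
        (Cf E a b e (fun m => φ (cU E m)) (fun q => φ (vU E β o q)) 2) (z 0) (z 1) (z 2) ≠ 0 := by
  classical
  obtain ⟨G, hG⟩ : ∃ G, G = Cf E a b e (cU E) (vU E β o) 0 := ⟨_, rfl⟩
  obtain ⟨P, hP⟩ : ∃ G, G = Cf E a b e (cU E) (vU E β o) 1 := ⟨_, rfl⟩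
  obtain ⟨R, hR⟩ : ∃ G, G = Cf E a b e (cU E) (vU E β o) 2 := ⟨_, rfl⟩
  obtain ⟨H, hH⟩ : ∃ H : MvPolynomial (Fin 3) (MvPolynomial (Fin N ⊕ E) ℚ),
    H = hh (fun i j l => MvPolynomial.C (G i j l)) (fun i j l => MvPolynomial.C (P i j l))
      (fun i j l => MvPolynomial.C (R i j l)) (X 0) (X 1) (X 2) := ⟨_, rfl⟩
  have hev : ∀ {k' : Type} [CommRing k'] (φ : MvPolynomial (Fin N ⊕ E) ℚ →+* k') (z : Fin 3 → k'),
      H.eval₂ φ z = hh (fun i j l => φ (G i j l)) (fun i j l => φ (P i j l))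
        (fun i j l => φ (R i j l)) (z 0) (z 1) (z 2) := by
    intro k' _ φ z
    have h1 : H.eval₂ φ z = eval₂Hom φ z H := rfl
    rw [h1, hH, hh_map]
    simp only [eval₂Hom_X', eval₂Hom_C]
  obtain ⟨c₀, hc₀⟩ : ∃ c₀ : Fin N ⊕ E → ℚ, c₀ = Sum.elim (fun _ => 0) (fun m : E =>
    (((if (m : Fin N →₀ ℕ) = Finsupp.single a 2 then 1 else 0) +
    (if (m : Fin N →₀ ℕ) = Finsupp.single a 1 then -1 else 0) +
    (if (m : Fin N →₀ ℕ) = Finsupp.single e 1 then 1 else 0) +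
    (if (m : Fin N →₀ ℕ) = Finsupp.single o 1 + Finsupp.single b 1 then 1 else 0) +
    (if (m : Fin N →₀ ℕ) = Finsupp.single o 2 + Finsupp.single e 1 then 1 else 0)) : ℚ)) :=
    ⟨_, rfl⟩
  obtain ⟨φ₀, hφ₀⟩ : ∃ φ₀, φ₀ = (aeval c₀ : MvPolynomial (Fin N ⊕ E) ℚ →ₐ[ℚ] ℚ).toRingHom :=
    ⟨_, rfl⟩
  have hφX : ∀ i, φ₀ (X i) = c₀ i := by
    intro i
    rw [hφ₀]
    simp
  have hc : (fun m => φ₀ (cU E m)) = fun m =>
      (((if (m : Fin N →₀ ℕ) = Finsupp.single a 2 then 1 else 0) +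
      (if (m : Fin N →₀ ℕ) = Finsupp.single a 1 then -1 else 0) +
      (if (m : Fin N →₀ ℕ) = Finsupp.single e 1 then 1 else 0) +
      (if (m : Fin N →₀ ℕ) = Finsupp.single o 1 + Finsupp.single b 1 then 1 else 0) +
      (if (m : Fin N →₀ ℕ) = Finsupp.single o 2 + Finsupp.single e 1 then 1 else 0)) : ℚ) := by
    funext m
    unfold cU
    split_ifs with h
    all_goals first
      | (rw [hφX, hc₀]; simp_all)
      | (rw [map_zero]; simp_all)
  have hv : (fun q => φ₀ (vU E β o q)) = fun q => if q = o then (1 : ℚ) else 0 := by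
    funext q
    unfold vU
    by_cases hq : q = o
    · rw [if_pos hq, if_pos hq, map_one]
    · rw [if_neg hq, if_neg hq]
      split_ifs
      · rw [hφX, hc₀]
        rfl
      · rw [map_zero]
  have ho : o ∈ oth a b e := mem_oth.mpr ⟨heo.symm, hbo.symm, hao.symm⟩
  have htab : ∀ r i j l, φ₀ (Cf E a b e (cU E) (vU E β o) r i j l) = tab r i j l := by
    intro r i j l
    rw [Cf_map, hc, hv]
    rw [Cf_add, Cf_add, Cf_add, Cf_add]
    rw [one_term m1 ho, one_term m2 ho, one_term m3 ho, one_term m4 ho, one_term m5 ho]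
    · unfold tab
      simp [Finsupp.single_apply, hab, hae, hbe, hao, hbo, heo, hab.symm, hae.symm, hbe.symm,
        hao.symm, hbo.symm, heo.symm]
    all_goals
      intro q hq hqo
      rw [mem_oth] at hq
      simp [Finsupp.single_apply, hq.1.symm, hq.2.1.symm, hq.2.2.symm, Ne.symm hqo]
  have tG : (fun i j l => φ₀ (G i j l)) = tab 0 := by
    funext i j l
    rw [hG, htab]
  have tP : (fun i j l => φ₀ (P i j l)) = tab 1 := by
    funext i j l
    rw [hP, htab]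
  have tR : (fun i j l => φ₀ (R i j l)) = tab 2 := by
    funext i j l
    rw [hR, htab]
  obtain ⟨r₀, hr₀⟩ : ∃ r₀ : Fin 3 → ℚ, r₀ = ![1, 0, 0] := ⟨_, rfl⟩
  have r0 : r₀ 0 = 1 := by rw [hr₀]; rfl
  have r1 : r₀ 1 = 0 := by rw [hr₀]; rfl
  have r2 : r₀ 2 = 0 := by rw [hr₀]; rfl
  obtain ⟨Φ, hΦ0, hΦ⟩ := univ_pt3.{0} (gP G) (gP P) (gP R) H c₀ r₀ (by
    rw [← hφ₀, ev_gP, tG, r0, r1, r2]
    norm_num [ev3, li, qd, tab]) (by
    rw [← hφ₀, ev_gP, tP, r0, r1, r2]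
    norm_num [ev3, li, qd, tab]) (by
    rw [← hφ₀, ev_gP, tR, r0, r1, r2]
    norm_num [ev3, li, qd, tab]) (by
    rw [← hφ₀, hev, tG, tP, tR, r0, r1, r2]
    norm_num [hh, det3, dx, dy, dz, qd, tab]) (by
    rw [← hφ₀]
    have h1 : ∀ Q : MvPolynomial (Fin 3) (MvPolynomial (Fin N ⊕ E) ℚ), Q.eval₂ φ₀ r₀ =
      eval₂Hom φ₀ r₀ Q := fun Q => rfl
    rw [h1]
    unfold dt
    rw [pd0, pd1, pd2, pd0, pd1, pd2, pd0, pd1, pd2]
    simp only [map_add, map_sub, map_mul, dx_map, dy_map, dz_map, eval₂Hom_X', eval₂Hom_C, tG, tP,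
      tR, r0, r1, r2]
    norm_num [dx, dy, dz, tab])
  refine ⟨Φ, hΦ0, fun {k'} _ _ φ hφ => ?_⟩
  obtain ⟨z, z1, z2, z3, z4⟩ := hΦ φ hφ
  rw [ev_gP] at z1 z2 z3
  rw [hev] at z4
  have uG : (fun i j l => φ (G i j l)) =
      Cf E a b e (fun m => φ (cU E m)) (fun q => φ (vU E β o q)) 0 := by
    funext i j l
    rw [hG, Cf_map]
  have uP : (fun i j l => φ (P i j l)) =
      Cf E a b e (fun m => φ (cU E m)) (fun q => φ (vU E β o q)) 1 := by
    funext i j l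
    rw [hP, Cf_map]
  have uR : (fun i j l => φ (R i j l)) =
      Cf E a b e (fun m => φ (cU E m)) (fun q => φ (vU E β o q)) 2 := by
    funext i j l
    rw [hR, Cf_map]
  rw [uG] at z1 z4
  rw [uP] at z2 z4
  rw [uR] at z3 z4
  exact ⟨z, z1, z2, z3, z4⟩

/-- the discriminant of the general member -/
theorem nd_univ (hae : a ≠ e) (hab : a ≠ b) (hbe : b ≠ e) (m1 : Finsupp.single a 1 ∈ E)
    (m2 : Finsupp.single e 2 ∈ E) : ∃ Φ : MvPolynomial E ℚ, Φ ≠ 0 ∧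
      ∀ {L : Type} [Field L] [CharZero L] (c : (Fin N →₀ ℕ) → L),
        aeval (fun m : E => c m) Φ ≠ 0 → nd (Kf E a b e c 0) 0 ≠ 0 := by
  classical
  obtain ⟨cu, hcu⟩ : ∃ cu : (Fin N →₀ ℕ) → MvPolynomial E ℚ,
    cu = fun m => if h : m ∈ E then X ⟨m, h⟩ else 0 := ⟨_, rfl⟩
  have key : ∀ {L : Type} [Field L] [CharZero L] (c : (Fin N →₀ ℕ) → L),
      aeval (fun m : E => c m) (nd (Kf E a b e cu 0) 0) = nd (Kf E a b e c 0) 0 := by
    intro L _ _ c
    have h1 : aeval (fun m : E => c m) (nd (Kf E a b e cu 0) 0) =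
      ((aeval (fun m : E => c m) : MvPolynomial E ℚ →ₐ[ℚ] L) : MvPolynomial E ℚ →+* L)
        (nd (Kf E a b e cu 0) 0) := rfl
    rw [h1, nd_map]
    simp only [Kf_map, map_zero, Pi.zero_apply]
    congr 1
    funext i j l
    unfold Kf
    refine Finset.sum_congr rfl fun m hm => ?_
    have h2 : ((aeval (fun m : E => c m) : MvPolynomial E ℚ →ₐ[ℚ] L) : MvPolynomial E ℚ →+* L)
        (cu m) = c m := by
      rw [hcu]
      simp only [dif_pos hm]
      simp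
    beta_reduce
    rw [h2]
    rfl
  refine ⟨nd (Kf E a b e cu 0) 0, ?_, fun {L} _ _ c hc => by rwa [key] at hc⟩
  intro h0
  have h1 := key (L := ℚ) (fun m => (if m = Finsupp.single a 1 then 1 else 0) +
    (if m = Finsupp.single e 2 then 1 else 0))
  rw [h0, map_zero] at h1
  have hK : ∀ i j l, Kf E a b e (fun m => (if m = Finsupp.single a 1 then (1 : ℚ) else 0) +
      (if m = Finsupp.single e 2 then 1 else 0)) 0 i j l =
      (if 1 = i ∧ 0 = j ∧ 0 = l then 1 else 0) + (if 0 = i ∧ 0 = j ∧ 2 = l then 1 else 0) := by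
    intro i j l
    rw [Kf_add, Kf_single m1, Kf_single m2]
    have h2 : ∀ q₀ : Fin N, ∀ s : ℕ, (q₀ = a ∨ q₀ = e) →
        pr (0 : Fin N → ℚ) (oth a b e) (Finsupp.single q₀ s) = 1 := by
      intro q₀ s hq₀
      unfold pr
      apply Finset.prod_eq_one
      intro q hq
      rw [mem_oth] at hq
      have h3 : q₀ ≠ q := by
        rintro rfl
        rcases hq₀ with h | h
        · exact hq.2.2 h
        · exact hq.1 h
      rw [Finsupp.single_eq_of_ne (Ne.symm h3), pow_zero]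
    rw [h2 a 1 (Or.inl rfl), h2 e 2 (Or.inr rfl)]
    simp [Finsupp.single_apply, hab, hae, hbe, hab.symm, hae.symm, hbe.symm]
  unfold nd dA dB dC at h1
  simp only [hK] at h1
  norm_num at h1

end Net

end Pool.Agent.R867.B
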