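import Pool.Agent.R867.B.Core1
import Pool.Agent.R867.B.Univ4
import Pool.Agent.R867.H.Irr

/-! The general hypersurface of bidegree `(2, 2)` through a point: the fields. -/

set_option autoImplicit false

namespace Pool.Agent.R867.B

open Pool.Agent.TH178.HI MvPolynomial Pool.Agent.R867.H

/-- the exponents: bidegree at most `(2, 2)`, different from zero -/
noncomputable def Ez {N : ℕ} (β : Fin N → Fin 2) : Finset (Fin N →₀ ℕ) :=
  (expo β (fun _ => 2)).erase 0

theorem mem_Ez {N : ℕ} {β : Fin N → Fin 2} {m : Fin N →₀ ℕ} :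
    m ∈ Ez β ↔ m ≠ 0 ∧ ∀ j, ∑ l with β l = j, m l ≤ 2 := by
  unfold Ez
  rw [Finset.mem_erase, mem_expo]

/-- the data at the point -/
structure Cx {L : Type} [Field L] {N : ℕ} (β : Fin N → Fin 2) (a b e o : Fin N)
    (f : MvPolynomial (Fin N) L) (E : Type) [Field E] [Algebra L E]
    (θ : Fin N → E) (Om : IntermediateField L E) (za zb ze : E) : Prop where
  hab : a ≠ b
  hae : a ≠ e
  hbe : b ≠ e
  ba : β a = 0
  bb : β b = 0
  be : β e = 0
  bo : β o = 1
  hf : f.support ⊆ Ez β
  hza : za ∈ Om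
  hzb : zb ∈ Om
  hze : ze ∈ Om
  h1 : ev3 (Cf (Ez β) a b e (fun m => algebraMap L E (coeff m f))
    (fun q => if q = o then 1 else if β q = 1 then θ q else 0) 0) za zb ze = 0
  h2 : ev3 (Cf (Ez β) a b e (fun m => algebraMap L E (coeff m f))
    (fun q => if q = o then 1 else if β q = 1 then θ q else 0) 1) za zb ze = 0
  h3 : ev3 (Cf (Ez β) a b e (fun m => algebraMap L E (coeff m f))
    (fun q => if q = o then 1 else if β q = 1 then θ q else 0) 2) za zb ze = 0
  h4 : hh (Cf (Ez β) a b e (fun m => algebraMap L E (coeff m f))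
    (fun q => if q = o then 1 else if β q = 1 then θ q else 0) 0)
    (Cf (Ez β) a b e (fun m => algebraMap L E (coeff m f))
    (fun q => if q = o then 1 else if β q = 1 then θ q else 0) 1)
    (Cf (Ez β) a b e (fun m => algebraMap L E (coeff m f))
    (fun q => if q = o then 1 else if β q = 1 then θ q else 0) 2) za zb ze ≠ 0

section Exists

variable {N : ℕ} {β : Fin N → Fin 2} {a b e o : Fin N}

theorem ez_mem1 {q : Fin N} {s : ℕ} (h1 : 1 ≤ s) (h2 : s ≤ 2) : Finsupp.single q s ∈ Ez β := by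
  unfold Ez
  rw [Finset.mem_erase]
  refine ⟨?_, single_mem h2⟩
  intro h0
  rw [Finsupp.single_eq_zero] at h0
  omega

theorem ez_mem2 {q q' : Fin N} {s s' : ℕ} (h0 : β q ≠ β q') (h1 : 1 ≤ s) (h2 : s ≤ 2)
    (h2' : s' ≤ 2) : Finsupp.single q s + Finsupp.single q' s' ∈ Ez β := by
  rw [mem_Ez]
  constructor
  · intro h3
    have h4 := DFunLike.congr_fun h3 q
    rw [Finsupp.add_apply, Finsupp.single_eq_same] at h4
    simp at h4
    omega
  · intro j
    simp only [Finsupp.add_apply, Finset.sum_add_distrib]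
    rw [sum_single, sum_single]
    split_ifs with h3 h4
    · exact absurd (h3.trans h4.symm) h0
    · omega
    · omega
    · omega

/-- the point over the closure -/
theorem exists_cx (hab : a ≠ b) (hae : a ≠ e) (hbe : b ≠ e) (ba : β a = 0) (bb : β b = 0)
    (be : β e = 0) (bo : β o = 1) :
    ∃ Φ : MvPolynomial (Ez β) ℚ, Φ ≠ 0 ∧ ∀ {L E : Type} [Field L] [CharZero L] [Field E]
      [Algebra L E] [CharZero E] (f : MvPolynomial (Fin N) L) (θ : Fin N → E)
      (Om : IntermediateField L E), IsAlgClosed Om → (∀ q, θ q ∈ Om) →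
      AlgebraicIndependent L θ → f.support ⊆ Ez β →
      aeval (fun m : Ez β => coeff (m : Fin N →₀ ℕ) f) Φ ≠ 0 →
      ∃ za zb ze : E, Cx β a b e o f E θ Om za zb ze := by
  classical
  have hoa : a ≠ o := by rintro rfl; rw [ba] at bo; exact zero_ne_one bo
  have hob : b ≠ o := by rintro rfl; rw [bb] at bo; exact zero_ne_one bo
  have hoe : e ≠ o := by rintro rfl; rw [be] at bo; exact zero_ne_one bo
  obtain ⟨Φ', hΦ', hnet⟩ := net (E := Ez β) (β := β) hab hae hbe hoa hob hoe
    (ez_mem1 (by norm_num) le_rfl) (ez_mem1 le_rfl (by norm_num)) (ez_mem1 le_rfl (by norm_num))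
    (ez_mem2 (by rw [bo, bb]; decide) le_rfl (by norm_num) (by norm_num))
    (ez_mem2 (by rw [bo, be]; decide) (by norm_num) le_rfl (by norm_num))
  obtain ⟨Φ₁, hΦ₁, hco⟩ := coef_cond hΦ'
  refine ⟨Φ₁, hΦ₁, fun {L E} _ _ _ _ _ f θ Om hOm hθ hind hf hc => ?_⟩
  obtain ⟨θ', hθ'⟩ : ∃ θ' : Fin N → Om, ∀ q, (θ' q : E) = θ q := ⟨fun q => ⟨θ q, hθ q⟩, fun _ => rfl⟩
  have hind' : AlgebraicIndependent L θ' := by
    rw [← AlgHom.algebraicIndependent_iff Om.val Om.val.injective]
    have h1 : Om.val ∘ θ' = θ := funext hθ'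
    rw [h1]
    exact hind
  have hcz : CharZero Om := charZero_of_injective_algebraMap (algebraMap L Om).injective
  have h1 := hco (fun m : Ez β => coeff (m : Fin N →₀ ℕ) f) θ' hind' hc
  obtain ⟨φ, hφ⟩ : ∃ φ : MvPolynomial (Fin N ⊕ Ez β) ℚ →+* Om, φ = (aeval (Sum.elim θ'
    (fun m : Ez β => algebraMap L Om (coeff (m : Fin N →₀ ℕ) f))) :
      MvPolynomial (Fin N ⊕ Ez β) ℚ →ₐ[ℚ] Om).toRingHom := ⟨_, rfl⟩
  obtain ⟨z, z1, z2, z3, z4⟩ := hnet φ (by rw [hφ]; exact h1)
  have hφl : ∀ q, φ (X (Sum.inl q)) = θ' q := by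
    intro q
    rw [hφ]
    simp
  have hφr : ∀ m : Ez β, φ (X (Sum.inr m)) = algebraMap L Om (coeff (m : Fin N →₀ ℕ) f) := by
    intro m
    rw [hφ]
    simp
  have hC : ∀ r, (fun i j l => ((Cf (Ez β) a b e (fun m => φ (cU (Ez β) m))
      (fun q => φ (vU (Ez β) β o q)) r i j l : Om) : E)) =
      Cf (Ez β) a b e (fun m => algebraMap L E (coeff m f))
      (fun q => if q = o then 1 else if β q = 1 then θ q else 0) r := by
    intro r
    funext i j l
    have h5 := Cf_map (E := Ez β) (a := a) (b := b) (e := e) (algebraMap Om E) (fun m => φ (cU (Ez β) m))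
      (fun q => φ (vU (Ez β) β o q)) r i j l
    refine h5.trans ?_
    have h6 : (fun m => algebraMap Om E (φ (cU (Ez β) m))) =
        fun m => algebraMap L E (coeff m f) := by
      funext m
      unfold cU
      split_ifs with h
      · rw [hφr, ← IsScalarTower.algebraMap_apply]
      · rw [map_zero, map_zero, notMem_support_iff.mp (fun h7 => h (hf h7)), map_zero]
    have h7 : (fun q => algebraMap Om E (φ (vU (Ez β) β o q))) =
        fun q => if q = o then 1 else if β q = 1 then θ q else 0 := by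
      funext q
      unfold vU
      split_ifs
      · rw [map_one, map_one]
      · rw [hφl]
        exact hθ' q
      · rw [map_zero, map_zero]
    rw [h6, h7]
  refine ⟨z 0, z 1, z 2, ⟨hab, hae, hbe, ba, bb, be, bo, hf, (z 0).2, (z 1).2, (z 2).2,
    ?_, ?_, ?_, ?_⟩⟩
  · have h5 := congrArg (algebraMap Om E) z1
    rw [ev3_map, map_zero] at h5
    rw [← hC]
    exact h5
  · have h5 := congrArg (algebraMap Om E) z2
    rw [ev3_map, map_zero] at h5
    rw [← hC]
    exact h5
  · have h5 := congrArg (algebraMap Om E) z3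
    rw [ev3_map, map_zero] at h5
    rw [← hC]
    exact h5
  · intro h0
    apply z4
    apply (algebraMap Om E).injective
    rw [hh_map, map_zero, ← h0, ← hC, ← hC, ← hC]
    rfl

end Exists

end Pool.Agent.R867.B
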