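import Pool.Agent.R867.B.Core2

/-! The general hypersurface of bidegree `(2, 2)` through a point: assembly. -/

set_option autoImplicit false

namespace Pool.Agent.R867.B

open Pool.Agent.TH178.HI MvPolynomial Pool.Agent.R867.H

section Asm

variable {L E : Type} [Field L] [Field E] [Algebra L E] {N : ℕ} {β : Fin N → Fin 2}
  {a b e o : Fin N} {f : MvPolynomial (Fin N) L}

theorem fin2a : ∀ i : Fin 2, i ≠ 1 → i = 0 := by decide

theorem fin2b : ∀ i : Fin 2, i ≠ 0 → i = 1 := by decide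

theorem hh_ne {S : Type} [CommRing S] {G P R : ℕ → ℕ → ℕ → S} {X Y Z : S}
    (h : hh G P R X Y Z ≠ 0) : det3 G P R X Y Z ≠ 0 ∧ dz G X Y Z ≠ 0 ∧
      qd G (dz G X Y Z) 0 (- dx G X Y Z) ≠ 0 ∧ X ≠ 0 ∧ qd G X Y Z ≠ 0 := by
  refine ⟨?_, ?_, ?_, ?_, ?_⟩ <;> intro h0 <;> apply h <;> unfold hh <;> rw [h0] <;> ring

theorem Ez_A {m : Fin N →₀ ℕ} (hm : m ∈ Ez β) :
    ∑ q ∈ Finset.univ.filter (fun q => β q = 0), m q ≤ 2 := (mem_Ez.mp hm).2 0

theorem Ez_abe {m : Fin N →₀ ℕ} (hm : m ∈ Ez β) (hab : a ≠ b) (hae : a ≠ e) (hbe : b ≠ e)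
    (ba : β a = 0) (bb : β b = 0) (be : β e = 0) : m a + m b + m e ≤ 2 := by
  refine le_trans ?_ (Ez_A hm)
  have h1 : ({a, b, e} : Finset (Fin N)) ⊆ Finset.univ.filter (fun q => β q = 0) := by
    intro q hq
    simp only [Finset.mem_insert, Finset.mem_singleton] at hq
    rw [Finset.mem_filter]
    rcases hq with rfl | rfl | rfl
    · exact ⟨Finset.mem_univ _, ba⟩
    · exact ⟨Finset.mem_univ _, bb⟩
    · exact ⟨Finset.mem_univ _, be⟩
  have h2 := Finset.sum_le_sum_of_subset (f := fun q => m q) h1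
  rw [Finset.sum_insert (by simp [hab, hae]), Finset.sum_insert (by simp [hbe]),
    Finset.sum_singleton] at h2
  omega

theorem G000 {c : (Fin N →₀ ℕ) → E} {v : Fin N → E} :
    Cf (Ez β) a b e c v 0 0 0 0 = 0 := by
  unfold Cf
  apply Finset.sum_eq_zero
  intro m hm
  rw [if_neg]
  rintro ⟨⟨h1, h2, h3⟩, h4⟩
  apply (mem_Ez.mp hm).1
  ext q
  rw [Finset.sum_eq_zero_iff] at h4
  by_cases hqa : q = a
  · rw [hqa]; exact h1
  by_cases hqb : q = b
  · rw [hqb]; exact h2
  by_cases hqe : q = e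
  · rw [hqe]; exact h3
  exact h4 q (mem_oth.mpr ⟨hqe, hqb, hqa⟩)

theorem asm [CharZero E] [IsAlgClosed E] {z : (Fin N ⊕ Bool) ⊕ Fin N → E}
    (hz : AlgebraicIndependent L z) {Om : IntermediateField L E}
    (hOm : Om = AC L (z '' (Set.range (fun q : Fin N => Sum.inl (Sum.inl q)))))
    {za zb ze : E} (hC : Cx β a b e o f E (fun q => z (Sum.inl (Sum.inl q))) Om za zb ze)
    (hnd : nd (Kf (Ez β) a b e (fun m => coeff m f) 0) 0 ≠ 0) :
    ∃ (X : Fin N → E) (R' : IntermediateField L E), aeval X f = 0 ∧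
      AlgebraicIndependent L (fun i : {i : Fin N // i ≠ e} => X i) ∧ Pure R' ∧
      IntermediateField.adjoin L (Set.range X) ≤ R' ∧
      RelCl (IntermediateField.adjoin L (Set.range X)) R' ∧ degreeOf e f ≠ 0 := by
  classical
  obtain ⟨θ, hθ⟩ : ∃ θ : Fin N → E, θ = fun q => z (Sum.inl (Sum.inl q)) := ⟨_, rfl⟩
  rw [← hθ] at hC
  obtain ⟨hab, hae, hbe, ba, bb, be, bo, hf, hza, hzb, hze, h1, h2, h3, h4⟩ := hC
  have hoa : a ≠ o := by rintro rfl; rw [ba] at bo; exact zero_ne_one bo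
  have hob : b ≠ o := by rintro rfl; rw [bb] at bo; exact zero_ne_one bo
  have hoe : e ≠ o := by rintro rfl; rw [be] at bo; exact zero_ne_one bo
  obtain ⟨v, hv⟩ : ∃ v : Fin N → E, v = fun q => if q = o then 1 else if β q = 1 then θ q else 0 :=
    ⟨_, rfl⟩
  obtain ⟨c, hc⟩ : ∃ c : (Fin N →₀ ℕ) → E, c = fun m => algebraMap L E (coeff m f) := ⟨_, rfl⟩
  rw [← hv, ← hc] at h1 h2 h3 h4
  obtain ⟨g1, g2, g3, g4, g5⟩ := hh_ne h4
  obtain ⟨G, hG⟩ : ∃ G, G = Cf (Ez β) a b e c v 0 := ⟨_, rfl⟩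
  obtain ⟨P, hP⟩ : ∃ P, P = Cf (Ez β) a b e c v 1 := ⟨_, rfl⟩
  obtain ⟨R, hR⟩ : ∃ R, R = Cf (Ez β) a b e c v 2 := ⟨_, rfl⟩
  rw [← hG] at h1 g1 g2 g3 g5
  rw [← hP] at h2 g1
  rw [← hR] at h3 g1
  -- the fields
  obtain ⟨A₀, hA₀⟩ : ∃ A₀, A₀ = IntermediateField.adjoin L
    (Set.range (fun q : {q : Fin N // β q = 1 ∧ q ≠ o} => θ q)) := ⟨_, rfl⟩
  have hθO : ∀ q, θ q ∈ Om := by
    intro q
    rw [hOm, hθ]
    exact subset_AC _ ⟨_, ⟨q, rfl⟩, rfl⟩
  have hAO : A₀ ≤ Om := by
    rw [hA₀, IntermediateField.adjoin_le_iff]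
    rintro _ ⟨q, rfl⟩
    exact hθO q
  have hvA : ∀ q, v q ∈ A₀ := by
    intro q
    rw [hv]
    dsimp only
    split_ifs with h5 h6
    · exact A₀.one_mem
    · rw [hA₀]
      exact IntermediateField.subset_adjoin _ _ ⟨⟨q, h6, h5⟩, rfl⟩
    · exact A₀.zero_mem
  have hcA : ∀ m, c m ∈ A₀ := by
    intro m
    rw [hc]
    exact A₀.algebraMap_mem _
  have hGA : ∀ i j l, G i j l ∈ A₀ := by
    intro i j l
    rw [hG]
    exact Cf_mem hcA (fun q _ => hvA q) _ i j l
  have hPA : ∀ i j l, P i j l ∈ A₀ := by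
    intro i j l
    rw [hP]
    exact Cf_mem hcA (fun q _ => hvA q) _ i j l
  have hRA : ∀ i j l, R i j l ∈ A₀ := by
    intro i j l
    rw [hR]
    exact Cf_mem hcA (fun q _ => hvA q) _ i j l
  obtain ⟨W, hW⟩ : ∃ W, W = z (Sum.inl (Sum.inr false)) := ⟨_, rfl⟩
  obtain ⟨t, ht⟩ : ∃ t, t = z (Sum.inl (Sum.inr true)) := ⟨_, rfl⟩
  have htW : Transcendental Om W := by
    rw [hW]
    refine transcendental_of_le hz (I := Set.range (fun q : Fin N => Sum.inl (Sum.inl q))) ?_
      (le_of_eq hOm)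
    rintro ⟨q, hq⟩
    simp at hq
  obtain ⟨I, hI⟩ : ∃ I : Set ((Fin N ⊕ Bool) ⊕ Fin N), I = Set.range Sum.inl := ⟨_, rfl⟩
  have hOI : Om ≤ AC L (z '' I) := by
    rw [hOm]
    intro y hy
    rw [mem_AC] at hy ⊢
    refine isAlgebraic_mono' (IntermediateField.adjoin.mono L _ _ (Set.image_mono ?_)) hy
    rw [hI]
    rintro _ ⟨q, rfl⟩
    exact ⟨_, rfl⟩
  have hWI : W ∈ AC L (z '' I) := by
    rw [hW, hI]
    exact subset_AC _ ⟨_, ⟨_, rfl⟩, rfl⟩
  have htI : t ∈ AC L (z '' I) := by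
    rw [ht, hI]
    exact subset_AC _ ⟨_, ⟨_, rfl⟩, rfl⟩
  have htt : Transcendental (IntermediateField.adjoin L ((Om : Set E) ∪ {W})) t := by
    rw [ht]
    refine transcendental_of_le hz (I := Set.range (fun q : Fin N => Sum.inl (Sum.inl q)) ∪
      {Sum.inl (Sum.inr false)}) ?_ ?_
    · rintro (⟨q, hq⟩ | hq)
      · simp at hq
      · simp at hq
    · refine adjoin_le' ?_ ?_
      · rw [hOm]
        intro y hy
        rw [mem_AC] at hy ⊢
        exact isAlgebraic_mono' (IntermediateField.adjoin.mono L _ _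
          (Set.image_mono Set.subset_union_left)) hy
      · intro y hy
        rw [Set.mem_singleton_iff] at hy
        rw [hy, hW]
        exact subset_AC _ ⟨_, Or.inr rfl, rfl⟩
  obtain ⟨xa, xb, xe, u, hpt⟩ := pencil3 hAO hGA hPA hRA (by rw [hG]; exact G000) hza hzb hze
    h1 h2 h3 g1 g2 g3 g4 g5 htW htt
  have hrelK := relK hAO hpt
  obtain ⟨L₂, hL₂⟩ : ∃ L₂, L₂ = IntermediateField.adjoin L ((A₀ : Set E) ∪ {u}) := ⟨_, rfl⟩
  obtain ⟨M, hM⟩ : ∃ M, M = IntermediateField.adjoin L ((A₀ : Set E) ∪ {xb / xa, xe / xa}) :=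
    ⟨_, rfl⟩
  rw [← hL₂, ← hM] at hrelK
  have hAM : A₀ ≤ M := by rw [hM]; exact fun y hy => memL hy
  have huM : u ∈ M := by rw [hM]; exact hpt.mu
  have hxaM : xa ∈ M := by rw [hM]; exact hpt.mxa
  have hxbM : xb ∈ M := by
    have h5 : xb = xa * (xb / xa) := by have := hpt.xa0; field_simp
    rw [h5]
    exact mul_mem hxaM (by rw [hM]; exact memR (Or.inl rfl))
  have hxeM : xe ∈ M := by
    have h5 : xe = xa * (xe / xa) := by have := hpt.xa0; field_simp
    rw [h5]
    exact mul_mem hxaM (by rw [hM]; exact memR (Or.inr rfl))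
  have hLM : L₂ ≤ M := by
    rw [hL₂]
    refine adjoin_le' hAM ?_
    intro y hy
    rw [Set.mem_singleton_iff] at hy
    rw [hy]
    exact huM
  have hMI : M ≤ AC L (z '' I) := by
    have h5 : IntermediateField.adjoin L (((IntermediateField.adjoin L ((Om : Set E) ∪ {W}) :
        IntermediateField L E) : Set E) ∪ {t}) ≤ AC L (z '' I) := by
      refine adjoin_le' (adjoin_le' hOI ?_) ?_
      · intro y hy
        rw [Set.mem_singleton_iff] at hy
        rwa [hy]
      · intro y hy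
        rw [Set.mem_singleton_iff] at hy
        rwa [hy]
    rw [hM]
    refine adjoin_le' (hAO.trans hOI) ?_
    rintro y (rfl | rfl)
    · exact div_mem (h5 hpt.bxb) (h5 hpt.bxa)
    · exact div_mem (h5 hpt.bxe) (h5 hpt.bxa)
  have hpA : Pure A₀ := by
    refine ⟨{q : Fin N // β q = 1 ∧ q ≠ o}, inferInstance,
      fun q : {q : Fin N // β q = 1 ∧ q ≠ o} => θ q, ?_, hA₀.symm⟩
    rw [hθ]
    exact hz.comp (fun q : {q : Fin N // β q = 1 ∧ q ≠ o} => Sum.inl (Sum.inl (q : Fin N)))
      (fun x y hxy => Subtype.ext (Sum.inl_injective (Sum.inl_injective hxy)))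
  have hpM : Pure M := by
    have h5 := Pure.fam hpA (restr hAO hpt.ind)
    rw [range_opt, ← hM] at h5
    exact h5
  -- the point over `M`
  obtain ⟨p, hp⟩ : ∃ p : Fin N → E, p = fun q => if q = a then xa else if q = b then xb else
    if q = e then xe else u * v q := ⟨_, rfl⟩
  have hpa : p a = xa := by rw [hp]; exact if_pos rfl
  have hpb : p b = xb := by rw [hp]; simp [hab.symm]
  have hpe : p e = xe := by rw [hp]; simp [hae.symm, hbe.symm]
  have hpo : ∀ q ∈ oth a b e, p q = u * v q := by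
    intro q hq
    rw [mem_oth] at hq
    rw [hp]
    simp [hq.1, hq.2.1, hq.2.2]
  have hE3 : ∀ m ∈ Ez β, m a + m b + m e ≤ 2 := fun m hm => Ez_abe hm hab hae hbe ba bb be
  have hv0 : ∀ q, β q = 0 → v q = 0 := by
    intro q hq
    rw [hv]
    have h5 : q ≠ o := by rintro rfl; rw [bo] at hq; exact one_ne_zero hq
    have h6 : β q ≠ 1 := by rw [hq]; exact zero_ne_one
    simp [h5, h6]
  have hvo : v o = 1 := by rw [hv]; exact if_pos rfl
  have hET : ∀ m ∈ Ez β, ∑ q ∈ oth a b e, m q ≤ 2 ∨ ∃ q ∈ oth a b e, v q = 0 ∧ m q ≠ 0 := by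
    intro m hm
    by_cases h5 : ∃ q ∈ oth a b e, v q = 0 ∧ m q ≠ 0
    · exact Or.inr h5
    · left
      push Not at h5
      refine le_trans ?_ ((mem_Ez.mp hm).2 1)
      have h6 : ∑ q ∈ oth a b e, m q = ∑ q ∈ (oth a b e).filter (fun q => β q = 1), m q := by
        rw [Finset.sum_filter]
        refine Finset.sum_congr rfl fun q hq => ?_
        split_ifs with h7
        · rfl
        · have h8 : β q = 0 := fin2a _ h7
          exact h5 q hq (hv0 q h8)
      rw [h6]
      exact Finset.sum_le_sum_of_subset (Finset.filter_subset_filter _ (Finset.subset_univ _))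
  have hKp : ∀ i j l, Kf (Ez β) a b e c p i j l = G i j l + u * P i j l + u ^ 2 * R i j l := by
    intro i j l
    rw [hG, hP, hR]
    exact Kf_T hpo hET i j l
  have hpf : aeval p f = 0 := by
    rw [aeval_evE hf, ← hc, split3 hab hae hbe hE3, ev3_T hKp, hpa, hpb, hpe]
    have h5 := hpt.eqG
    have h6 := hpt.equ
    linear_combination h5 + u * h6
  have hpder : aeval p (pderiv e f) ≠ 0 := by
    rw [pderiv_dz hf hab hae hbe hE3, ← hc, dz_T hKp, hpa, hpb, hpe]
    exact hpt.der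
  have hdeg : degreeOf e f ≠ 0 := by
    intro h0
    apply hpder
    have h5 : pderiv e f = 0 := by
      apply pderiv_eq_zero_of_notMem_vars
      intro h6
      rw [mem_vars] at h6
      obtain ⟨m, hm, hme⟩ := h6
      have h7 := monomial_le_degreeOf e hm
      rw [h0] at h7
      exact (Finsupp.mem_support_iff.mp hme) (Nat.le_zero.mp h7)
    rw [h5, map_zero]
  have hpM' : ∀ q, p q ∈ M := by
    intro q
    rw [hp]
    dsimp only
    split_ifs
    · exact hxaM
    · exact hxbM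
    · exact hxeM
    · exact mul_mem huM (hAM (hvA q))
  -- the generic point
  obtain ⟨X₀, hX₀⟩ : ∃ X₀ : Fin N → E, X₀ = fun q => if β q = 0 then z (Sum.inr q) else u * v q :=
    ⟨_, rfl⟩
  have hX00 : ∀ q, β q = 0 → X₀ q = z (Sum.inr q) := by
    intro q hq
    rw [hX₀]
    exact if_pos hq
  have hX01 : ∀ q, β q ≠ 0 → X₀ q = u * v q := by
    intro q hq
    rw [hX₀]
    exact if_neg hq
  -- independence
  have hy1 : AlgebraicIndependent L (fun q : {q : Fin N // β q = 1} => u * v q) := by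
    have h5 : AlgebraicIndependent L (fun q : {q : Fin N // β q = 1 ∧ q ≠ o} => θ q) := by
      rw [hθ]
      exact hz.comp (fun q : {q : Fin N // β q = 1 ∧ q ≠ o} => Sum.inl (Sum.inl (q : Fin N)))
        (fun x y hxy => Subtype.ext (Sum.inl_injective (Sum.inl_injective hxy)))
    have h6 : AlgebraicIndependent L (fun x : Option {q : Fin N // β q = 1 ∧ q ≠ o} =>
        x.elim u (fun q : {q : Fin N // β q = 1 ∧ q ≠ o} => θ q)) := by
      rw [h5.option_iff_transcendental, ← IntermediateField.transcendental_adjoin_iff, ← hA₀]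
      intro h7
      exact hpt.tru (isAlgebraic_mono' hAO h7)
    obtain ⟨g, hg⟩ : ∃ g : {q : Fin N // β q = 1} → Option {q : Fin N // β q = 1 ∧ q ≠ o},
      g = fun q : {q : Fin N // β q = 1} => if h : (q : Fin N) = o then none else
        some ⟨q, q.2, h⟩ := ⟨_, rfl⟩
    have hgi : Function.Injective g := by
      intro x y hxy
      rw [hg] at hxy
      dsimp only at hxy
      split_ifs at hxy with i1 i2 i2
      · exact Subtype.ext (i1.trans i2.symm)
      · simp only [Option.some.injEq, Subtype.mk.injEq] at hxy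
        exact Subtype.ext hxy
    have h7 := h6.comp g hgi
    refine swap h7 ?_
    intro q
    have hmo : u ∈ IntermediateField.adjoin L
        (Set.range (fun q : {q : Fin N // β q = 1} => u * v q)) := by
      have h8 : u * v o ∈ IntermediateField.adjoin L
        (Set.range (fun q : {q : Fin N // β q = 1} => u * v q)) :=
        IntermediateField.subset_adjoin _ _ ⟨⟨o, bo⟩, rfl⟩
      rwa [hvo, mul_one] at h8
    rw [Function.comp_apply, hg]
    dsimp only
    split_ifs with i1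
    · exact hmo
    · have hu0 : u ≠ 0 := by
        rintro rfl
        exact hpt.tru isAlgebraic_zero
      have h9 : u * v q ∈ IntermediateField.adjoin L
        (Set.range (fun q : {q : Fin N // β q = 1} => u * v q)) :=
        IntermediateField.subset_adjoin _ _ ⟨q, rfl⟩
      have h10 : v q = θ q := by
        rw [hv]
        simp [i1, q.2]
      have h11 : θ q = (u * v q) / u := by
        rw [h10]
        field_simp
      change θ q ∈ _
      rw [h11]
      exact div_mem h9 hmo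
  have hXM : AlgebraicIndependent M (fun q : {q : Fin N // β q = 0} => z (Sum.inr (q : Fin N))) := by
    refine indep_tau hz hMI (fun q : {q : Fin N // β q = 0} => Sum.inr (q : Fin N)) ?_ ?_
    · intro x y hxy
      exact Subtype.ext (Sum.inr_injective hxy)
    · intro q
      rw [hI]
      rintro ⟨x, hx⟩
      simp at hx
  have hX₀i : AlgebraicIndependent L X₀ := by
    have h5 := hy1.sumElim_of_tower (S := M) (y := fun q : {q : Fin N // β q = 0} =>
      z (Sum.inr (q : Fin N))) (by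
        rintro _ ⟨q, rfl⟩
        exact ⟨⟨u * v q, mul_mem huM (hAM (hvA q))⟩, rfl⟩) hXM
    obtain ⟨g, hg⟩ : ∃ g : Fin N → {q : Fin N // β q = 0} ⊕ {q : Fin N // β q = 1},
      g = fun q => if h : β q = 0 then Sum.inl ⟨q, h⟩ else Sum.inr ⟨q, fin2b _ h⟩ := ⟨_, rfl⟩
    have hgi : Function.Injective g := by
      intro x y hxy
      rw [hg] at hxy
      dsimp only at hxy
      split_ifs at hxy with i1 i2 i2
      · simp only [Sum.inl.injEq, Subtype.mk.injEq] at hxy
        exact hxy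
      · simp only [Sum.inr.injEq, Subtype.mk.injEq] at hxy
        exact hxy
    have h6 := h5.comp g hgi
    have h7 : (Sum.elim (fun q : {q : Fin N // β q = 0} => z (Sum.inr (q : Fin N)))
        (fun q : {q : Fin N // β q = 1} => u * v q)) ∘ g = X₀ := by
      funext q
      rw [Function.comp_apply, hg, hX₀]
      dsimp only
      split_ifs
      · rfl
      · rfl
    rw [h7] at h6
    exact h6
  have hndX : nd (Kf (Ez β) a b e c X₀) (X₀ b) ≠ 0 := by
    rw [hc]
    exact nd_gen hab hbe hnd (hX₀i.comp (fun q : {q : Fin N // q ≠ a ∧ q ≠ e} => (q : Fin N))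
      Subtype.val_injective)
  obtain ⟨K, hK⟩ : ∃ K, K = Kf (Ez β) a b e c X₀ := ⟨_, rfl⟩
  rw [← hK] at hndX
  have hK2 : K 0 0 2 ≠ 0 := left_ne_zero_of_mul hndX
  have hKd := right_ne_zero_of_mul hndX
  -- the root
  obtain ⟨r, hr⟩ : ∃ r : E, ev3 K (X₀ a) (X₀ b) r = 0 := by
    obtain ⟨Q, hQ⟩ : ∃ Q : Polynomial E, Q = Polynomial.C (K 0 0 2) * Polynomial.X ^ 2 +
      Polynomial.C (K 0 0 1 + K 1 0 1 * X₀ a + K 0 1 1 * X₀ b) * Polynomial.X +
      Polynomial.C (K 0 0 0 + K 1 0 0 * X₀ a + K 0 1 0 * X₀ b + K 2 0 0 * X₀ a ^ 2 +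
        K 0 2 0 * X₀ b ^ 2 + K 1 1 0 * X₀ a * X₀ b) := ⟨_, rfl⟩
    have hd : Q.degree ≠ 0 := by
      rw [hQ, Polynomial.degree_quadratic hK2]
      decide
    obtain ⟨r, hr⟩ := IsAlgClosed.exists_root Q hd
    refine ⟨r, ?_⟩
    rw [Polynomial.IsRoot.def, hQ] at hr
    simp only [Polynomial.eval_add, Polynomial.eval_mul, Polynomial.eval_C, Polynomial.eval_pow,
      Polynomial.eval_X] at hr
    rw [← hr]
    unfold ev3 li qd
    ring
  obtain ⟨Y, hY⟩ : ∃ Y : Fin N → E, Y = fun q => if q = e then r else X₀ q := ⟨_, rfl⟩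
  have hYe : Y e = r := by rw [hY]; exact if_pos rfl
  have hYn : ∀ q, q ≠ e → Y q = X₀ q := by
    intro q hq
    rw [hY]
    exact if_neg hq
  have hKY : Kf (Ez β) a b e c Y = K := by
    rw [hK]
    apply Kf_congr
    intro q hq
    rw [mem_oth] at hq
    exact hYn q hq.1
  have hYf : aeval Y f = 0 := by
    rw [aeval_evE hf, ← hc, split3 hab hae hbe hE3, hKY, hYn a hae, hYn b hbe, hYe]
    exact hr
  have hSD : SD f (Ez β) (Finset.univ.filter (fun q => β q = 0)) a b e L₂ M p Y := by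
    have hoA : ∀ q, q ∉ Finset.univ.filter (fun q => β q = 0) → β q ≠ 0 := by
      intro q hq h0
      exact hq (Finset.mem_filter.mpr ⟨Finset.mem_univ _, h0⟩)
    have hYo : ∀ q, β q ≠ 0 → Y q = u * v q := by
      intro q hq
      rw [hYn q (by rintro rfl; exact hq be), hX01 q hq]
    refine ⟨hf, hab, hae, hbe, Finset.mem_filter.mpr ⟨Finset.mem_univ _, ba⟩,
      Finset.mem_filter.mpr ⟨Finset.mem_univ _, bb⟩, Finset.mem_filter.mpr ⟨Finset.mem_univ _, be⟩,
      fun m hm => Ez_A hm, hLM, hrelK, ?_, ?_, hpM', hpf, hpder, ?_, hYf, ?_, ?_⟩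
    · intro q hq
      rw [hYo q (hoA q hq), hL₂]
      exact mul_mem (memR rfl) (memL (hvA q))
    · intro q hq
      have hq' := hoA q hq
      rw [hYo q hq', hpo q]
      rw [mem_oth]
      refine ⟨?_, ?_, ?_⟩
      · rintro rfl; exact hq' be
      · rintro rfl; exact hq' bb
      · rintro rfl; exact hq' ba
    · have h5 := hXM.comp (fun q : {q : Fin N // q ∈ Finset.univ.filter (fun q => β q = 0) ∧ q ≠ e} =>
        (⟨q, (Finset.mem_filter.mp q.2.1).2⟩ : {q : Fin N // β q = 0})) (by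
          intro x y hxy
          exact Subtype.ext (congrArg (fun w : {q : Fin N // β q = 0} => (w : Fin N)) hxy))
      have h6 : (fun q : {q : Fin N // q ∈ Finset.univ.filter (fun q => β q = 0) ∧ q ≠ e} =>
          Y q) = (fun q : {q : Fin N // β q = 0} => z (Sum.inr (q : Fin N))) ∘
          (fun q : {q : Fin N // q ∈ Finset.univ.filter (fun q => β q = 0) ∧ q ≠ e} =>
        (⟨q, (Finset.mem_filter.mp q.2.1).2⟩ : {q : Fin N // β q = 0})) := by
        funext q
        rw [hYn q q.2.2, hX00 q (Finset.mem_filter.mp q.2.1).2]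
        rfl
      rw [h6]
      exact h5
    · rw [← hc, hKY]
      exact hK2
    · rw [← hc, hKY, hYn b hbe]
      exact hKd
  obtain ⟨s1, -⟩ := hSD.main
  have s2 := hSD.pure hpM
  have heq : IntermediateField.adjoin L ((L₂ : Set E) ∪ Set.range Y) =
      IntermediateField.adjoin L (Set.range Y) := by
    apply le_antisymm
    · have hu : u ∈ IntermediateField.adjoin L (Set.range Y) := by
        have h5 : Y o ∈ IntermediateField.adjoin L (Set.range Y) :=
          IntermediateField.subset_adjoin _ _ ⟨o, rfl⟩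
        rw [hYn o hoe.symm, hX01 o (by rw [bo]; exact one_ne_zero), hvo, mul_one] at h5
        exact h5
      have hu0 : u ≠ 0 := by
        rintro rfl
        exact hpt.tru isAlgebraic_zero
      refine adjoin_le' ?_ (fun y hy => IntermediateField.subset_adjoin _ _ hy)
      rw [hL₂]
      refine adjoin_le' ?_ ?_
      · rw [hA₀, IntermediateField.adjoin_le_iff]
        rintro _ ⟨q, rfl⟩
        have h5 : Y q ∈ IntermediateField.adjoin L (Set.range Y) :=
          IntermediateField.subset_adjoin _ _ ⟨q, rfl⟩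
        have h6 : β q ≠ 0 := by rw [q.2.1]; exact one_ne_zero
        have h7 : v q = θ q := by
          rw [hv]
          simp [q.2.1, q.2.2]
        rw [hYn q (by intro h8; rw [h8] at h6; exact h6 be), hX01 q h6, h7] at h5
        have h8 : θ q = (u * θ q) / u := by field_simp
        change θ q ∈ _
        rw [h8]
        exact div_mem h5 hu
      · intro y hy
        rw [Set.mem_singleton_iff] at hy
        rw [hy]
        exact hu
    · exact IntermediateField.adjoin.mono L _ _ Set.subset_union_right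
  rw [heq] at s1
  refine ⟨Y, _, hYf, ?_, s2, ?_, s1, hdeg⟩
  · have h5 := hX₀i.comp (fun q : {q : Fin N // q ≠ e} => (q : Fin N)) Subtype.val_injective
    have h6 : (fun i : {i : Fin N // i ≠ e} => Y i) = X₀ ∘
        (fun q : {q : Fin N // q ≠ e} => (q : Fin N)) := by
      funext q
      exact hYn q q.2
    rw [h6]
    exact h5
  · exact IntermediateField.adjoin.mono L _ _ Set.subset_union_right

end Asm

end Pool.Agent.R867.B
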