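import Pool.Agent.R867.B.Core3

/-! The general hypersurface of bidegree `(2, 2)` through the origin is realizable. -/

set_option autoImplicit false

namespace Pool.Agent.R867.B

open Pool.Agent.TH178.HI MvPolynomial Pool.Agent.R867.H

theorem range_field {L K E : Type} [Field L] [Field K] [Algebra L K] [Field E] [Algebra L E]
    {N : ℕ} {ξ : Fin N → K} (hξ : IntermediateField.adjoin L (Set.range ξ) = ⊤) {X : Fin N → E}
    {σ : K →ₐ[L] E} (hσ : ∀ i, σ (ξ i) = X i) :
    σ.fieldRange = IntermediateField.adjoin L (Set.range X) := by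
  have h1 : σ.fieldRange = (⊤ : IntermediateField L K).map σ := by
    ext y
    simp
  rw [h1, ← hξ, IntermediateField.adjoin_map, ← Set.range_comp]
  congr 2
  funext i
  exact hσ i

theorem big0 {L F E : Type} [Field L] [Field F] [Algebra L F] [Field E] [Algebra F E]
    [Algebra L E] [IsScalarTower L F E] {ι : Type} {z : ι → F} (hz : AlgebraicIndependent L z) :
    AlgebraicIndependent L (fun i => algebraMap F E (z i)) := by
  have h := hz.map' (f := IsScalarTower.toAlgHom L F E) (algebraMap F E).injective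
  exact h

theorem big (L : Type) [Field L] (ι : Type) [Finite ι] : ∃ (E : Type) (_ : Field E)
    (_ : Algebra L E) (_ : IsAlgClosed E) (z : ι → E), AlgebraicIndependent L z := by
  obtain ⟨m, ⟨e⟩⟩ := Finite.exists_equiv_fin ι
  have h1 := (Pool.Agent.R867.Mov.algInd_X L m).comp e e.injective
  exact ⟨AlgebraicClosure (Pool.Agent.R867.Mov.Rt m L), inferInstance, inferInstance,
    inferInstance, _, big0 h1⟩

theorem core0 {N : ℕ} {β : Fin N → Fin 2} {a b e o : Fin N} (hab : a ≠ b) (hae : a ≠ e)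
    (hbe : b ≠ e) (ba : β a = 0) (bb : β b = 0) (be : β e = 0) (bo : β o = 1) :
    ∃ Φ : MvPolynomial (Ez β) ℚ, Φ ≠ 0 ∧ ∀ {L K : Type} [Field L] [CharZero L] [Field K]
      [Algebra L K] (f : MvPolynomial (Fin N) L) (ξ : Fin N → K), f.support ⊆ Ez β →
      aeval (fun m : Ez β => coeff (m : Fin N →₀ ℕ) f) Φ ≠ 0 → GP f ξ → Realizable L K := by
  classical
  obtain ⟨Φ₁, hΦ₁, h1⟩ := exists_cx hab hae hbe ba bb be bo
  obtain ⟨Φ₂, hΦ₂, h2⟩ := nd_univ (E := Ez β) hae hab hbe (ez_mem1 le_rfl (by norm_num))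
    (ez_mem1 (by norm_num) le_rfl)
  refine ⟨Φ₁ * Φ₂, mul_ne_zero hΦ₁ hΦ₂, fun {L K} _ _ _ _ f ξ hf hc hξ => ?_⟩
  rw [map_mul] at hc
  have hc1 := left_ne_zero_of_mul hc
  have hc2 := right_ne_zero_of_mul hc
  obtain ⟨E, hE, hA, hcl, z, hz⟩ := big L ((Fin N ⊕ Bool) ⊕ Fin N)
  have hcE : CharZero E := charZero_of_injective_algebraMap (algebraMap L E).injective
  obtain ⟨Om, hOm⟩ : ∃ Om, Om = AC L (z '' (Set.range (fun q : Fin N => Sum.inl (Sum.inl q)))) :=
    ⟨_, rfl⟩
  obtain ⟨za, zb, ze, hC⟩ := h1 f (fun q => z (Sum.inl (Sum.inl q))) Om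
    (by rw [hOm]; exact acl _) (fun q => by
      rw [hOm]
      exact subset_AC _ ⟨_, ⟨q, rfl⟩, rfl⟩)
    (hz.comp (fun q : Fin N => Sum.inl (Sum.inl q))
      (fun x y hxy => Sum.inl_injective (Sum.inl_injective hxy))) hf hc1
  obtain ⟨X, R', hXf, hXi, hR', hle, hrel, hdeg⟩ := asm hz hOm hC (h2 _ hc2)
  have hf0 : f ≠ 0 := by
    rintro rfl
    exact hdeg (degreeOf_zero e)
  obtain ⟨σ, hσ⟩ := exists_hom hξ hXf hdeg hf0 hXi
  refine ⟨E, hE, hA, R', σ, hR', ?_, ?_⟩
  · rw [range_field hξ.gen hσ]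
    exact hle
  · rw [range_field hξ.gen hσ]
    exact hrel

end Pool.Agent.R867.B
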