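import Pool.Agent.R867.B.Pencil

/-! Descent of rational functions of `u` along algebraic extensions of the constants. -/

set_option autoImplicit false

namespace Pool.Agent.R867.B

open Polynomial Pool.Agent.TH178.HI

section Abs

variable {A B E ι : Type} [Field A] [Field B] [Field E] [Algebra A B] [Algebra B E] [Algebra A E]
  [IsScalarTower A B E]

/-- coefficientwise application of a linear form -/
noncomputable def Phi (φ : B →ₗ[A] A) (F : MvPolynomial ι B) : MvPolynomial ι A :=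
  ∑ m ∈ F.support, MvPolynomial.monomial m (φ (F.coeff m))

theorem coeff_Phi (φ : B →ₗ[A] A) (F : MvPolynomial ι B) (m : ι →₀ ℕ) :
    (Phi φ F).coeff m = φ (F.coeff m) := by
  classical
  unfold Phi
  rw [MvPolynomial.coeff_sum]
  simp only [MvPolynomial.coeff_monomial]
  rw [Finset.sum_ite_eq' F.support m]
  split_ifs with h
  · rfl
  · rw [MvPolynomial.notMem_support_iff.mp h, map_zero]

theorem Phi_mul (φ : B →ₗ[A] A) (n : MvPolynomial ι A) (F : MvPolynomial ι B) :
    Phi φ (MvPolynomial.map (algebraMap A B) n * F) = n * Phi φ F := by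
  classical
  ext m
  rw [coeff_Phi, MvPolynomial.coeff_mul, MvPolynomial.coeff_mul, map_sum]
  refine Finset.sum_congr rfl fun x _ => ?_
  rw [MvPolynomial.coeff_map, coeff_Phi, ← Algebra.smul_def, map_smul, smul_eq_mul]

theorem Phi_sum (φ : B →ₗ[A] A) {κ : Type} (S : Finset κ) (F : κ → MvPolynomial ι B) :
    Phi φ (∑ i ∈ S, F i) = ∑ i ∈ S, Phi φ (F i) := by
  classical
  ext m
  rw [coeff_Phi, MvPolynomial.coeff_sum, map_sum, MvPolynomial.coeff_sum]
  exact Finset.sum_congr rfl fun i _ => (coeff_Phi φ _ _).symm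

/-- homogenization -/
noncomputable def Hm {R : Type} [CommRing R] (N : ℕ) (p q : MvPolynomial ι R) (P : R[X]) :
    MvPolynomial ι R :=
  ∑ j ∈ Finset.range (N + 1), MvPolynomial.C (P.coeff j) * (p ^ j * q ^ (N - j))

theorem eval_Hm {R : Type} [CommRing R] [Algebra R E] {w : ι → E} {u : E} {N : ℕ}
    {p q : MvPolynomial ι R} (hu : u * MvPolynomial.aeval w q = MvPolynomial.aeval w p)
    {P : R[X]} (hP : P.natDegree ≤ N) :
    MvPolynomial.aeval w (Hm N p q P) = MvPolynomial.aeval w q ^ N * aeval u P := by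
  unfold Hm
  rw [map_sum, Polynomial.aeval_eq_sum_range' (n := N + 1) (by omega), Finset.mul_sum]
  refine Finset.sum_congr rfl fun j hj => ?_
  have hj' : j ≤ N := by
    have := Finset.mem_range.mp hj
    omega
  rw [map_mul, map_mul, map_pow, map_pow, MvPolynomial.aeval_C, ← hu, Algebra.smul_def]
  have h1 : MvPolynomial.aeval w q ^ N = MvPolynomial.aeval w q ^ j *
      MvPolynomial.aeval w q ^ (N - j) := by
    rw [← pow_add]
    congr 1
    omega
  rw [h1, mul_pow]
  ring

theorem Phi_Hm (φ : B →ₗ[A] A) (N : ℕ) (p q : MvPolynomial ι A) (P : B[X]) :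
    Phi φ (Hm N (MvPolynomial.map (algebraMap A B) p) (MvPolynomial.map (algebraMap A B) q) P) =
      Hm N p q (∑ j ∈ Finset.range (N + 1), Polynomial.C (φ (P.coeff j)) * Polynomial.X ^ j) := by
  classical
  unfold Hm
  rw [Phi_sum]
  refine Finset.sum_congr rfl fun j hj => ?_
  have h1 : (∑ j ∈ Finset.range (N + 1), Polynomial.C (φ (P.coeff j)) * Polynomial.X ^ j :
      A[X]).coeff j = φ (P.coeff j) := by
    rw [finset_sum_coeff]
    simp only [coeff_C_mul, coeff_X_pow, mul_ite, mul_one, mul_zero]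
    rw [Finset.sum_ite_eq (Finset.range (N + 1)) j, if_pos hj]
  rw [h1, ← map_pow, ← map_pow, ← map_mul, mul_comm, Phi_mul]
  rw [mul_comm (MvPolynomial.C (φ (P.coeff j)))]
  congr 1
  ext m
  rw [coeff_Phi, MvPolynomial.coeff_C, MvPolynomial.coeff_C]
  split_ifs
  · rfl
  · exact map_zero φ

theorem descent {w : ι → E} (hw : AlgebraicIndependent B w) {u α : E}
    {p q n d : MvPolynomial ι A} (hq : MvPolynomial.aeval w q ≠ 0)
    (hd : MvPolynomial.aeval w d ≠ 0)
    (hu : u * MvPolynomial.aeval w q = MvPolynomial.aeval w p)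
    (hα : α * MvPolynomial.aeval w d = MvPolynomial.aeval w n) {P Q : B[X]} (hQ : Q ≠ 0)
    (hPQ : α * aeval u Q = aeval u P) :
    ∃ P' Q' : A[X], Q' ≠ 0 ∧ α * aeval u Q' = aeval u P' := by
  obtain ⟨φ, hφ⟩ : ∃ φ : B →ₗ[A] A, φ Q.leadingCoeff ≠ 0 := by
    by_contra hcon
    push Not at hcon
    have h1 := (Module.forall_dual_apply_eq_zero_iff A Q.leadingCoeff).mp hcon
    exact hQ (leadingCoeff_eq_zero.mp h1)
  obtain ⟨N, hN⟩ : ∃ N, N = max P.natDegree Q.natDegree := ⟨_, rfl⟩
  have hPN : P.natDegree ≤ N := by rw [hN]; exact le_max_left _ _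
  have hQN : Q.natDegree ≤ N := by rw [hN]; exact le_max_right _ _
  obtain ⟨m', hm'⟩ : ∃ m' : MvPolynomial ι A → MvPolynomial ι B,
    ∀ F, m' F = MvPolynomial.map (algebraMap A B) F := ⟨_, fun _ => rfl⟩
  have hev : ∀ F, MvPolynomial.aeval w (m' F) = MvPolynomial.aeval w F := by
    intro F
    rw [hm', MvPolynomial.aeval_map_algebraMap]
  have hub : u * MvPolynomial.aeval w (m' q) = MvPolynomial.aeval w (m' p) := by
    rw [hev, hev]
    exact hu
  have key : m' n * Hm N (m' p) (m' q) Q = m' d * Hm N (m' p) (m' q) P := by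
    have h1 : MvPolynomial.aeval w (m' n * Hm N (m' p) (m' q) Q - m' d * Hm N (m' p) (m' q) P) =
        0 := by
      rw [map_sub, map_mul, map_mul, eval_Hm hub hQN, eval_Hm hub hPN, hev, hev, hev, ← hα, ← hPQ]
      ring
    exact sub_eq_zero.mp (hw (h1.trans (map_zero _).symm))
  have h2 := congrArg (Phi φ) key
  rw [hm' n, hm' d, Phi_mul, Phi_mul, hm' p, hm' q, Phi_Hm, Phi_Hm] at h2
  obtain ⟨P', hP'⟩ : ∃ P' : A[X], P' = ∑ j ∈ Finset.range (N + 1),
    Polynomial.C (φ (P.coeff j)) * Polynomial.X ^ j := ⟨_, rfl⟩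
  obtain ⟨Q', hQ'⟩ : ∃ Q' : A[X], Q' = ∑ j ∈ Finset.range (N + 1),
    Polynomial.C (φ (Q.coeff j)) * Polynomial.X ^ j := ⟨_, rfl⟩
  rw [← hP', ← hQ'] at h2
  have hdeg : ∀ R : B[X], (∑ j ∈ Finset.range (N + 1),
      Polynomial.C (φ (R.coeff j)) * Polynomial.X ^ j : A[X]).natDegree ≤ N := by
    intro R
    apply natDegree_sum_le_of_forall_le
    intro j hj
    refine (natDegree_C_mul_X_pow_le _ _).trans ?_
    have := Finset.mem_range.mp hj
    omega
  have h3 := congrArg (MvPolynomial.aeval w) h2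
  rw [map_mul, map_mul, eval_Hm hu (by rw [hQ']; exact hdeg Q),
    eval_Hm hu (by rw [hP']; exact hdeg P), ← hα] at h3
  refine ⟨P', Q', ?_, ?_⟩
  · intro h0
    apply hφ
    have h4 : Q'.coeff Q.natDegree = φ (Q.coeff Q.natDegree) := by
      rw [hQ', finset_sum_coeff]
      simp only [coeff_C_mul, coeff_X_pow, mul_ite, mul_one, mul_zero]
      rw [Finset.sum_ite_eq (Finset.range (N + 1)) Q.natDegree,
        if_pos (Finset.mem_range.mpr (by omega))]
    rw [h0, coeff_zero] at h4
    exact h4.symm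
  · apply mul_left_cancel₀ (mul_ne_zero hd (pow_ne_zero N hq))
    linear_combination h3

end Abs

end Pool.Agent.R867.B
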