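import Pool.Agent.R867.B.Q3
import Pool.Agent.R867.H.Two

/-! Expansion of a polynomial as a quadratic polynomial in three of the variables. -/

set_option autoImplicit false

namespace Pool.Agent.R867.B

open MvPolynomial

section Ev

variable {N : ℕ} {S : Type} [CommRing S]

/-- the other variables -/
def oth (a b e : Fin N) : Finset (Fin N) := ((Finset.univ.erase a).erase b).erase e

theorem mem_oth {a b e q : Fin N} : q ∈ oth a b e ↔ q ≠ e ∧ q ≠ b ∧ q ≠ a := by
  unfold oth
  simp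

/-- product of powers -/
def pr (Y : Fin N → S) (T : Finset (Fin N)) (m : Fin N →₀ ℕ) : S := ∏ q ∈ T, Y q ^ m q

/-- the coefficients -/
def Kf (E : Finset (Fin N →₀ ℕ)) (a b e : Fin N) (c : (Fin N →₀ ℕ) → S) (Y : Fin N → S)
    (i j l : ℕ) : S :=
  ∑ m ∈ E, if m a = i ∧ m b = j ∧ m e = l then c m * pr Y (oth a b e) m else 0

/-- the value -/
def evE (E : Finset (Fin N →₀ ℕ)) (c : (Fin N →₀ ℕ) → S) (Y : Fin N → S) : S :=
  ∑ m ∈ E, c m * pr Y Finset.univ m

/-- homogeneous parts of the coefficients -/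
def Cf (E : Finset (Fin N →₀ ℕ)) (a b e : Fin N) (c : (Fin N →₀ ℕ) → S) (Y : Fin N → S) (r : ℕ)
    (i j l : ℕ) : S :=
  ∑ m ∈ E, if (m a = i ∧ m b = j ∧ m e = l) ∧ ∑ q ∈ oth a b e, m q = r then
    c m * pr Y (oth a b e) m else 0

theorem ev3_sum {ι : Type} (E : Finset ι) (C : ι → ℕ → ℕ → ℕ → S) (X Y Z : S) :
    ev3 (fun i j l => ∑ m ∈ E, C m i j l) X Y Z = ∑ m ∈ E, ev3 (C m) X Y Z := by
  unfold ev3 li qd
  simp only [Finset.sum_add_distrib, Finset.sum_mul]

theorem ev3_ind {α β γ : ℕ} (h : α + β + γ ≤ 2) (t X Y Z : S) :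
    ev3 (fun i j l => if α = i ∧ β = j ∧ γ = l then t else 0) X Y Z =
      t * (X ^ α * Y ^ β * Z ^ γ) := by
  have h1 : α ≤ 2 := by omega
  have h2 : β ≤ 2 := by omega
  have h3 : γ ≤ 2 := by omega
  unfold ev3 li qd
  interval_cases α <;> interval_cases β <;> interval_cases γ <;> first
    | (exfalso; omega)
    | simp [mul_assoc]

variable {E : Finset (Fin N →₀ ℕ)} {a b e : Fin N}

theorem split3 (hab : a ≠ b) (hae : a ≠ e) (hbe : b ≠ e) (hE : ∀ m ∈ E, m a + m b + m e ≤ 2)
    (c : (Fin N →₀ ℕ) → S) (Y : Fin N → S) :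
    evE E c Y = ev3 (Kf E a b e c Y) (Y a) (Y b) (Y e) := by
  unfold evE
  have h1 : (Kf E a b e c Y) = fun i j l => ∑ m ∈ E,
      if m a = i ∧ m b = j ∧ m e = l then c m * pr Y (oth a b e) m else 0 := rfl
  rw [h1, ev3_sum]
  refine Finset.sum_congr rfl fun m hm => ?_
  rw [ev3_ind (hE m hm)]
  unfold pr oth
  have m1 : a ∈ (Finset.univ : Finset (Fin N)) := Finset.mem_univ a
  have m2 : b ∈ (Finset.univ : Finset (Fin N)).erase a :=
    Finset.mem_erase.mpr ⟨hab.symm, Finset.mem_univ b⟩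
  have m3 : e ∈ ((Finset.univ : Finset (Fin N)).erase a).erase b :=
    Finset.mem_erase.mpr ⟨hbe.symm, Finset.mem_erase.mpr ⟨hae.symm, Finset.mem_univ e⟩⟩
  rw [← Finset.mul_prod_erase _ _ m1, ← Finset.mul_prod_erase _ _ m2,
    ← Finset.mul_prod_erase _ _ m3]
  ring

theorem Kf_T {c : (Fin N →₀ ℕ) → S} {Y v : Fin N → S} {T : S}
    (hY : ∀ q ∈ oth a b e, Y q = T * v q)
    (hE : ∀ m ∈ E, ∑ q ∈ oth a b e, m q ≤ 2 ∨ ∃ q ∈ oth a b e, v q = 0 ∧ m q ≠ 0) (i j l : ℕ) :
    Kf E a b e c Y i j l = Cf E a b e c v 0 i j l + T * Cf E a b e c v 1 i j l +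
      T ^ 2 * Cf E a b e c v 2 i j l := by
  unfold Kf Cf
  rw [Finset.mul_sum, Finset.mul_sum, ← Finset.sum_add_distrib, ← Finset.sum_add_distrib]
  refine Finset.sum_congr rfl fun m hm => ?_
  by_cases h : m a = i ∧ m b = j ∧ m e = l
  · rw [if_pos h]
    simp only [h, true_and]
    have h1 : pr Y (oth a b e) m = T ^ (∑ q ∈ oth a b e, m q) * pr v (oth a b e) m := by
      unfold pr
      rw [← Finset.prod_pow_eq_pow_sum, ← Finset.prod_mul_distrib]
      exact Finset.prod_congr rfl fun q hq => by rw [hY q hq, mul_pow]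
    rcases hE m hm with h2 | ⟨q, hq, hq0, hq1⟩
    · rw [h1]
      generalize ∑ q ∈ oth a b e, m q = s at *
      interval_cases s
      · simp
      · simp
        ring
      · simp
        ring
    · have h3 : pr v (oth a b e) m = 0 := by
        unfold pr
        apply Finset.prod_eq_zero hq
        rw [hq0, zero_pow hq1]
      rw [h1, h3]
      simp
  · rw [if_neg h]
    simp [h]

theorem ev3_T {C0 C1 C2 C : ℕ → ℕ → ℕ → S} {T : S}
    (h : ∀ i j l, C i j l = C0 i j l + T * C1 i j l + T ^ 2 * C2 i j l) (X Y Z : S) :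
    ev3 C X Y Z = ev3 C0 X Y Z + T * ev3 C1 X Y Z + T ^ 2 * ev3 C2 X Y Z := by
  unfold ev3 li qd
  simp only [h]
  ring

theorem dz_T {C0 C1 C2 C : ℕ → ℕ → ℕ → S} {T : S}
    (h : ∀ i j l, C i j l = C0 i j l + T * C1 i j l + T ^ 2 * C2 i j l) (X Y Z : S) :
    dz C X Y Z = dz C0 X Y Z + T * dz C1 X Y Z + T ^ 2 * dz C2 X Y Z := by
  unfold dz
  simp only [h]
  ring

theorem Kf_congr {c : (Fin N →₀ ℕ) → S} {Y Y' : Fin N → S} (h : ∀ q ∈ oth a b e, Y q = Y' q) :
    Kf E a b e c Y = Kf E a b e c Y' := by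
  funext i j l
  unfold Kf
  refine Finset.sum_congr rfl fun m _ => ?_
  have h1 : pr Y (oth a b e) m = pr Y' (oth a b e) m :=
    Finset.prod_congr rfl fun q hq => by rw [h q hq]
  rw [h1]

theorem pr_map {S' : Type} [CommRing S'] (ψ : S →+* S') (Y : Fin N → S) (T : Finset (Fin N))
    (m : Fin N →₀ ℕ) : ψ (pr Y T m) = pr (fun q => ψ (Y q)) T m := by
  unfold pr
  rw [map_prod]
  simp only [map_pow]

theorem Kf_map {S' : Type} [CommRing S'] (ψ : S →+* S') (c : (Fin N →₀ ℕ) → S) (Y : Fin N → S)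
    (i j l : ℕ) : ψ (Kf E a b e c Y i j l) =
      Kf E a b e (fun m => ψ (c m)) (fun q => ψ (Y q)) i j l := by
  unfold Kf
  rw [map_sum]
  refine Finset.sum_congr rfl fun m _ => ?_
  split_ifs
  · rw [map_mul, pr_map]
  · exact map_zero ψ

theorem Cf_map {S' : Type} [CommRing S'] (ψ : S →+* S') (c : (Fin N →₀ ℕ) → S) (Y : Fin N → S)
    (r i j l : ℕ) : ψ (Cf E a b e c Y r i j l) =
      Cf E a b e (fun m => ψ (c m)) (fun q => ψ (Y q)) r i j l := by
  unfold Cf
  rw [map_sum]
  refine Finset.sum_congr rfl fun m _ => ?_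
  split_ifs
  · rw [map_mul, pr_map]
  · exact map_zero ψ

end Ev

section Aev

variable {N : ℕ} {k : Type} [Field k] {S : Type} [CommRing S] [Algebra k S]
  {E : Finset (Fin N →₀ ℕ)} {f : MvPolynomial (Fin N) k}

theorem aeval_evE (hf : f.support ⊆ E) (Y : Fin N → S) :
    aeval Y f = evE E (fun m => algebraMap k S (coeff m f)) Y := by
  unfold evE
  rw [← Finset.sum_subset hf]
  · conv_lhs => rw [f.as_sum]
    rw [map_sum]
    refine Finset.sum_congr rfl fun m _ => ?_
    rw [aeval_monomial]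
    congr 1
    exact Finsupp.prod_fintype _ _ (fun _ => pow_zero _)
  · intro m _ hm
    have h1 : coeff m f = 0 := notMem_support_iff.mp hm
    change algebraMap k S (coeff m f) * _ = 0
    rw [h1, map_zero, zero_mul]

end Aev

section Der

variable {k : Type} [Field k] {N : ℕ} {Om : Type} [Field Om] [Algebra k Om]

open Pool.Agent.R867.H

theorem lin_derG (x v : Fin N → Om) (g : MvPolynomial (Fin N) k) :
    Polynomial.derivative (lin x v g) = ∑ l, Polynomial.C (v l) * lin x v (pderiv l g) := by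
  classical
  induction g using MvPolynomial.induction_on with
  | C c =>
    rw [lin_C, Polynomial.derivative_C]
    symm
    apply Finset.sum_eq_zero
    intro l _
    rw [pderiv_C, map_zero, mul_zero]
  | add p q hp hq =>
    simp only [map_add, hp, hq, mul_add, Finset.sum_add_distrib]
  | mul_X p i hp =>
    rw [map_mul, Polynomial.derivative_mul, hp, lin_X]
    have h1 : ∀ l, Polynomial.C (v l) * lin x v (pderiv l (p * X i)) =
        Polynomial.C (v l) * lin x v (pderiv l p) * (Polynomial.C (x i) + Polynomial.X * Polynomial.C (v i)) +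
        (if l = i then Polynomial.C (v i) * lin x v p else 0) := by
      intro l
      rw [pderiv_mul, map_add, map_mul, map_mul, lin_X]
      by_cases h : l = i
      · subst h
        rw [if_pos rfl, pderiv_X_self, map_one]
        ring
      · rw [if_neg h, pderiv_X_of_ne (Ne.symm h), map_zero]
        ring
    simp only [h1, Finset.sum_add_distrib, ← Finset.sum_mul, Finset.sum_ite_eq', Finset.mem_univ,
      if_true, map_add, Polynomial.derivative_C,
      Polynomial.derivative_mul, Polynomial.derivative_X]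
    ring

end Der

end Pool.Agent.R867.B
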