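import Pool.Agent.R867.B.Desc
import Pool.Agent.TH178.HI.Rel
import Pool.Agent.TH178.HI.Real

/-! Algebraic independence: auxiliary results. -/

set_option autoImplicit false

namespace Pool.Agent.R867.B

open Pool.Agent.TH178.HI

variable {k E : Type} [Field k] [Field E] [Algebra k E]

theorem adjoin_rs (L : IntermediateField k E) (S : Set E) :
    (IntermediateField.adjoin L S).restrictScalars k =
      IntermediateField.adjoin k ((L : Set E) ∪ S) := by
  rw [IntermediateField.restrictScalars_adjoin]

theorem indep_tau {ι κ : Type} {z : ι → E} (hz : AlgebraicIndependent k z) {I : Set ι}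
    {L : IntermediateField k E} (hL : L ≤ AC k (z '' I)) (g : κ → ι) (hg : Function.Injective g)
    (hI : ∀ j, g j ∉ I) : AlgebraicIndependent L (fun j => z (g j)) := by
  apply algebraicIndependent_of_finite_type' (algebraMap L E).injective
  intro t _ _ i hi
  rw [← IntermediateField.transcendental_adjoin_iff]
  intro hal
  have h1 : Transcendental (IntermediateField.adjoin k
      ((L : Set E) ∪ ((fun j => z (g j)) '' t))) (z (g i)) := by
    refine transcendental_of_le hz (I := I ∪ g '' t) ?_ ?_
    · rintro (h | ⟨j, hj, hji⟩)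
      · exact hI i h
      · exact hi (hg hji ▸ hj)
    · rw [IntermediateField.adjoin_le_iff]
      rintro y (hy | ⟨j, hj, rfl⟩)
      · have h2 := mem_AC.mp (hL hy)
        rw [SetLike.mem_coe, mem_AC]
        refine isAlgebraic_mono' (IntermediateField.adjoin.mono k _ _ ?_) h2
        exact Set.image_mono Set.subset_union_left
      · exact subset_AC _ ⟨g j, Or.inr ⟨j, hj, rfl⟩, rfl⟩
  apply h1
  rw [← adjoin_rs]
  exact hal

theorem swap {κ : Type} [Finite κ] {x w : κ → E} (hx : AlgebraicIndependent k x)
    (h : ∀ i, x i ∈ IntermediateField.adjoin k (Set.range w)) : AlgebraicIndependent k w := by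
  classical
  obtain ⟨M, hM⟩ : ∃ M, M = IntermediateField.adjoin k (Set.range w) := ⟨_, rfl⟩
  obtain ⟨x', hx'⟩ : ∃ x' : κ → M, ∀ i, (x' i : E) = x i :=
    ⟨fun i => ⟨x i, by rw [hM]; exact h i⟩, fun i => rfl⟩
  obtain ⟨w', hw'⟩ : ∃ w' : κ → M, ∀ i, (w' i : E) = w i :=
    ⟨fun i => ⟨w i, by rw [hM]; exact IntermediateField.subset_adjoin _ _ ⟨i, rfl⟩⟩, fun i => rfl⟩
  have hx1 : AlgebraicIndependent k x' := by
    rw [← AlgHom.algebraicIndependent_iff M.val M.val.injective]
    have h1 : M.val ∘ x' = x := by
      funext i
      exact hx' i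
    rw [h1]
    exact hx
  have halg : Algebra.IsAlgebraic (Algebra.adjoin k (Set.range w')) M := by
    refine ⟨fun z => ?_⟩
    have h1 : IntermediateField.adjoin k (Set.range w') = ⊤ := by
      have h2 : (IntermediateField.adjoin k (Set.range w')).map M.val =
          (⊤ : IntermediateField k M).map M.val := by
        rw [IntermediateField.adjoin_map, ← Set.range_comp]
        have h3 : M.val ∘ w' = w := by
          funext i
          exact hw' i
        rw [h3, ← hM]
        ext y
        constructor
        · intro hy
          exact ⟨⟨y, hy⟩, trivial, rfl⟩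
        · rintro ⟨y', -, rfl⟩
          exact y'.2
      exact IntermediateField.map_injective M.val h2
    have h2 : z ∈ IntermediateField.adjoin k (Set.range w') := by
      rw [h1]
      trivial
    have h3 : IsAlgebraic (IntermediateField.adjoin k (Set.range w')) z :=
      isAlgebraic_algebraMap (⟨z, h2⟩ : IntermediateField.adjoin k (Set.range w'))
    by_contra h4
    exact (IntermediateField.transcendental_adjoin_iff.mpr h4) h3
  have h1 := (Algebra.IsAlgebraic.isTranscendenceBasis_of_lift_le_trdeg_of_finite k w' (by
    exact hx1.lift_cardinalMk_le_trdeg)).1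
  have h2 : M.val ∘ w' = w := by
    funext i
    exact hw' i
  rw [← h2, AlgHom.algebraicIndependent_iff M.val M.val.injective]
  exact h1

theorem Pure.fam {L : IntermediateField k E} (h : Pure L) {κ : Type} [Finite κ] {w : κ → E}
    (hw : AlgebraicIndependent L w) : Pure (IntermediateField.adjoin k ((L : Set E) ∪ Set.range w)) := by
  obtain ⟨ι, hι, x, hx, hxL⟩ := h
  refine ⟨κ ⊕ ι, inferInstance, Sum.elim w x, ?_, ?_⟩
  · refine hx.sumElim_of_tower (S := L) ?_ hw
    rintro _ ⟨i, rfl⟩
    exact ⟨⟨x i, by rw [← hxL]; exact IntermediateField.subset_adjoin _ _ ⟨i, rfl⟩⟩, rfl⟩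
  · rw [Set.Sum.elim_range, Set.union_comm]
    apply le_antisymm
    · rw [IntermediateField.adjoin_le_iff]
      rintro y (hy | hy)
      · apply IntermediateField.subset_adjoin _ _
        left
        rw [SetLike.mem_coe, ← hxL]
        exact IntermediateField.subset_adjoin _ _ hy
      · exact IntermediateField.subset_adjoin _ _ (Or.inr hy)
    · rw [IntermediateField.adjoin_le_iff]
      rintro y (hy | hy)
      · rw [← hxL] at hy
        exact IntermediateField.adjoin.mono k _ _ Set.subset_union_left hy
      · exact IntermediateField.subset_adjoin _ _ (Or.inr hy)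

end Pool.Agent.R867.B
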