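import Pool.Agent.R867.H.Univ

/-! Points of the members of a family of varieties given by three equations. -/

set_option autoImplicit false

namespace Pool.Agent.R867.B

open MvPolynomial Pool.Agent.R867.H

universe u v w

section Jac

variable {k : Type u} [Field k] {ι : Type v}

/-- membership in the ideal generated by three polynomials -/
def In3 (g₁ g₂ g₃ P : MvPolynomial ι k) : Prop := ∃ A B D, P = A * g₁ + B * g₂ + D * g₃

theorem In3.sub {g₁ g₂ g₃ P Q : MvPolynomial ι k} (h : In3 g₁ g₂ g₃ P) (h' : In3 g₁ g₂ g₃ Q) :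
    In3 g₁ g₂ g₃ (P - Q) := by
  obtain ⟨A, B, D, rfl⟩ := h
  obtain ⟨A', B', D', rfl⟩ := h'
  exact ⟨A - A', B - B', D - D', by ring⟩

theorem In3.mul {g₁ g₂ g₃ P : MvPolynomial ι k} (h : In3 g₁ g₂ g₃ P) (Q : MvPolynomial ι k) :
    In3 g₁ g₂ g₃ (Q * P) := by
  obtain ⟨A, B, D, rfl⟩ := h
  exact ⟨Q * A, Q * B, Q * D, by ring⟩

/-- three by three determinant -/
def dt {S : Type w} [CommRing S] (a b c a' b' c' a'' b'' c'' : S) : S :=
  a * (b' * c'' - c' * b'') - b * (a' * c'' - c' * a'') + c * (a' * b'' - b' * a'')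

/-- the Jacobian determinant -/
noncomputable def JD (g₁ g₂ g₃ : MvPolynomial ι k) (i j r : ι) : MvPolynomial ι k :=
  dt (pderiv i g₁) (pderiv j g₁) (pderiv r g₁) (pderiv i g₂) (pderiv j g₂) (pderiv r g₂)
    (pderiv i g₃) (pderiv j g₃) (pderiv r g₃)

variable {g₁ g₂ g₃ h : MvPolynomial ι k} {i j r : ι}

theorem step_der3 (l : ι) {G Δ : MvPolynomial ι k} (hΔ : Δ = JD g₁ g₂ g₃ i j r)
    (hGi : pderiv i G = 0) (hGj : pderiv j G = 0) (hGr : pderiv r G = 0) {n : ℕ}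
    (hn : In3 g₁ g₂ g₃ ((Δ * h) ^ n * G)) :
    ∃ n, In3 g₁ g₂ g₃ ((Δ * h) ^ n * pderiv l G) := by
  obtain ⟨α, hα⟩ : ∃ α, α = - dt (pderiv l g₁) (pderiv j g₁) (pderiv r g₁) (pderiv l g₂)
    (pderiv j g₂) (pderiv r g₂) (pderiv l g₃) (pderiv j g₃) (pderiv r g₃) := ⟨_, rfl⟩
  obtain ⟨β, hβ⟩ : ∃ β, β = - dt (pderiv i g₁) (pderiv l g₁) (pderiv r g₁) (pderiv i g₂)
    (pderiv l g₂) (pderiv r g₂) (pderiv i g₃) (pderiv l g₃) (pderiv r g₃) := ⟨_, rfl⟩
  obtain ⟨γ, hγ⟩ : ∃ γ, γ = - dt (pderiv i g₁) (pderiv j g₁) (pderiv l g₁) (pderiv i g₂)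
    (pderiv j g₂) (pderiv l g₂) (pderiv i g₃) (pderiv j g₃) (pderiv l g₃) := ⟨_, rfl⟩
  obtain ⟨D, hD⟩ : ∃ D : Derivation k (MvPolynomial ι k) (MvPolynomial ι k),
    D = Δ • (pderiv l : Derivation k (MvPolynomial ι k) (MvPolynomial ι k)) +
      α • (pderiv i : Derivation k (MvPolynomial ι k) (MvPolynomial ι k)) +
      β • (pderiv j : Derivation k (MvPolynomial ι k) (MvPolynomial ι k)) +
      γ • (pderiv r : Derivation k (MvPolynomial ι k) (MvPolynomial ι k)) := ⟨_, rfl⟩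
  have hDa : ∀ P, D P = Δ * pderiv l P + α * pderiv i P + β * pderiv j P + γ * pderiv r P := by
    intro P
    rw [hD]
    simp only [Derivation.add_apply, Derivation.smul_apply, smul_eq_mul]
  have h1 : D g₁ = 0 := by
    rw [hDa, hΔ, hα, hβ, hγ]
    unfold JD dt
    ring
  have h2 : D g₂ = 0 := by
    rw [hDa, hΔ, hα, hβ, hγ]
    unfold JD dt
    ring
  have h3 : D g₃ = 0 := by
    rw [hDa, hΔ, hα, hβ, hγ]
    unfold JD dt
    ring
  have hDJ : ∀ P, In3 g₁ g₂ g₃ P → In3 g₁ g₂ g₃ (D P) := by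
    rintro P ⟨A, B, B', rfl⟩
    refine ⟨D A, D B, D B', ?_⟩
    rw [map_add, map_add, Derivation.leibniz, Derivation.leibniz, Derivation.leibniz, h1, h2, h3]
    simp only [smul_eq_mul]
    ring
  have hDG : D G = Δ * pderiv l G := by
    rw [hDa, hGi, hGj, hGr]
    ring
  obtain ⟨E, hE⟩ : ∃ E, E = (Δ * h) ^ n := ⟨_, rfl⟩
  rw [← hE] at hn
  have h4 := hDJ _ hn
  rw [Derivation.leibniz, hDG, smul_eq_mul, smul_eq_mul] at h4
  refine ⟨2 * n + 1, ?_⟩
  have h5 : (Δ * h) ^ (2 * n + 1) * pderiv l G =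
      (E * h) * (E * (Δ * pderiv l G) + G * D E) - (D E * h) * (E * G) := by
    rw [hE]
    ring
  rw [h5]
  exact (h4.mul _).sub (hn.mul _)

theorem jac3 [CharZero k] {Om : Type w} [Field Om] [Algebra k Om] {c : ι → Om}
    (h1 : aeval c g₁ = 0) (h2 : aeval c g₂ = 0) (h2' : aeval c g₃ = 0) (h3 : aeval c h ≠ 0)
    (h4 : aeval c (JD g₁ g₂ g₃ i j r) ≠ 0) (G : MvPolynomial ι k) (hG : G ≠ 0)
    (hGi : pderiv i G = 0) (hGj : pderiv j G = 0) (hGr : pderiv r G = 0) (n : ℕ) :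
    ¬ In3 g₁ g₂ g₃ (h ^ n * G) := by
  obtain ⟨Δ, hΔ⟩ : ∃ Δ, Δ = JD g₁ g₂ g₃ i j r := ⟨_, rfl⟩
  rw [← hΔ] at h4
  have key : ∀ (d : ℕ) (G : MvPolynomial ι k), G.totalDegree ≤ d → G ≠ 0 → pderiv i G = 0 →
      pderiv j G = 0 → pderiv r G = 0 → ∀ n, ¬ In3 g₁ g₂ g₃ ((Δ * h) ^ n * G) := by
    intro d
    induction d with
    | zero =>
      intro G hd hG _ _ _ n hn
      have h5 : G = C (coeff 0 G) := totalDegree_eq_zero_iff_eq_C.mp (Nat.le_zero.mp hd)
      obtain ⟨A, B, D, hAB⟩ := hn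
      have h6 := congrArg (aeval c) hAB
      rw [map_add, map_add, map_mul, map_mul, map_mul, map_mul, h1, h2, h2', mul_zero, mul_zero,
        mul_zero, add_zero, add_zero, map_pow, map_mul, h5, aeval_C] at h6
      have h7 : coeff 0 G ≠ 0 := by
        intro h0
        rw [h0, C_0] at h5
        exact hG h5
      exact mul_ne_zero (pow_ne_zero _ (mul_ne_zero h4 h3))
        ((map_ne_zero (algebraMap k Om)).mpr h7) h6
    | succ d ih =>
      intro G hd hG hGi hGj hGr n hn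
      by_cases hall : ∀ l, pderiv l G = 0
      · obtain ⟨a, rfl⟩ := eq_C_of_pderiv hall
        obtain ⟨A, B, D, hAB⟩ := hn
        have h6 := congrArg (aeval c) hAB
        rw [map_add, map_add, map_mul, map_mul, map_mul, map_mul, h1, h2, h2', mul_zero, mul_zero,
          mul_zero, add_zero, add_zero, map_pow, map_mul, aeval_C] at h6
        have h7 : a ≠ 0 := by
          rintro rfl
          exact hG C_0
        exact mul_ne_zero (pow_ne_zero _ (mul_ne_zero h4 h3))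
          ((map_ne_zero (algebraMap k Om)).mpr h7) h6
      · push Not at hall
        obtain ⟨l, hl⟩ := hall
        obtain ⟨n', hn'⟩ := step_der3 l hΔ hGi hGj hGr hn
        have h5 := totalDegree_pderiv_lt hl
        have comm : ∀ a b : ι, pderiv a (pderiv b G) = pderiv b (pderiv a G) := by
          intro a b
          have h : ⁅(pderiv a : Derivation k (MvPolynomial ι k) (MvPolynomial ι k)),
              (pderiv b : Derivation k (MvPolynomial ι k) (MvPolynomial ι k))⁆ = 0 := by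
            classical
            apply MvPolynomial.derivation_ext
            intro l
            rw [Derivation.commutator_apply, pderiv_X, pderiv_X]
            simp only [Pi.single_apply]
            split_ifs <;> simp
          have h1 := congrArg (fun D : Derivation k (MvPolynomial ι k) (MvPolynomial ι k) => D G) h
          simp only [Derivation.commutator_apply, Derivation.zero_apply] at h1
          exact sub_eq_zero.mp h1
        refine ih (pderiv l G) (by omega) hl ?_ ?_ ?_ n' hn'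
        · rw [comm, hGi, map_zero]
        · rw [comm, hGj, map_zero]
        · rw [comm, hGr, map_zero]
  intro hcon
  refine key _ G le_rfl hG hGi hGj hGr n ?_
  rw [mul_pow, mul_assoc]
  exact hcon.mul _

end Jac

section Spr

variable {A : Type} [CommRing A] [IsDomain A]

/-- the generic member has a point, if no nonzero constant is in the ideal -/
theorem gen_pt3 {n : ℕ} (g₁ g₂ g₃ h : MvPolynomial (Fin n) A)
    (hNU : ∀ G : A, G ≠ 0 → ∀ m : ℕ, ¬ ∃ a b c, h ^ m * C G = a * g₁ + b * g₂ + c * g₃) :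
    ∃ r : Fin n → AlgebraicClosure (FractionRing A), aeval r g₁ = 0 ∧ aeval r g₂ = 0 ∧
      aeval r g₃ = 0 ∧ aeval r h ≠ 0 := by
  let L := FractionRing A
  let Ω := AlgebraicClosure L
  obtain ⟨θ, hθ⟩ : ∃ θ : MvPolynomial (Fin n) A →+* MvPolynomial (Fin n) L,
    θ = MvPolynomial.map (algebraMap A L) := ⟨_, rfl⟩
  have hθi : Function.Injective θ := by
    rw [hθ]
    exact MvPolynomial.map_injective _ (IsFractionRing.injective A L)
  have hθe : ∀ (r : Fin n → Ω) (P : MvPolynomial (Fin n) A), aeval r (θ P) = aeval r P := by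
    intro r P
    rw [hθ]
    exact MvPolynomial.aeval_map_algebraMap L r P
  by_contra hcon
  push Not at hcon
  have h1 : θ h ∈ vanishingIdeal L (zeroLocus Ω (Ideal.span {θ g₁, θ g₂, θ g₃})) := by
    rw [mem_vanishingIdeal_iff]
    intro r hr
    rw [mem_zeroLocus_iff] at hr
    have h2 := hr (θ g₁) (Ideal.subset_span (Set.mem_insert _ _))
    have h3 := hr (θ g₂) (Ideal.subset_span (Set.mem_insert_of_mem _ (Set.mem_insert _ _)))
    have h4 := hr (θ g₃) (Ideal.subset_span (Set.mem_insert_of_mem _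
      (Set.mem_insert_of_mem _ rfl)))
    rw [hθe] at h2 h3 h4 ⊢
    exact hcon r h2 h3 h4
  rw [vanishingIdeal_zeroLocus_eq_radical] at h1
  obtain ⟨m, hm⟩ := h1
  obtain ⟨a, z, hz, haz⟩ := Ideal.mem_span_insert.mp hm
  obtain ⟨b, c, hbc⟩ := Ideal.mem_span_pair.mp hz
  have hab : a * θ g₁ + b * θ g₂ + c * θ g₃ = θ h ^ m := by
    rw [haz, ← hbc]
    ring
  have hden : ∀ a : MvPolynomial (Fin n) L, ∃ (G : A) (a' : MvPolynomial (Fin n) A), G ≠ 0 ∧
      a * θ (C G) = θ a' := by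
    intro a
    induction a using MvPolynomial.induction_on with
    | C c =>
      obtain ⟨p, q, hq, hpq⟩ := IsFractionRing.div_surjective (A := A) c
      have hq0 : q ≠ 0 := nonZeroDivisors.ne_zero hq
      refine ⟨q, C p, hq0, ?_⟩
      rw [hθ, map_C, map_C, ← C_mul, ← hpq, div_mul_cancel₀]
      rw [Ne, map_eq_zero_iff _ (IsFractionRing.injective A L)]
      exact hq0
    | add p q hp hq =>
      obtain ⟨G, a', hG, h⟩ := hp
      obtain ⟨G', a'', hG', h'⟩ := hq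
      refine ⟨G * G', a' * C G' + a'' * C G, mul_ne_zero hG hG', ?_⟩
      rw [C_mul, map_mul, map_add, map_mul, map_mul, ← h, ← h']
      ring
    | mul_X p i hp =>
      obtain ⟨G, a', hG, h⟩ := hp
      refine ⟨G, a' * X i, hG, ?_⟩
      rw [map_mul, ← h, hθ, map_X]
      ring
  obtain ⟨G, a', hG, ha⟩ := hden a
  obtain ⟨G', b', hG', hb⟩ := hden b
  obtain ⟨G'', c', hG'', hc⟩ := hden c
  refine hNU (G * G' * G'') (mul_ne_zero (mul_ne_zero hG hG') hG'') m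
    ⟨a' * C G' * C G'', b' * C G * C G'', c' * C G * C G', ?_⟩
  apply hθi
  simp only [map_mul, map_pow, map_add, ← hab, ← ha, ← hb, ← hc]
  ring

/-- **Spreading out**: for all parameters outside of a proper closed subset there is a point. -/
theorem spread3 {A : Type} [CommRing A] [IsDomain A] {n : ℕ} (g₁ g₂ g₃ h : MvPolynomial (Fin n) A)
    (hNU : ∀ G : A, G ≠ 0 → ∀ m : ℕ, ¬ ∃ a b c, h ^ m * C G = a * g₁ + b * g₂ + c * g₃) :
    ∃ Φ : A, Φ ≠ 0 ∧ ∀ {k' : Type u} [Field k'] [IsAlgClosed k'] (φ : A →+* k'), φ Φ ≠ 0 →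
      ∃ r : Fin n → k', g₁.eval₂ φ r = 0 ∧ g₂.eval₂ φ r = 0 ∧ g₃.eval₂ φ r = 0 ∧
        h.eval₂ φ r ≠ 0 := by
  obtain ⟨r, h1, h2, h2', h3⟩ := gen_pt3 g₁ g₂ g₃ h hNU
  obtain ⟨Φ, hΦ, hsp⟩ := spread_pt (τ := Option (Fin n))
    (fun o => o.elim (aeval r h)⁻¹ r)
  refine ⟨Φ, hΦ, fun {k'} _ _ φ hφ => ?_⟩
  obtain ⟨r', hr'⟩ := hsp φ hφ
  have key : ∀ P : MvPolynomial (Fin n) A,
      aeval (fun o : Option (Fin n) => o.elim (aeval r h)⁻¹ r) (rename some P) = aeval r P := by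
    intro P
    rw [aeval_rename]
    rfl
  have key' : ∀ P : MvPolynomial (Fin n) A, (rename some P).eval₂ φ r' =
      P.eval₂ φ (fun i => r' (some i)) := by
    intro P
    rw [eval₂_rename]
    rfl
  refine ⟨fun i => r' (some i), ?_, ?_, ?_, ?_⟩
  · rw [← key']
    exact hr' _ (by rw [key, h1])
  · rw [← key']
    exact hr' _ (by rw [key, h2])
  · rw [← key']
    exact hr' _ (by rw [key, h2'])
  · rw [← key']
    have h4 := hr' (X none * rename some h - 1) (by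
      rw [map_sub, map_mul, key, aeval_X, map_one]
      change (aeval r h)⁻¹ * aeval r h - 1 = 0
      rw [inv_mul_cancel₀ h3, sub_self])
    rw [eval₂_sub, eval₂_mul, eval₂_X, eval₂_one] at h4
    intro h0
    rw [h0, mul_zero, zero_sub] at h4
    exact one_ne_zero (neg_eq_zero.mp h4)



end Spr

section Transport

variable {E : Type}

/-- if the example over `ℚ` has a point at which the Jacobian does not vanish, then the general
member has such a point -/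
theorem univ_pt3 (g₁ g₂ g₃ h : MvPolynomial (Fin 3) (MvPolynomial E ℚ)) (c₀ : E → ℚ)
    (r₀ : Fin 3 → ℚ) (h1 : g₁.eval₂ (aeval c₀ : MvPolynomial E ℚ →ₐ[ℚ] ℚ).toRingHom r₀ = 0)
    (h2 : g₂.eval₂ (aeval c₀ : MvPolynomial E ℚ →ₐ[ℚ] ℚ).toRingHom r₀ = 0)
    (h2' : g₃.eval₂ (aeval c₀ : MvPolynomial E ℚ →ₐ[ℚ] ℚ).toRingHom r₀ = 0)
    (h3 : h.eval₂ (aeval c₀ : MvPolynomial E ℚ →ₐ[ℚ] ℚ).toRingHom r₀ ≠ 0)
    (h4 : (dt (pderiv 0 g₁) (pderiv 1 g₁) (pderiv 2 g₁) (pderiv 0 g₂) (pderiv 1 g₂) (pderiv 2 g₂)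
      (pderiv 0 g₃) (pderiv 1 g₃) (pderiv 2 g₃)).eval₂
      (aeval c₀ : MvPolynomial E ℚ →ₐ[ℚ] ℚ).toRingHom r₀ ≠ 0) :
    ∃ Φ : MvPolynomial E ℚ, Φ ≠ 0 ∧ ∀ {k' : Type u} [Field k'] [IsAlgClosed k']
      (φ : MvPolynomial E ℚ →+* k'), φ Φ ≠ 0 → ∃ r : Fin 3 → k', g₁.eval₂ φ r = 0 ∧
        g₂.eval₂ φ r = 0 ∧ g₃.eval₂ φ r = 0 ∧ h.eval₂ φ r ≠ 0 := by
  refine spread3 g₁ g₂ g₃ h ?_
  intro G hG m hcon
  obtain ⟨σ, hσ⟩ : ∃ σ : MvPolynomial (Fin 3) (MvPolynomial E ℚ) ≃ₐ[ℚ] MvPolynomial (Fin 3 ⊕ E) ℚ,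
    σ = (sumAlgEquiv ℚ (Fin 3) E).symm := ⟨_, rfl⟩
  have hσd : ∀ (b : Fin 3) P, σ (pderiv b P) = pderiv (Sum.inl b) (σ P) := by
    intro b P
    rw [hσ, AlgEquiv.symm_apply_eq, ← pderiv_sumAlgEquiv, AlgEquiv.apply_symm_apply]
  have hσe : ∀ P, aeval (Sum.elim r₀ c₀) (σ P) =
      P.eval₂ (aeval c₀ : MvPolynomial E ℚ →ₐ[ℚ] ℚ).toRingHom r₀ := by
    intro P
    obtain ⟨Q, rfl⟩ := (sumAlgEquiv ℚ (Fin 3) E).surjective P
    rw [hσ, AlgEquiv.symm_apply_apply]
    induction Q using MvPolynomial.induction_on with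
    | C a =>
      rw [sumAlgEquiv_C_inl, eval₂_C]
      simp
    | add P Q hP hQ => rw [map_add, map_add, eval₂_add, hP, hQ]
    | mul_X P l hP =>
      rw [map_mul, map_mul, eval₂_mul, hP]
      rcases l with l | l
      · rw [sumAlgEquiv_X_inl, eval₂_X, aeval_X]
        rfl
      · rw [sumAlgEquiv_X_inr, eval₂_C, aeval_X]
        simp
  have hσC : ∀ b : Fin 3, pderiv (Sum.inl b) (σ (C G)) = 0 := by
    intro b
    rw [← hσd, pderiv_C, map_zero]
  have hG' : σ (C G) ≠ 0 := by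
    intro h0
    exact hG (C_injective _ _ ((σ.injective (h0.trans (map_zero σ).symm)).trans C_0.symm))
  refine jac3 (k := ℚ) (Om := ℚ) (c := Sum.elim r₀ c₀) (g₁ := σ g₁) (g₂ := σ g₂) (g₃ := σ g₃)
    (h := σ h) (i := Sum.inl 0) (j := Sum.inl 1) (r := Sum.inl 2) ?_ ?_ ?_ ?_ ?_ (σ (C G)) hG'
    (hσC 0) (hσC 1) (hσC 2) m ?_
  · rw [hσe, h1]
  · rw [hσe, h2]
  · rw [hσe, h2']
  · rw [hσe]
    exact h3
  · have h5 : JD (σ g₁) (σ g₂) (σ g₃) (Sum.inl 0) (Sum.inl 1) (Sum.inl 2) =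
        σ (dt (pderiv 0 g₁) (pderiv 1 g₁) (pderiv 2 g₁) (pderiv 0 g₂) (pderiv 1 g₂) (pderiv 2 g₂)
      (pderiv 0 g₃) (pderiv 1 g₃) (pderiv 2 g₃)) := by
      unfold JD dt
      simp only [← hσd, map_add, map_sub, map_mul]
    rw [h5, hσe]
    exact h4
  · obtain ⟨a, b, c, hab⟩ := hcon
    refine ⟨σ a, σ b, σ c, ?_⟩
    rw [← map_pow, ← map_mul, hab]
    simp only [map_add, map_mul]

end Transport

end Pool.Agent.R867.B
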