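import Pool.Agent.R867.B.Q3

/-! The pencil of sections of a quadric surface. -/

set_option autoImplicit false

namespace Pool.Agent.R867.B

open Pool.Agent.TH178.HI Polynomial

variable {k E : Type} [Field k] [Field E] [Algebra k E]

theorem memL {L : IntermediateField k E} {S : Set E} {x : E} (hx : x ∈ L) :
    x ∈ IntermediateField.adjoin k ((L : Set E) ∪ S) :=
  IntermediateField.subset_adjoin _ _ (Or.inl hx)

theorem memR {L : IntermediateField k E} {S : Set E} {x : E} (hx : x ∈ S) :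
    x ∈ IntermediateField.adjoin k ((L : Set E) ∪ S) :=
  IntermediateField.subset_adjoin _ _ (Or.inr hx)

theorem adjoin_le' {L M : IntermediateField k E} {S : Set E} (hL : L ≤ M) (hS : ∀ x ∈ S, x ∈ M) :
    IntermediateField.adjoin k ((L : Set E) ∪ S) ≤ M := by
  rw [IntermediateField.adjoin_le_iff]
  rintro y (hy | hy)
  · exact hL hy
  · exact hS y hy

/-- the data of the generic point -/
structure Pt3 (Om A₀ : IntermediateField k E) (G P R : ℕ → ℕ → ℕ → E) (W t xa xb xe u : E) :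
    Prop where
  xa0 : xa ≠ 0
  eqG : ev3 G xa xb xe = 0
  equ : ev3 P xa xb xe + u * ev3 R xa xb xe = 0
  der : dz G xa xb xe + u * dz P xa xb xe + u ^ 2 * dz R xa xb xe ≠ 0
  tru : Transcendental Om u
  ind : AlgebraicIndependent Om (fun o : Option Unit => o.elim (xe / xa) (fun _ => xb / xa))
  mxa : xa ∈ IntermediateField.adjoin k ((A₀ : Set E) ∪ {xb / xa, xe / xa})
  mu : u ∈ IntermediateField.adjoin k ((A₀ : Set E) ∪ {xb / xa, xe / xa})
  bxa : xa ∈ IntermediateField.adjoin k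
    (((IntermediateField.adjoin k ((Om : Set E) ∪ {W}) : IntermediateField k E) : Set E) ∪ {t})
  bxb : xb ∈ IntermediateField.adjoin k
    (((IntermediateField.adjoin k ((Om : Set E) ∪ {W}) : IntermediateField k E) : Set E) ∪ {t})
  bxe : xe ∈ IntermediateField.adjoin k
    (((IntermediateField.adjoin k ((Om : Set E) ∪ {W}) : IntermediateField k E) : Set E) ∪ {t})
  rel : RelCl (IntermediateField.adjoin k ((Om : Set E) ∪ {u})) (IntermediateField.adjoin k
    (((IntermediateField.adjoin k ((Om : Set E) ∪ {W}) : IntermediateField k E) : Set E) ∪ {t}))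

theorem pencil3 {Om A₀ : IntermediateField k E} (hAO : A₀ ≤ Om) {G P R : ℕ → ℕ → ℕ → E}
    (hG : ∀ i j l, G i j l ∈ A₀) (hP : ∀ i j l, P i j l ∈ A₀) (hR : ∀ i j l, R i j l ∈ A₀)
    (hG0 : G 0 0 0 = 0) {za zb ze : E} (hza : za ∈ Om) (hzb : zb ∈ Om) (hze : ze ∈ Om)
    (h1 : ev3 G za zb ze = 0) (h2 : ev3 P za zb ze = 0) (h3 : ev3 R za zb ze = 0)
    (hdet : det3 G P R za zb ze ≠ 0) (hge : dz G za zb ze ≠ 0)
    (hh2 : qd G (dz G za zb ze) 0 (- dx G za zb ze) ≠ 0) (hza0 : za ≠ 0)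
    (hq : qd G za zb ze ≠ 0) {W t : E} (hW : Transcendental Om W)
    (ht : Transcendental (IntermediateField.adjoin k ((Om : Set E) ∪ {W})) t) :
    ∃ xa xb xe u : E, Pt3 Om A₀ G P R W t xa xb xe u := by
  obtain ⟨F, hF⟩ : ∃ F, F = IntermediateField.adjoin k ((Om : Set E) ∪ {W}) := ⟨_, rfl⟩
  rw [← hF] at ht
  have hOF : Om ≤ F := by rw [hF]; exact fun x hx => memL hx
  have hWF : W ∈ F := by rw [hF]; exact memR rfl
  have hGO : ∀ i j l, G i j l ∈ Om := fun i j l => hAO (hG i j l)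
  have hPO : ∀ i j l, P i j l ∈ Om := fun i j l => hAO (hP i j l)
  have hRO : ∀ i j l, R i j l ∈ Om := fun i j l => hAO (hR i j l)
  have hGF : ∀ i j l, G i j l ∈ F := fun i j l => hOF (hGO i j l)
  have hPF : ∀ i j l, P i j l ∈ F := fun i j l => hOF (hPO i j l)
  have hRF : ∀ i j l, R i j l ∈ F := fun i j l => hOF (hRO i j l)
  -- the derivatives
  obtain ⟨ga, hga⟩ : ∃ a, a = dx G za zb ze := ⟨_, rfl⟩
  obtain ⟨gb, hgb⟩ : ∃ a, a = dy G za zb ze := ⟨_, rfl⟩
  obtain ⟨ge, hge'⟩ : ∃ a, a = dz G za zb ze := ⟨_, rfl⟩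
  obtain ⟨pa, hpa⟩ : ∃ a, a = dx P za zb ze := ⟨_, rfl⟩
  obtain ⟨pb, hpb⟩ : ∃ a, a = dy P za zb ze := ⟨_, rfl⟩
  obtain ⟨pe, hpe⟩ : ∃ a, a = dz P za zb ze := ⟨_, rfl⟩
  obtain ⟨ra, hra⟩ : ∃ a, a = dx R za zb ze := ⟨_, rfl⟩
  obtain ⟨rb, hrb⟩ : ∃ a, a = dy R za zb ze := ⟨_, rfl⟩
  obtain ⟨re, hre⟩ : ∃ a, a = dz R za zb ze := ⟨_, rfl⟩
  have mga : ga ∈ Om := by rw [hga]; exact dx_mem hGO hza hzb hze
  have mgb : gb ∈ Om := by rw [hgb]; exact dy_mem hGO hza hzb hze
  have mge : ge ∈ Om := by rw [hge']; exact dz_mem hGO hza hzb hze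
  have mpa : pa ∈ Om := by rw [hpa]; exact dx_mem hPO hza hzb hze
  have mpb : pb ∈ Om := by rw [hpb]; exact dy_mem hPO hza hzb hze
  have mpe : pe ∈ Om := by rw [hpe]; exact dz_mem hPO hza hzb hze
  have mra : ra ∈ Om := by rw [hra]; exact dx_mem hRO hza hzb hze
  have mrb : rb ∈ Om := by rw [hrb]; exact dy_mem hRO hza hzb hze
  have mre : re ∈ Om := by rw [hre]; exact dz_mem hRO hza hzb hze
  rw [← hge'] at hge hh2
  rw [← hga] at hh2
  have hdet' : (pa * ge - pe * ga) * (rb * ge - re * gb) -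
      (ra * ge - re * ga) * (pb * ge - pe * gb) ≠ 0 := by
    rw [hga, hgb, hge', hpa, hpb, hpe, hra, hrb, hre]
    exact hdet
  -- the point
  obtain ⟨We, hWe⟩ : ∃ We, We = (t - ga - gb * W) / ge := ⟨_, rfl⟩
  obtain ⟨We0, hWe0⟩ : ∃ We0, We0 = (- ga - gb * W) / ge := ⟨_, rfl⟩
  have mWe0 : We0 ∈ F := by
    rw [hWe0]
    exact div_mem (sub_mem (neg_mem (hOF mga)) (mul_mem (hOF mgb) hWF)) (hOF mge)
  have hgWe : ge * We = t - ga - gb * W := by rw [hWe]; field_simp
  have hgWe0 : ge * We0 = - ga - gb * W := by rw [hWe0]; field_simp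
  have iW : In F t W W := In.const hWF
  have iWe : In F t We We0 := by
    have h5 : We = (t + (- ga - gb * W)) * ge⁻¹ := by rw [hWe, div_eq_mul_inv]; ring
    have h6 : We0 = (0 + (- ga - gb * W)) * ge⁻¹ := by rw [hWe0, div_eq_mul_inv]; ring
    rw [h5, h6]
    exact (In.self.add (In.const (sub_mem (neg_mem (hOF mga)) (mul_mem (hOF mgb) hWF)))).mul
      (In.const (inv_mem (hOF mge)))
  have i1 : In F t (1 : E) 1 := In.const F.one_mem
  obtain ⟨q, hqdef⟩ : ∃ q, q = qd G 1 W We := ⟨_, rfl⟩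
  obtain ⟨q0, hq0def⟩ : ∃ q, q = qd G 1 W We0 := ⟨_, rfl⟩
  have iq : In F t q q0 := by
    rw [hqdef, hq0def]
    exact In.qd hGF i1 iW iWe
  have hq0 : q0 ≠ 0 := by
    have h5 : ge ^ 2 * q0 = qd G ge 0 (- ga) + (2 * G 0 0 2 * ga * gb + G 1 1 0 * ge ^ 2 -
        G 1 0 1 * ge * gb - G 0 1 1 * ge * ga) * W + (G 0 2 0 * ge ^ 2 + G 0 0 2 * gb ^ 2 -
        G 0 1 1 * ge * gb) * W ^ 2 := by
      have h6 : ge ^ 2 * q0 = qd G ge (ge * W) (ge * We0) := by
        rw [hq0def]
        unfold qd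
        ring
      rw [h6, hgWe0]
      unfold qd
      ring
    intro h0
    rw [h0, mul_zero] at h5
    refine quad_ne hW (qd_mem hGO mge Om.zero_mem (neg_mem mga)) ?_ ?_ hh2 h5.symm
    · exact sub_mem (sub_mem (add_mem (mul_mem (mul_mem (mul_mem (two_mem' Om) (hGO _ _ _)) mga)
        mgb) (mul_mem (hGO _ _ _) (pow_mem mge 2))) (mul_mem (mul_mem (hGO _ _ _) mge) mgb))
        (mul_mem (mul_mem (hGO _ _ _) mge) mga)
    · exact sub_mem (add_mem (mul_mem (hGO _ _ _) (pow_mem mge 2)) (mul_mem (hGO _ _ _)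
        (pow_mem mgb 2))) (mul_mem (mul_mem (hGO _ _ _) mge) mgb)
  have hq0' : q ≠ 0 := by
    intro h0
    rw [h0] at iq
    exact hq0 (In.unique ht iq (In.const F.zero_mem))
  have ht0 : t ≠ 0 := by
    rintro rfl
    exact ht isAlgebraic_zero
  obtain ⟨s, hs⟩ : ∃ s, s = - t * q⁻¹ := ⟨_, rfl⟩
  have hsq : s * q = - t := by rw [hs]; field_simp
  have hs0 : s ≠ 0 := by
    rw [hs]
    exact mul_ne_zero (neg_ne_zero.mpr ht0) (inv_ne_zero hq0')
  have is : In F t s 0 := by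
    have h5 := (In.self (F := F) (t := t)).neg.mul (iq.inv ht hq0)
    rw [neg_zero, zero_mul] at h5
    rw [hs]
    exact h5
  obtain ⟨xa, hxa⟩ : ∃ x, x = za + s * 1 := ⟨_, rfl⟩
  obtain ⟨xb, hxb⟩ : ∃ x, x = zb + s * W := ⟨_, rfl⟩
  obtain ⟨xe, hxe⟩ : ∃ x, x = ze + s * We := ⟨_, rfl⟩
  have ixa : In F t xa za := by
    have h5 := (In.const (F := F) (t := t) (hOF hza)).add (is.mul i1)
    rw [zero_mul, add_zero] at h5
    rw [hxa]
    exact h5
  have ixb : In F t xb zb := by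
    have h5 := (In.const (F := F) (t := t) (hOF hzb)).add (is.mul iW)
    rw [zero_mul, add_zero] at h5
    rw [hxb]
    exact h5
  have ixe : In F t xe ze := by
    have h5 := (In.const (F := F) (t := t) (hOF hze)).add (is.mul iWe)
    rw [zero_mul, add_zero] at h5
    rw [hxe]
    exact h5
  have hxa0 : xa ≠ 0 := by
    intro h0
    rw [h0] at ixa
    exact hza0 (In.unique ht ixa (In.const F.zero_mem))
  have hGx : ev3 G xa xb xe = 0 := by
    rw [hxa, hxb, hxe, taylor3, h1, ← hga, ← hgb, ← hge', ← hqdef]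
    linear_combination s * hgWe + s * hsq
  obtain ⟨pP, hpP⟩ : ∃ pP, pP = (pa + pb * W + pe * We) + s * qd P 1 W We := ⟨_, rfl⟩
  obtain ⟨pR, hpR⟩ : ∃ pR, pR = (ra + rb * W + re * We) + s * qd R 1 W We := ⟨_, rfl⟩
  have hPx : ev3 P xa xb xe = s * pP := by
    rw [hxa, hxb, hxe, taylor3, h2, ← hpa, ← hpb, ← hpe, hpP]
    ring
  have hRx : ev3 R xa xb xe = s * pR := by
    rw [hxa, hxb, hxe, taylor3, h3, ← hra, ← hrb, ← hre, hpR]
    ring
  have ipP : In F t pP (pa + pb * W + pe * We0) := by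
    have h5 := (((In.const (F := F) (t := t) (hOF mpa)).add ((In.const (hOF mpb)).mul iW)).add
      ((In.const (hOF mpe)).mul iWe)).add (is.mul (In.qd hPF i1 iW iWe))
    rw [zero_mul, add_zero] at h5
    rw [hpP]
    exact h5
  have ipR : In F t pR (ra + rb * W + re * We0) := by
    have h5 := (((In.const (F := F) (t := t) (hOF mra)).add ((In.const (hOF mrb)).mul iW)).add
      ((In.const (hOF mre)).mul iWe)).add (is.mul (In.qd hRF i1 iW iWe))
    rw [zero_mul, add_zero] at h5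
    rw [hpR]
    exact h5
  obtain ⟨A1, hA1⟩ : ∃ a, a = pa * ge - pe * ga := ⟨_, rfl⟩
  obtain ⟨B1, hB1⟩ : ∃ a, a = pb * ge - pe * gb := ⟨_, rfl⟩
  obtain ⟨A2, hA2⟩ : ∃ a, a = ra * ge - re * ga := ⟨_, rfl⟩
  obtain ⟨B2, hB2⟩ : ∃ a, a = rb * ge - re * gb := ⟨_, rfl⟩
  have mA1 : A1 ∈ Om := by rw [hA1]; exact sub_mem (mul_mem mpa mge) (mul_mem mpe mga)
  have mB1 : B1 ∈ Om := by rw [hB1]; exact sub_mem (mul_mem mpb mge) (mul_mem mpe mgb)
  have mA2 : A2 ∈ Om := by rw [hA2]; exact sub_mem (mul_mem mra mge) (mul_mem mre mga)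
  have mB2 : B2 ∈ Om := by rw [hB2]; exact sub_mem (mul_mem mrb mge) (mul_mem mre mgb)
  rw [← hA1, ← hB1, ← hA2, ← hB2] at hdet'
  have hP0 : ge * (pa + pb * W + pe * We0) = A1 + B1 * W := by
    rw [hA1, hB1]
    linear_combination pe * hgWe0
  have hR0 : ge * (ra + rb * W + re * We0) = A2 + B2 * W := by
    rw [hA2, hB2]
    linear_combination re * hgWe0
  have hR2 : A2 + B2 * W ≠ 0 := by
    apply lin_ne hW mA2 mB2
    by_contra hcon
    push Not at hcon
    apply hdet'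
    rw [hcon.1, hcon.2]
    ring
  have hR2' : ra + rb * W + re * We0 ≠ 0 := by
    intro h0
    rw [h0, mul_zero] at hR0
    exact hR2 hR0.symm
  have hpR0 : pR ≠ 0 := by
    intro h0
    rw [h0] at ipR
    exact hR2' (In.unique ht ipR (In.const F.zero_mem))
  obtain ⟨u, hu⟩ : ∃ u, u = - pP * pR⁻¹ := ⟨_, rfl⟩
  obtain ⟨ub, hub⟩ : ∃ ub, ub = - (pa + pb * W + pe * We0) * (ra + rb * W + re * We0)⁻¹ := ⟨_, rfl⟩
  have iu : In F t u ub := by
    rw [hu, hub]
    exact ipP.neg.mul (ipR.inv ht hR2')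
  have hupR : u * pR = - pP := by rw [hu]; field_simp
  have hub2 : ub * (A2 + B2 * W) = - (A1 + B1 * W) := by
    have h5 : ub * (ra + rb * W + re * We0) = - (pa + pb * W + pe * We0) := by
      rw [hub, mul_assoc, inv_mul_cancel₀ hR2', mul_one]
    rw [← hP0, ← hR0]
    linear_combination ge * h5
  have hBn : B1 + ub * B2 ≠ 0 := by
    intro h0
    have h5 : A1 + ub * A2 = 0 := by linear_combination hub2 - W * h0
    apply hdet'
    linear_combination B2 * h5 - A2 * h0
  have hWub : W ∈ IntermediateField.adjoin k ((Om : Set E) ∪ {ub}) := by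
    have h5 : W = - (A1 + ub * A2) / (B1 + ub * B2) := by
      rw [eq_div_iff hBn]
      linear_combination hub2
    have h6 : ub ∈ IntermediateField.adjoin k ((Om : Set E) ∪ {ub}) := memR rfl
    rw [h5]
    exact div_mem (neg_mem (add_mem (memL mA1) (mul_mem h6 (memL mA2))))
      (add_mem (memL mB1) (mul_mem h6 (memL mB2)))
  have htub : Transcendental Om ub := by
    intro h0
    apply hW
    refine isAlgebraic_of_mem (S := {ub}) ?_ hWub
    intro x hx
    rw [Set.mem_singleton_iff] at hx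
    rwa [hx]
  have hrel := relCl_pencil hOF ht iu htub (by
    rw [hF]
    refine adjoin_le' (fun x hx => memL hx) ?_
    intro x hx
    rw [Set.mem_singleton_iff] at hx
    rw [hx]
    exact hWub)
  have htu := trans_of_res hOF ht iu htub
  -- the memberships
  obtain ⟨N, hN⟩ : ∃ N, N = IntermediateField.adjoin k ((F : Set E) ∪ {t}) := ⟨_, rfl⟩
  have hFN : F ≤ N := by rw [hN]; exact fun x hx => memL hx
  have htN : t ∈ N := by rw [hN]; exact memR rfl
  have mWe : We ∈ N := by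
    rw [hWe]
    exact div_mem (sub_mem (sub_mem htN (hFN (hOF mga))) (mul_mem (hFN (hOF mgb)) (hFN hWF)))
      (hFN (hOF mge))
  have mq : q ∈ N := by
    rw [hqdef]
    exact qd_mem (fun i j l => hFN (hGF i j l)) N.one_mem (hFN hWF) mWe
  have ms : s ∈ N := by
    rw [hs]
    exact mul_mem (neg_mem htN) (inv_mem mq)
  have mxa : xa ∈ N := by
    rw [hxa]
    exact add_mem (hFN (hOF hza)) (mul_mem ms N.one_mem)
  have mxb : xb ∈ N := by
    rw [hxb]
    exact add_mem (hFN (hOF hzb)) (mul_mem ms (hFN hWF))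
  have mxe : xe ∈ N := by
    rw [hxe]
    exact add_mem (hFN (hOF hze)) (mul_mem ms mWe)
  -- the second parametrization
  have hqx : qd G xa xb xe ≠ 0 := by
    intro h0
    have h5 := In.qd hGF ixa ixb ixe
    rw [h0] at h5
    exact hq (In.unique ht h5 (In.const F.zero_mem))
  obtain ⟨w1, hw1⟩ : ∃ w, w = xb / xa := ⟨_, rfl⟩
  obtain ⟨w2, hw2⟩ : ∃ w, w = xe / xa := ⟨_, rfl⟩
  have hw1' : xb = xa * w1 := by rw [hw1]; field_simp
  have hw2' : xe = xa * w2 := by rw [hw2]; field_simp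
  have hqw : qd G 1 w1 w2 ≠ 0 := by
    intro h0
    apply hqx
    have h5 : qd G xa xb xe = xa ^ 2 * qd G 1 w1 w2 := by
      rw [hw1', hw2']
      unfold qd
      ring
    rw [h5, h0, mul_zero]
  have hxw : xa = - li G 1 w1 w2 / qd G 1 w1 w2 := by
    rw [eq_div_iff hqw]
    apply mul_left_cancel₀ hxa0
    have h5 : ev3 G xa xb xe = xa * (li G 1 w1 w2 + xa * qd G 1 w1 w2) := by
      rw [hw1', hw2']
      unfold ev3 li qd
      rw [hG0]
      ring
    rw [hGx] at h5
    linear_combination - h5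
  have memw : ∀ {A : IntermediateField k E}, A₀ ≤ A → w1 ∈ A → w2 ∈ A → xa ∈ A ∧ xb ∈ A ∧
      xe ∈ A := by
    intro A hA h5 h6
    have h7 : xa ∈ A := by
      rw [hxw]
      exact div_mem (neg_mem (li_mem (fun i j l => hA (hG i j l)) A.one_mem h5 h6))
        (qd_mem (fun i j l => hA (hG i j l)) A.one_mem h5 h6)
    refine ⟨h7, ?_, ?_⟩
    · rw [hw1']; exact mul_mem h7 h5
    · rw [hw2']; exact mul_mem h7 h6
  obtain ⟨A, hA⟩ : ∃ A, A = IntermediateField.adjoin k ((A₀ : Set E) ∪ {w1, w2}) := ⟨_, rfl⟩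
  have hA₀ : A₀ ≤ A := by rw [hA]; exact fun x hx => memL hx
  have hw1A : w1 ∈ A := by rw [hA]; exact memR (Or.inl rfl)
  have hw2A : w2 ∈ A := by rw [hA]; exact memR (Or.inr rfl)
  obtain ⟨a1, a2, a3⟩ := memw hA₀ hw1A hw2A
  have huv : ev3 P xa xb xe + u * ev3 R xa xb xe = 0 := by
    rw [hPx, hRx]
    linear_combination s * hupR
  have hRx0 : ev3 R xa xb xe ≠ 0 := by
    rw [hRx]
    exact mul_ne_zero hs0 hpR0
  have muA : u ∈ A := by
    have h5 : u = - ev3 P xa xb xe / ev3 R xa xb xe := by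
      rw [eq_div_iff hRx0]
      linear_combination huv
    rw [h5]
    exact div_mem (neg_mem (ev3_mem (fun i j l => hA₀ (hP i j l)) a1 a2 a3))
      (ev3_mem (fun i j l => hA₀ (hR i j l)) a1 a2 a3)
  have hind : AlgebraicIndependent Om (fun o : Option Unit => o.elim w2 (fun _ => w1)) := by
    have h5 : AlgebraicIndependent Om (fun o : Option Unit => o.elim t (fun _ => W)) := by
      have h6 : AlgebraicIndependent Om (fun _ : Unit => W) :=
        (algebraicIndependent_unique_type_iff).mpr hW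
      rw [h6.option_iff_transcendental, ← IntermediateField.transcendental_adjoin_iff]
      intro h7
      apply ht
      rw [hF, ← adjoin_rs]
      rw [Set.range_const] at h7
      exact h7
    refine swap h5 ?_
    obtain ⟨D, hD⟩ : ∃ D, D = IntermediateField.adjoin Om
      (Set.range (fun o : Option Unit => o.elim w2 (fun _ => w1))) := ⟨_, rfl⟩
    rw [← hD]
    have hOD : Om ≤ D.restrictScalars k := fun x hx => D.algebraMap_mem (⟨x, hx⟩ : Om)
    have h7 : w1 ∈ D.restrictScalars k := by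
      rw [IntermediateField.mem_restrictScalars, hD]
      exact IntermediateField.subset_adjoin _ _ ⟨some (), rfl⟩
    have h8 : w2 ∈ D.restrictScalars k := by
      rw [IntermediateField.mem_restrictScalars, hD]
      exact IntermediateField.subset_adjoin _ _ ⟨none, rfl⟩
    obtain ⟨b1, b2, b3⟩ := memw (hAO.trans hOD) h7 h8
    have hW' : W = (xb - zb) / (xa - za) := by
      rw [hxa, hxb]
      have : za + s * 1 - za = s := by ring
      rw [this]
      field_simp
      ring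
    have hWe' : We = (xe - ze) / (xa - za) := by
      rw [hxa, hxe]
      have : za + s * 1 - za = s := by ring
      rw [this]
      field_simp
      ring
    have mWD : W ∈ D.restrictScalars k := by
      rw [hW']
      exact div_mem (sub_mem b2 (hOD hzb)) (sub_mem b1 (hOD hza))
    have mWeD : We ∈ D.restrictScalars k := by
      rw [hWe']
      exact div_mem (sub_mem b3 (hOD hze)) (sub_mem b1 (hOD hza))
    have mtD : t ∈ D.restrictScalars k := by
      have h9 : t = ge * We + ga + gb * W := by linear_combination - hgWe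
      rw [h9]
      exact add_mem (add_mem (mul_mem (hOD mge) mWeD) (hOD mga)) (mul_mem (hOD mgb) mWD)
    rintro (_ | _)
    · exact mtD
    · exact mWD
  refine ⟨xa, xb, xe, u, ⟨hxa0, hGx, huv, ?_, htu, ?_, ?_, ?_, ?_, ?_, ?_, ?_⟩⟩
  · intro h0
    have h5 := ((In.dz hGF ixa ixb ixe).add (iu.mul (In.dz hPF ixa ixb ixe))).add
      ((iu.pow 2).mul (In.dz hRF ixa ixb ixe))
    rw [h0, ← hge', ← hpe, ← hre] at h5
    have h6 := In.unique ht h5 (In.const F.zero_mem)
    refine quad_ne htub mge mpe mre hge ?_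
    linear_combination h6
  · rw [← hw1, ← hw2]
    exact hind
  · rw [← hw1, ← hw2, ← hA]
    exact a1
  · rw [← hw1, ← hw2, ← hA]
    exact muA
  · rw [← hF, ← hN]
    exact mxa
  · rw [← hF, ← hN]
    exact mxb
  · rw [← hF, ← hN]
    exact mxe
  · rw [← hF]
    exact hrel

end Pool.Agent.R867.B
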