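import Pool.Agent.R867.B.Place

/-! The pencil: the field `Om(u)` is relatively algebraically closed in `Om(w, t)`. -/

set_option autoImplicit false

namespace Pool.Agent.R867.B

open Polynomial Pool.Agent.TH178.HI

variable {k E : Type} [Field k] [Field E] [Algebra k E]

theorem In.polyAeval {F A : IntermediateField k E} (hA : A ≤ F) {t u ub : E} (hu : In F t u ub)
    (P : A[X]) : In F t (aeval u P) (aeval ub P) := by
  induction P using Polynomial.induction_on with
  | C a =>
    rw [aeval_C, aeval_C]
    exact In.const (hA a.2)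
  | add p q hp hq =>
    rw [map_add, map_add]
    exact hp.add hq
  | monomial n a h =>
    have h3 : ∀ z : E, aeval z (C a * X ^ (n + 1) : A[X]) = aeval z (C a * X ^ n : A[X]) * z := by
      intro z
      rw [pow_succ, ← mul_assoc, map_mul, aeval_X]
    rw [h3, h3]
    exact h.mul hu

/-- **The pencil.** -/
theorem relCl_pencil {Om F : IntermediateField k E} (hOm : Om ≤ F) {t u ub : E}
    (ht : Transcendental F t) (hu : In F t u ub) (hub : Transcendental Om ub)
    (hgen : F ≤ IntermediateField.adjoin k ((Om : Set E) ∪ {ub})) :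
    RelCl (IntermediateField.adjoin k ((Om : Set E) ∪ {u}))
      (IntermediateField.adjoin k ((F : Set E) ∪ {t})) := by
  have hut : Transcendental Om u := by
    rintro ⟨P, hP, h0⟩
    have h1 := In.polyAeval hOm hu P
    rw [h0] at h1
    exact hub ⟨P, hP, (In.unique ht h1 (In.const F.zero_mem))⟩
  refine relCl_place ht ?_ ?_ ?_
  · intro c hc
    obtain ⟨p, q, hq, hpq⟩ := exists_ratio hc
    have hq0 : q ≠ 0 := by
      rintro rfl
      exact hq (map_zero _)
    have hqub : aeval ub q ≠ 0 := fun h0 => hub ⟨q, hq0, h0⟩
    have h1 := In.polyAeval hOm hu p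
    have h2 := (In.polyAeval hOm hu q).inv ht hqub
    refine ⟨aeval ub p * (aeval ub q)⁻¹, ?_⟩
    have h3 : c = aeval u p * (aeval u q)⁻¹ := by
      rw [← hpq, mul_assoc, mul_inv_cancel₀ hq, mul_one]
    rw [h3]
    exact h1.mul h2
  · intro c hc h0
    obtain ⟨p, q, hq, hpq⟩ := exists_ratio hc
    have h1 := In.polyAeval hOm hu p
    have h2 := h0.mul (In.polyAeval hOm hu q)
    rw [hpq, zero_mul] at h2
    have h3 := In.unique ht h1 h2
    have h4 : p = 0 := by
      by_contra hcon
      exact hub ⟨p, hcon, h3⟩
    rw [h4, map_zero] at hpq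
    exact (mul_eq_zero.mp hpq).resolve_right hq
  · intro e he
    obtain ⟨p, q, hq, hpq⟩ := exists_ratio (hgen he)
    have hq0 : q ≠ 0 := by
      rintro rfl
      exact hq (map_zero _)
    have hqu : aeval u q ≠ 0 := fun h0 => hut ⟨q, hq0, h0⟩
    refine ⟨aeval u p * (aeval u q)⁻¹, ?_, ?_⟩
    · have hmem : ∀ P : Om[X], aeval u P ∈ IntermediateField.adjoin k ((Om : Set E) ∪ {u}) := by
        intro P
        have hu' : u ∈ IntermediateField.adjoin k ((Om : Set E) ∪ {u}) :=
          IntermediateField.subset_adjoin _ _ (Or.inr rfl)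
        induction P using Polynomial.induction_on with
        | C a =>
          rw [aeval_C]
          exact IntermediateField.subset_adjoin _ _ (Or.inl a.2)
        | add p q hp hq =>
          rw [map_add]
          exact add_mem hp hq
        | monomial n a h =>
          have h3 : aeval u (C a * X ^ (n + 1) : Om[X]) = aeval u (C a * X ^ n : Om[X]) * u := by
            rw [pow_succ, ← mul_assoc, map_mul, aeval_X]
          rw [h3]
          exact mul_mem h hu'
      exact mul_mem (hmem p) (inv_mem (hmem q))
    · have h1 := (In.polyAeval hOm hu p).mul ((In.polyAeval hOm hu q).inv ht hq)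
      have h2 : e = aeval ub p * (aeval ub q)⁻¹ := by
        rw [← hpq, mul_assoc, mul_inv_cancel₀ hq, mul_one]
      rwa [h2]

end Pool.Agent.R867.B
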