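import Pool.Agent.TH178.HI.Two

/-! A relatively algebraically closed subfield from a place with the same residue field. -/

set_option autoImplicit false

namespace Pool.Agent.R867.B

open Polynomial Pool.Agent.TH178.HI

variable {k E : Type} [Field k] [Field E] [Algebra k E]

/-- `γ` is in the valuation ring of `t = 0` with residue `e`. -/
def In (F : IntermediateField k E) (t γ e : E) : Prop :=
  ∃ a b : F[X], b.eval 0 ≠ 0 ∧ γ * aeval t b = aeval t a ∧
    ((a.eval 0 : F) : E) = e * ((b.eval 0 : F) : E)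

variable {F : IntermediateField k E} {t γ γ' e e' : E}

theorem In.mem (h : In F t γ e) : e ∈ F := by
  obtain ⟨a, b, hb, -, h2⟩ := h
  have h3 : ((b.eval 0 : F) : E) ≠ 0 := fun h0 => hb (Subtype.ext h0)
  have h4 : e = ((a.eval 0 : F) : E) / ((b.eval 0 : F) : E) := by
    rw [eq_div_iff h3, h2]
  rw [h4]
  exact F.div_mem (a.eval 0).2 (b.eval 0).2

theorem In.add (h : In F t γ e) (h' : In F t γ' e') : In F t (γ + γ') (e + e') := by
  obtain ⟨a, b, hb, h1, h2⟩ := h
  obtain ⟨a', b', hb', h1', h2'⟩ := h'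
  refine ⟨a * b' + a' * b, b * b', ?_, ?_, ?_⟩
  · rw [eval_mul]
    exact mul_ne_zero hb hb'
  · rw [map_mul, map_add, map_mul, map_mul, ← h1, ← h1']
    ring
  · rw [eval_add, eval_mul, eval_mul, eval_mul]
    push_cast
    rw [h2, h2']
    ring

theorem In.mul (h : In F t γ e) (h' : In F t γ' e') : In F t (γ * γ') (e * e') := by
  obtain ⟨a, b, hb, h1, h2⟩ := h
  obtain ⟨a', b', hb', h1', h2'⟩ := h'
  refine ⟨a * a', b * b', ?_, ?_, ?_⟩
  · rw [eval_mul]
    exact mul_ne_zero hb hb'
  · rw [map_mul, map_mul, ← h1, ← h1']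
    ring
  · rw [eval_mul, eval_mul]
    push_cast
    rw [h2, h2']
    ring

theorem In.const (he : e ∈ F) : In F t e e := by
  refine ⟨C ⟨e, he⟩, 1, ?_, ?_, ?_⟩
  · simp
  · rw [map_one, mul_one, aeval_C]
    rfl
  · rw [eval_C, eval_one]
    push_cast
    ring

theorem In.self : In F t t 0 := by
  refine ⟨X, 1, ?_, ?_, ?_⟩
  · simp
  · simp
  · simp

theorem In.neg (h : In F t γ e) : In F t (-γ) (-e) := by
  have h1 := (In.const (F := F) (t := t) (F.neg_mem F.one_mem)).mul h
  rwa [neg_one_mul, neg_one_mul] at h1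

theorem In.sub (h : In F t γ e) (h' : In F t γ' e') : In F t (γ - γ') (e - e') := by
  rw [sub_eq_add_neg, sub_eq_add_neg]
  exact h.add h'.neg

theorem In.inv (ht : Transcendental F t) (h : In F t γ e) (he : e ≠ 0) : In F t γ⁻¹ e⁻¹ := by
  obtain ⟨a, b, hb, h1, h2⟩ := h
  have hb' : ((b.eval 0 : F) : E) ≠ 0 := fun h0 => hb (Subtype.ext h0)
  have ha : a.eval 0 ≠ 0 := by
    intro h0
    rw [h0] at h2
    exact mul_ne_zero he hb' h2.symm
  have hbt : aeval t b ≠ 0 := by
    intro h0
    have h3 : b = 0 := by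
      by_contra hcon
      exact ht ⟨b, hcon, h0⟩
    rw [h3, eval_zero] at hb
    exact hb rfl
  have hat : aeval t a ≠ 0 := by
    intro h0
    have h3 : a = 0 := by
      by_contra hcon
      exact ht ⟨a, hcon, h0⟩
    rw [h3, eval_zero] at ha
    exact ha rfl
  have hγ : γ ≠ 0 := by
    rintro rfl
    rw [zero_mul] at h1
    exact hat h1.symm
  refine ⟨b, a, ha, ?_, ?_⟩
  · rw [← h1]
    field_simp
  · rw [h2]
    field_simp

theorem In.unique (ht : Transcendental F t) (h : In F t γ e) (h' : In F t γ e') : e = e' := by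
  obtain ⟨a, b, hb, h1, h2⟩ := h
  obtain ⟨a', b', hb', h1', h2'⟩ := h'
  have h3 : a * b' = a' * b := by
    by_contra hcon
    apply ht
    refine ⟨a * b' - a' * b, sub_ne_zero.mpr hcon, ?_⟩
    rw [map_sub, map_mul, map_mul, ← h1, ← h1']
    ring
  have h4 := congrArg (fun p : F[X] => ((p.eval 0 : F) : E)) h3
  simp only [eval_mul] at h4
  push_cast at h4
  rw [h2, h2'] at h4
  have hb1 : ((b.eval 0 : F) : E) ≠ 0 := fun h0 => hb (Subtype.ext h0)
  have hb2 : ((b'.eval 0 : F) : E) ≠ 0 := fun h0 => hb' (Subtype.ext h0)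
  apply mul_right_cancel₀ (mul_ne_zero hb1 hb2)
  linear_combination h4

theorem In.pow (h : In F t γ e) (n : ℕ) : In F t (γ ^ n) (e ^ n) := by
  induction n with
  | zero =>
    rw [pow_zero, pow_zero]
    exact In.const F.one_mem
  | succ n ih =>
    rw [pow_succ, pow_succ]
    exact ih.mul h

theorem In.sum {ι : Type} (S : Finset ι) {γ e : ι → E} (h : ∀ i ∈ S, In F t (γ i) (e i)) :
    In F t (∑ i ∈ S, γ i) (∑ i ∈ S, e i) := by
  classical
  induction S using Finset.induction_on with
  | empty =>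
    rw [Finset.sum_empty, Finset.sum_empty]
    exact In.const F.zero_mem
  | insert i S hi ih =>
    rw [Finset.sum_insert hi, Finset.sum_insert hi]
    exact (h i (Finset.mem_insert_self i S)).add
      (ih fun j hj => h j (Finset.mem_insert_of_mem hj))

/-- polynomials with coefficients in `F` -/
theorem In.mv {ι : Type} {A : IntermediateField k E} (hA : A ≤ F) {x r : ι → E}
    (h : ∀ i, In F t (x i) (r i)) (P : MvPolynomial ι A) :
    In F t (MvPolynomial.aeval x P) (MvPolynomial.aeval r P) := by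
  induction P using MvPolynomial.induction_on with
  | C a =>
    rw [MvPolynomial.aeval_C, MvPolynomial.aeval_C]
    exact In.const (hA a.2)
  | add p q hp hq =>
    rw [map_add, map_add]
    exact hp.add hq
  | mul_X p i hp =>
    rw [map_mul, map_mul, MvPolynomial.aeval_X, MvPolynomial.aeval_X]
    exact hp.mul (h i)

theorem dich (ht : Transcendental F t) (p q : F[X]) (hq : q ≠ 0) (hγ : γ * aeval t q = aeval t p) :
    (∃ e, In F t γ e) ∨ In F t γ⁻¹ 0 := by
  have hne : ∀ {b : F[X]}, b ≠ 0 → aeval t b ≠ 0 := fun {b} hb h0 => ht ⟨b, hb, h0⟩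
  have key : ∀ (n : ℕ) (p q : F[X]), q.natDegree ≤ n → q ≠ 0 → γ * aeval t q = aeval t p →
      (∃ e, In F t γ e) ∨ In F t γ⁻¹ 0 := by
    intro n
    induction n with
    | zero =>
      intro p q hn hq hγ
      left
      have h1 : q = C (q.coeff 0) := eq_C_of_natDegree_le_zero hn
      have h2 : q.eval 0 ≠ 0 := by
        intro h0
        apply hq
        rw [h1, eval_C] at h0
        rw [h1, h0, C_0]
      have h3 : ((q.eval 0 : F) : E) ≠ 0 := fun h0 => h2 (Subtype.ext h0)
      exact ⟨((p.eval 0 : F) : E) / ((q.eval 0 : F) : E), p, q, h2, hγ, by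
        rw [div_mul_cancel₀ _ h3]⟩
    | succ n ih =>
      intro p q hn hq hγ
      by_cases h2 : q.eval 0 = 0
      · by_cases h3 : p.eval 0 = 0
        · obtain ⟨q', rfl⟩ : X ∣ q := X_dvd_iff.mpr (by rw [coeff_zero_eq_eval_zero]; exact h2)
          obtain ⟨p', rfl⟩ : X ∣ p := X_dvd_iff.mpr (by rw [coeff_zero_eq_eval_zero]; exact h3)
          have hq' : q' ≠ 0 := right_ne_zero_of_mul hq
          refine ih p' q' ?_ hq' ?_
          · rw [natDegree_X_mul hq'] at hn
            omega
          · rw [map_mul, map_mul, aeval_X] at hγ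
            have ht0 : t ≠ 0 := by
              have := hne (b := X) X_ne_zero
              rwa [aeval_X] at this
            apply mul_left_cancel₀ ht0
            linear_combination hγ
        · right
          have hp : p ≠ 0 := by
            rintro rfl
            exact h3 eval_zero
          have hpt := hne hp
          have hγ0 : γ ≠ 0 := by
            rintro rfl
            rw [zero_mul] at hγ
            exact hpt hγ.symm
          refine ⟨q, p, h3, ?_, ?_⟩
          · rw [← hγ]
            field_simp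
          · rw [h2]
            simp
      · left
        have h3 : ((q.eval 0 : F) : E) ≠ 0 := fun h0 => h2 (Subtype.ext h0)
        exact ⟨((p.eval 0 : F) : E) / ((q.eval 0 : F) : E), p, q, h2, hγ, by
          rw [div_mul_cancel₀ _ h3]⟩
  exact key _ p q le_rfl hq hγ

theorem no_small (ht : Transcendental F t) {F₀ : IntermediateField k E}
    (h1 : ∀ c ∈ F₀, ∃ e, In F t c e) (h2 : ∀ c ∈ F₀, In F t c 0 → c = 0) {δ : E} (hδ : δ ≠ 0)
    (halg : IsAlgebraic F₀ δ) : ¬ In F t δ 0 := by
  intro h0
  have key : ∀ Q : F₀[X], ∃ e, In F t ((Q.coeff 0 : F₀) : E) e ∧ In F t (aeval δ Q) e := by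
    intro Q
    induction Q using Polynomial.induction_on with
    | C a =>
      obtain ⟨e, he⟩ := h1 a a.2
      refine ⟨e, ?_, ?_⟩
      · rwa [coeff_C_zero]
      · rw [aeval_C]
        exact he
    | add p q hp hq =>
      obtain ⟨e, he, he'⟩ := hp
      obtain ⟨d, hd, hd'⟩ := hq
      refine ⟨e + d, ?_, ?_⟩
      · rw [coeff_add]
        exact he.add hd
      · rw [map_add]
        exact he'.add hd'
    | monomial n a h =>
      obtain ⟨e, he, he'⟩ := h
      refine ⟨0, ?_, ?_⟩
      · have h3 : (C a * X ^ (n + 1) : F₀[X]).coeff 0 = 0 := by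
          rw [pow_succ, ← mul_assoc, coeff_mul_X_zero]
        rw [h3]
        exact In.const F.zero_mem
      · have h3 : aeval δ (C a * X ^ (n + 1) : F₀[X]) = aeval δ (C a * X ^ n : F₀[X]) * δ := by
          rw [pow_succ, ← mul_assoc, map_mul, aeval_X]
        rw [h3, ← mul_zero e]
        exact he'.mul h0
  obtain ⟨e, he, he'⟩ := key (minpoly F₀ δ)
  rw [minpoly.aeval] at he'
  have h3 := In.unique ht he' (In.const F.zero_mem)
  rw [h3] at he
  have h4 := h2 _ ((minpoly F₀ δ).coeff 0).2 he
  have hint : IsIntegral F₀ δ := halg.isIntegral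
  have h5 : (minpoly F₀ δ).coeff 0 ≠ 0 := minpoly.coeff_zero_ne_zero hint hδ
  exact h5 (Subtype.ext h4)

/-- **A subfield with the same residue field is relatively algebraically closed.** -/
theorem relCl_place (ht : Transcendental F t) {F₀ : IntermediateField k E}
    (h1 : ∀ c ∈ F₀, ∃ e, In F t c e) (h2 : ∀ c ∈ F₀, In F t c 0 → c = 0)
    (h3 : ∀ e ∈ F, ∃ c ∈ F₀, In F t c e) :
    RelCl F₀ (IntermediateField.adjoin k ((F : Set E) ∪ {t})) := by
  intro α hα halg
  by_cases hα0 : α = 0
  · rw [hα0]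
    exact F₀.zero_mem
  obtain ⟨p, q, hq, hpq⟩ := exists_ratio hα
  have hq0 : q ≠ 0 := by
    rintro rfl
    exact hq (map_zero _)
  rcases dich ht p q hq0 hpq with ⟨e, he⟩ | h0
  · obtain ⟨c, hc, hce⟩ := h3 e he.mem
    by_cases hne : α - c = 0
    · rw [sub_eq_zero.mp hne]
      exact hc
    · exfalso
      refine no_small ht h1 h2 hne ?_ (by
        have := he.sub hce
        rwa [sub_self] at this)
      have h4 : IsAlgebraic F₀ c := isAlgebraic_algebraMap (⟨c, hc⟩ : F₀)
      exact halg.sub h4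
  · exfalso
    exact no_small ht h1 h2 (inv_ne_zero hα0) halg.inv h0

end Pool.Agent.R867.B
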