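import Pool.Agent.R867.B.Ind

/-! Quadratic polynomials in three variables. -/

set_option autoImplicit false

namespace Pool.Agent.R867.B

open Pool.Agent.TH178.HI Polynomial

section Def

variable {S : Type} [CommRing S]

/-- quadratic part -/
def qd (C : ℕ → ℕ → ℕ → S) (X Y Z : S) : S :=
  C 2 0 0 * X ^ 2 + C 0 2 0 * Y ^ 2 + C 0 0 2 * Z ^ 2 + C 1 1 0 * X * Y + C 1 0 1 * X * Z +
    C 0 1 1 * Y * Z

/-- linear part -/
def li (C : ℕ → ℕ → ℕ → S) (X Y Z : S) : S := C 1 0 0 * X + C 0 1 0 * Y + C 0 0 1 * Z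

/-- the value of a quadratic polynomial -/
def ev3 (C : ℕ → ℕ → ℕ → S) (X Y Z : S) : S := C 0 0 0 + li C X Y Z + qd C X Y Z

/-- derivative -/
def dx (C : ℕ → ℕ → ℕ → S) (X Y Z : S) : S := C 1 0 0 + 2 * C 2 0 0 * X + C 1 1 0 * Y + C 1 0 1 * Z

/-- derivative -/
def dy (C : ℕ → ℕ → ℕ → S) (X Y Z : S) : S := C 0 1 0 + 2 * C 0 2 0 * Y + C 1 1 0 * X + C 0 1 1 * Z

/-- derivative -/
def dz (C : ℕ → ℕ → ℕ → S) (X Y Z : S) : S := C 0 0 1 + 2 * C 0 0 2 * Z + C 1 0 1 * X + C 0 1 1 * Y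

theorem taylor3 (C : ℕ → ℕ → ℕ → S) (x y z s X Y Z : S) :
    ev3 C (x + s * X) (y + s * Y) (z + s * Z) = ev3 C x y z +
      s * (dx C x y z * X + dy C x y z * Y + dz C x y z * Z) + s ^ 2 * qd C X Y Z := by
  unfold ev3 li qd dx dy dz
  ring

/-- the Jacobian -/
def det3 (G P R : ℕ → ℕ → ℕ → S) (x y z : S) : S :=
  (dx P x y z * dz G x y z - dz P x y z * dx G x y z) *
    (dy R x y z * dz G x y z - dz R x y z * dy G x y z) -
  (dx R x y z * dz G x y z - dz R x y z * dx G x y z) *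
    (dy P x y z * dz G x y z - dz P x y z * dy G x y z)

end Def

section Mem

variable {k E : Type} [Field k] [Field E] [Algebra k E] {M : IntermediateField k E}
  {C : ℕ → ℕ → ℕ → E} {X Y Z : E}

theorem two_mem' (M : IntermediateField k E) : (2 : E) ∈ M := by
  exact_mod_cast M.natCast_mem 2

theorem qd_mem (hC : ∀ i j l, C i j l ∈ M) (hX : X ∈ M) (hY : Y ∈ M) (hZ : Z ∈ M) :
    qd C X Y Z ∈ M :=
  add_mem (add_mem (add_mem (add_mem (add_mem (mul_mem (hC _ _ _) (pow_mem hX 2))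
    (mul_mem (hC _ _ _) (pow_mem hY 2))) (mul_mem (hC _ _ _) (pow_mem hZ 2)))
    (mul_mem (mul_mem (hC _ _ _) hX) hY)) (mul_mem (mul_mem (hC _ _ _) hX) hZ))
    (mul_mem (mul_mem (hC _ _ _) hY) hZ)

theorem li_mem (hC : ∀ i j l, C i j l ∈ M) (hX : X ∈ M) (hY : Y ∈ M) (hZ : Z ∈ M) :
    li C X Y Z ∈ M :=
  add_mem (add_mem (mul_mem (hC _ _ _) hX) (mul_mem (hC _ _ _) hY)) (mul_mem (hC _ _ _) hZ)

theorem ev3_mem (hC : ∀ i j l, C i j l ∈ M) (hX : X ∈ M) (hY : Y ∈ M) (hZ : Z ∈ M) :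
    ev3 C X Y Z ∈ M :=
  add_mem (add_mem (hC _ _ _) (li_mem hC hX hY hZ)) (qd_mem hC hX hY hZ)

theorem dx_mem (hC : ∀ i j l, C i j l ∈ M) (hX : X ∈ M) (hY : Y ∈ M) (hZ : Z ∈ M) :
    dx C X Y Z ∈ M :=
  add_mem (add_mem (add_mem (hC _ _ _) (mul_mem (mul_mem (two_mem' M) (hC _ _ _)) hX))
    (mul_mem (hC _ _ _) hY)) (mul_mem (hC _ _ _) hZ)

theorem dy_mem (hC : ∀ i j l, C i j l ∈ M) (hX : X ∈ M) (hY : Y ∈ M) (hZ : Z ∈ M) :
    dy C X Y Z ∈ M :=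
  add_mem (add_mem (add_mem (hC _ _ _) (mul_mem (mul_mem (two_mem' M) (hC _ _ _)) hY))
    (mul_mem (hC _ _ _) hX)) (mul_mem (hC _ _ _) hZ)

theorem dz_mem (hC : ∀ i j l, C i j l ∈ M) (hX : X ∈ M) (hY : Y ∈ M) (hZ : Z ∈ M) :
    dz C X Y Z ∈ M :=
  add_mem (add_mem (add_mem (hC _ _ _) (mul_mem (mul_mem (two_mem' M) (hC _ _ _)) hZ))
    (mul_mem (hC _ _ _) hX)) (mul_mem (hC _ _ _) hY)

variable {t X₀ Y₀ Z₀ : E}

theorem In.qd (hC : ∀ i j l, C i j l ∈ M) (hX : In M t X X₀) (hY : In M t Y Y₀)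
    (hZ : In M t Z Z₀) : In M t (qd C X Y Z) (B.qd C X₀ Y₀ Z₀) :=
  ((((((In.const (hC _ _ _)).mul (hX.pow 2)).add ((In.const (hC _ _ _)).mul (hY.pow 2))).add
    ((In.const (hC _ _ _)).mul (hZ.pow 2))).add (((In.const (hC _ _ _)).mul hX).mul hY)).add
    (((In.const (hC _ _ _)).mul hX).mul hZ)).add (((In.const (hC _ _ _)).mul hY).mul hZ)

theorem In.dz (hC : ∀ i j l, C i j l ∈ M) (hX : In M t X X₀) (hY : In M t Y Y₀)
    (hZ : In M t Z Z₀) : In M t (dz C X Y Z) (B.dz C X₀ Y₀ Z₀) :=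
  (((In.const (hC _ _ _)).add ((In.const (mul_mem (two_mem' M) (hC _ _ _))).mul hZ)).add
    ((In.const (hC _ _ _)).mul hX)).add ((In.const (hC _ _ _)).mul hY)

theorem lin_ne {Om : IntermediateField k E} {W A B : E} (hW : Transcendental Om W) (hA : A ∈ Om)
    (hB : B ∈ Om) (h : A ≠ 0 ∨ B ≠ 0) : A + B * W ≠ 0 := by
  intro h0
  apply hW
  refine ⟨C ⟨A, hA⟩ + C ⟨B, hB⟩ * Polynomial.X, ?_, ?_⟩
  · intro h1
    have h2 := congrArg (fun p : Om[X] => p.coeff 0) h1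
    have h3 := congrArg (fun p : Om[X] => p.coeff 1) h1
    simp at h2 h3
    rcases h with h | h
    · exact h (congrArg Subtype.val h2)
    · exact h (congrArg Subtype.val h3)
  · rw [map_add, map_mul, aeval_C, aeval_C, aeval_X]
    exact h0

theorem quad_ne {Om : IntermediateField k E} {W A B D : E} (hW : Transcendental Om W) (hA : A ∈ Om)
    (hB : B ∈ Om) (hD : D ∈ Om) (h : A ≠ 0) : A + B * W + D * W ^ 2 ≠ 0 := by
  intro h0
  apply hW
  refine ⟨C ⟨A, hA⟩ + C ⟨B, hB⟩ * Polynomial.X + C ⟨D, hD⟩ * Polynomial.X ^ 2, ?_, ?_⟩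
  · intro h1
    have h2 := congrArg (fun p : Om[X] => p.coeff 0) h1
    simp at h2
    exact h (congrArg Subtype.val h2)
  · rw [map_add, map_add, map_mul, map_mul, map_pow, aeval_C, aeval_C, aeval_C, aeval_X]
    exact h0

theorem trans_of_res {Om F : IntermediateField k E} (hOm : Om ≤ F) {t u ub : E}
    (ht : Transcendental F t) (hu : In F t u ub) (hub : Transcendental Om ub) :
    Transcendental Om u := by
  rintro ⟨P, hP, h0⟩
  have h1 := In.polyAeval hOm hu P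
  rw [h0] at h1
  exact hub ⟨P, hP, (In.unique ht h1 (In.const F.zero_mem))⟩

end Mem

end Pool.Agent.R867.B
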