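import Pool.Agent.R867.H.Rand5

/-! Properties of almost all everywhere locally soluble hypersurfaces. -/

set_option autoImplicit false

namespace Pool.Agent.R867.B

open MvPolynomial Pool.Agent.R867.Mov Pool.Agent.R867.D Pool.Agent.Y716.M Pool.Agent.R867.H

section Uni

variable {N : ℕ} (Pr : ∀ (L : Type) [Field L], MvPolynomial (Fin N) L → Prop)
variable {E : Finset (Fin N →₀ ℕ)}

theorem detP {g : MvPolynomial (Fin N) (MvPolynomial E ℤ)} {Φ : MvPolynomial E ℤ}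
    (hg : ∀ {L : Type} [Field L] [CharZero L] (f : MvPolynomial (Fin N) L) (x : Fin N → L),
        f.support ⊆ E → aeval x f = 0 →
        g.eval₂ (eval₂Hom (Int.castRingHom L) (fun m : E => coeff (m : Fin N →₀ ℕ) f)) x ≠ 0 →
        Pr L f)
    (hΦ : ∀ {L : Type} [Field L] [CharZero L] (f : MvPolynomial (Fin N) L), f.support ⊆ E →
      Φ.eval₂ (Int.castRingHom L) (fun m : E => coeff (m : Fin N →₀ ℕ) f) ≠ 0 → Irreducible f)
    {c : E → ℤ} (hc : eval c Φ ≠ 0) {x : Fin N → ℚ} (hx : aeval x (gc (uR ℤ E) c) = 0)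
    (hgx : aeval x (gc g c) ≠ 0) (L : Type) [Field L] [CharZero L] :
    Irreducible (MvPolynomial.map (Int.castRingHom L) (gc (uR ℤ E) c)) ∧
      Pr L (MvPolynomial.map (Int.castRingHom L) (gc (uR ℤ E) c)) := by
  obtain ⟨F, hF⟩ : ∃ F, F = MvPolynomial.map (Int.castRingHom L) (gc (uR ℤ E) c) := ⟨_, rfl⟩
  rw [← hF]
  have hco : (fun m : E => coeff (m : Fin N →₀ ℕ) F) = fun m => ((c m : ℤ) : L) := by
    funext m
    rw [hF, coeff_map, coeff_gc_uR]
    rfl
  have hsupp : F.support ⊆ E := by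
    rw [hF]
    exact (support_map_subset _ _).trans (supp_gc_uR c)
  have hev : ∀ Q : MvPolynomial E ℤ, Q.eval₂ (Int.castRingHom L) (fun m => ((c m : ℤ) : L)) =
      ((eval c Q : ℤ) : L) := by
    intro Q
    have h := MvPolynomial.eval₂_comp_left (Int.castRingHom L) (RingHom.id ℤ) c Q
    rw [RingHom.comp_id] at h
    exact h.symm
  have hirr : Irreducible F := by
    apply hΦ F hsupp
    rw [hco, hev]
    exact_mod_cast hc
  have hP1 := hg F (fun i => (x i : L)) hsupp (by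
    rw [hF, aeval_def, eval₂_map]
    have h1 := eval₂_rat (L := L) (gc (uR ℤ E) c) x
    rw [hx, Rat.cast_zero] at h1
    rw [← h1]
    congr 1) (by
    have h1 : eval₂Hom (Int.castRingHom L) (fun m : E => coeff (m : Fin N →₀ ℕ) F) =
        (Int.castRingHom L).comp (eval c) := by
      rw [hco]
      apply RingHom.ext
      intro Q
      rw [coe_eval₂Hom, hev]
      rfl
    rw [h1, ← eval₂_map]
    have h2 := eval₂_rat (L := L) (gc g c) x
    unfold gc at h2
    rw [h2]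
    have h3 : aeval x (MvPolynomial.map (eval c) g) ≠ 0 := hgx
    exact_mod_cast h3)
  exact ⟨hirr, hP1⟩

end Uni

section Af

variable {r : ℕ} {n d : Fin r → ℕ} {N : ℕ} (ε : (Σ i : Fin r, Fin (n i)) ≃ Fin N)
  (Pr : ∀ (L : Type) [Field L], MvPolynomial (Fin N) L → Prop)

theorem uni_afP {g : MvPolynomial (Fin N) (MvPolynomial (expo (bet ε) d) ℤ)}
    {Φ : MvPolynomial (expo (bet ε) d) ℤ}
    (hg : ∀ {L : Type} [Field L] [CharZero L] (f : MvPolynomial (Fin N) L) (x : Fin N → L),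
        f.support ⊆ expo (bet ε) d → aeval x f = 0 →
        g.eval₂ (eval₂Hom (Int.castRingHom L)
          (fun m : expo (bet ε) d => coeff (m : Fin N →₀ ℕ) f)) x ≠ 0 →
        Pr L f)
    (hΦ : ∀ {L : Type} [Field L] [CharZero L] (f : MvPolynomial (Fin N) L),
      f.support ⊆ expo (bet ε) d →
      Φ.eval₂ (Int.castRingHom L) (fun m : expo (bet ε) d => coeff (m : Fin N →₀ ℕ) f) ≠ 0 →
      Irreducible f)
    {f : MvPolynomial (Var n) ℤ} (hf : ∀ s ∈ f.support, ∀ i : Fin r,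
      ∑ j : Fin (n i + 1), s ⟨i, j⟩ = d i) (hels : ElsB f) {M : ℕ} (hwa : WeakApproxM M f)
    (hc : eval (cv ε d f) Φ ≠ 0) {p : ℕ} (hp : p.Prime) (hpM : p ≤ M) {a : Fin N → ℤ} {l : Fin N}
    (h1 : (p : ℤ) ∣ ∑ m : expo (bet ε) d, mval a m * cv ε d f m)
    (h2 : ¬ (p : ℤ) ∣ eval (cv ε d f) (W1 a g * W2 (expo (bet ε) d) a l))
    (L : Type) [Field L] [CharZero L] :
    Irreducible (af ε d f L) ∧ Pr L (af ε d f L) := by
  haveI : Fact p.Prime := ⟨hp⟩
  have h3 : ¬ (p : ℤ) ∣ eval (cv ε d f) (W1 a g) := fun h => h2 (by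
    rw [map_mul]
    exact h.mul_right _)
  have h4 : ¬ (p : ℤ) ∣ eval (cv ε d f) (W2 (expo (bet ε) d) a l) := fun h => h2 (by
    rw [map_mul]
    exact h.mul_left _)
  obtain ⟨x, hx1, hx2⟩ := rat_point ε hf hels hwa hpM (a := a) (l := l)
    (g := gc g (cv ε d f)) (by
      rw [af_eq_int, eval_gc_uR]
      exact h1) (by
      rw [af_eq_int, eval_gc_pd]
      exact h4) (not_dvd_gc h1 h3)
  rw [af_eq]
  refine detP Pr hg hΦ hc (x := x) ?_ hx2 L
  rw [af_eq, aeval_def, eval₂_map] at hx1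
  rw [aeval_def]
  have h5 : (algebraMap ℚ ℚ).comp (Int.castRingHom ℚ) = algebraMap ℤ ℚ := RingHom.ext_int _ _
  rw [h5] at hx1
  exact hx1

open Classical in
theorem rand_mainP (hr : 2 ≤ r) (hn : ∀ i, 1 ≤ n i) (hd : ∀ i, 2 ≤ d i)
    (hrc : ∃ i, d i ≤ n i) (hgP : ∃ g : MvPolynomial (Fin N) (MvPolynomial (expo (bet ε) d) ℤ),
      th ℤ (expo (bet ε) d) g ≠ 0 ∧
      ∀ {L : Type} [Field L] [CharZero L] (f : MvPolynomial (Fin N) L) (x : Fin N → L),
        f.support ⊆ expo (bet ε) d → aeval x f = 0 →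
        g.eval₂ (eval₂Hom (Int.castRingHom L)
          (fun m : expo (bet ε) d => coeff (m : Fin N →₀ ℕ) f)) x ≠ 0 → Pr L f)
    {δ : ℝ} (hδ : 0 < δ) :
    ∃ H₀ : ℕ, ∀ H : ℕ, H₀ ≤ H →
      (((formsM n d (H : ℝ)).filter (fun f => ElsB f ∧
        ¬ ∀ (L : Type) [Field L] [CharZero L], Irreducible (af ε d f L) ∧ Pr L (af ε d f L))).card : ℝ) ≤
        δ * (formsM n d (H : ℝ)).card := by
  obtain ⟨b, hb⟩ := hrc
  have hcl : ClassStmtM n d := class_theoremM n d b hr hd hn ((hd b).trans hb) hb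
  have hexc := Pool.Agent.Y448.M11.exc_target n d (by omega) hd hcl
  -- numbers
  have hN : 2 ≤ N := by
    have h1 : Fintype.card (Σ i : Fin r, Fin (n i)) = N := by
      rw [Fintype.card_congr ε, Fintype.card_fin]
    rw [Fintype.card_sigma] at h1
    simp only [Fintype.card_fin] at h1
    have h2 : ∑ i : Fin r, 1 ≤ ∑ i, n i := Finset.sum_le_sum fun i _ => hn i
    simp at h2
    omega
  have hβ : Function.Surjective (bet ε) := fun i => ⟨ε ⟨i, ⟨0, hn i⟩⟩, bet_apply ε _⟩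
  obtain ⟨g, hg0, hg⟩ := hgP
  obtain ⟨Φq, hΦq0, hΦq⟩ := gen_irr.{0} (N := N) (β := bet ε) (d := d) hN hβ
    (fun i => by have := hd i; omega)
  obtain ⟨s, Φ, hs, hsΦ⟩ := clear_int Φq
  have hs' : (s : ℚ) ≠ 0 := by exact_mod_cast hs
  have hΦ0 : Φ ≠ 0 := by
    rintro rfl
    rw [map_zero] at hsΦ
    rcases mul_eq_zero.mp hsΦ with h | h
    · exact hs' (C_injective _ _ (h.trans C_0.symm))
    · exact hΦq0 h
  have hΦ : ∀ {L : Type} [Field L] [CharZero L] (f : MvPolynomial (Fin N) L),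
      f.support ⊆ expo (bet ε) d →
      Φ.eval₂ (Int.castRingHom L) (fun m : expo (bet ε) d => coeff (m : Fin N →₀ ℕ) f) ≠ 0 →
      Irreducible f := by
    intro L _ _ f hf hne
    apply hΦq f hf
    intro h0
    apply hne
    have h1 : sp (expo (bet ε) d) f (C (s : ℚ) * Φq) = 0 := by
      rw [map_mul, h0, mul_zero]
    rw [hsΦ] at h1
    unfold sp at h1
    change aeval (fun m : expo (bet ε) d => coeff (m : Fin N →₀ ℕ) f)
      (MvPolynomial.map (Int.castRingHom ℚ) Φ) = 0 at h1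
    rw [aeval_def, eval₂_map] at h1
    have h2 : (algebraMap ℚ L).comp (Int.castRingHom ℚ) = Int.castRingHom L := RingHom.ext_int _ _
    rwa [h2] at h1
  obtain ⟨a, ha⟩ := exists_int_pt hg0
  obtain ⟨l, hl⟩ : ∃ l : Fin N, l = ⟨0, by omega⟩ := ⟨_, rfl⟩
  have hle1 : Finsupp.single l 1 ∈ expo (bet ε) d := single_mem (by have := hd (bet ε l); omega)
  obtain ⟨W, hW⟩ : ∃ W, W = W1 a g * W2 (expo (bet ε) d) a l := ⟨_, rfl⟩
  have hW0 : W ≠ 0 := by
    rw [hW]
    exact mul_ne_zero ha (W2_ne a hle1)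
  have h0 : (0 : Fin N →₀ ℕ) ∈ expo (bet ε) d := expo_zero_mem
  obtain ⟨M₀, H₁, h1⟩ := sieve (A := fun m : expo (bet ε) d => mval a m) (m₀ := ⟨0, h0⟩)
    (mval_zero a) hW0 (fun p c c' h => by
      rw [hW, eval₂_mul, eval₂_mul, W1_indep h0 a g c c' h, W2_indep h0 a l c c' h])
    (ε := δ / 4) (by positivity)
  obtain ⟨H₂, h2⟩ := box_zeros hΦ0 (ε := δ / 4) (by positivity)
  obtain ⟨M, hM⟩ : ∃ M, M = max M₀ 1 := ⟨_, rfl⟩
  obtain ⟨H₃, h3⟩ := Pool.Agent.Y455.WAM.wa_excM n d hexc (m := M)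
    (by rw [hM]; exact le_max_right _ _) (ε := δ / 4) (by positivity)
  refine ⟨max H₁ (max H₂ ⌈H₃⌉₊), fun H hH => ?_⟩
  have hH1 : H₁ ≤ H := (le_max_left _ _).trans hH
  have hH2 : H₂ ≤ H := ((le_max_left _ _).trans (le_max_right _ _)).trans hH
  have hH3 : H₃ ≤ (H : ℝ) := (Nat.le_ceil H₃).trans
    (by exact_mod_cast ((le_max_right _ _).trans (le_max_right _ _)).trans hH)
  have k1 := h1 H hH1
  have k2 := h2 H hH2
  have k3 := h3 H hH3
  rw [← card_forms_eq ε] at k1 k2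
  have hsub : (formsM n d (H : ℝ)).filter (fun f => ElsB f ∧
        ¬ ∀ (L : Type) [Field L] [CharZero L], Irreducible (af ε d f L) ∧ Pr L (af ε d f L)) ⊆
      ((formsM n d (H : ℝ)).filter (fun f => ¬ WeakApproxM M f)) ∪
      (((formsM n d (H : ℝ)).filter (fun f => eval (cv ε d f) Φ = 0)) ∪
      ((formsM n d (H : ℝ)).filter (fun f => ∀ p : ℕ, p.Prime → p ≤ M₀ →
        NG (fun m : expo (bet ε) d => mval a m) W p (cv ε d f)))) := by
    intro f hf
    rw [Finset.mem_filter] at hf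
    obtain ⟨hf1, hels, hno⟩ := hf
    rw [Finset.mem_union, Finset.mem_union, Finset.mem_filter, Finset.mem_filter,
      Finset.mem_filter]
    by_contra hcon
    push Not at hcon
    obtain ⟨c1, c2, c3⟩ := hcon
    have c1' := c1 hf1
    have c2' := c2 hf1
    obtain ⟨p, hp, hpM, hNG⟩ := c3 hf1
    unfold NG at hNG
    rw [not_not, hW] at hNG
    apply hno
    intro L _ _
    exact uni_afP ε Pr hg hΦ (mem_formsM.mp hf1).1 hels c1' c2' hp
      (hpM.trans (by rw [hM]; exact le_max_left _ _)) hNG.1 hNG.2 L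
  have e1 := box_le ε (d := d) (fun c => eval c Φ = 0) H
  have e2 := box_le ε (d := d) (fun c => ∀ p : ℕ, p.Prime → p ≤ M₀ →
        NG (fun m : expo (bet ε) d => mval a m) W p c) H
  have e1' : (((formsM n d (H : ℝ)).filter (fun f => eval (cv ε d f) Φ = 0)).card : ℝ) ≤
      δ / 4 * (formsM n d (H : ℝ)).card := by
    refine le_trans (b := (((Fintype.piFinset fun _ : expo (bet ε) d =>
      Finset.Icc (-(H : ℤ)) H).filter (fun c => eval c Φ = 0)).card : ℝ)) ?_ ?_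
    · exact_mod_cast e1
    · convert k2
  have e2' : (((formsM n d (H : ℝ)).filter (fun f => ∀ p : ℕ, p.Prime → p ≤ M₀ →
        NG (fun m : expo (bet ε) d => mval a m) W p (cv ε d f))).card : ℝ) ≤
      δ / 4 * (formsM n d (H : ℝ)).card := by
    refine le_trans (b := (((Fintype.piFinset fun _ : expo (bet ε) d =>
      Finset.Icc (-(H : ℤ)) H).filter (fun c => ∀ p : ℕ, p.Prime → p ≤ M₀ →
        NG (fun m : expo (bet ε) d => mval a m) W p c)).card : ℝ)) ?_ ?_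
    · exact_mod_cast e2
    · convert k1
  have hc := (Finset.card_le_card hsub).trans ((Finset.card_union_le _ _).trans
    (Nat.add_le_add_left (Finset.card_union_le _ _) _))
  have hc' := (Nat.cast_le (α := ℝ)).mpr hc
  push_cast at hc'
  have hpos : (0 : ℝ) ≤ (formsM n d (H : ℝ)).card := Nat.cast_nonneg _
  have k3' : (((formsM n d (H : ℝ)).filter (fun f => ¬ WeakApproxM M f)).card : ℝ) ≤
      δ / 4 * (formsM n d (H : ℝ)).card := by
    convert k3
  have := mul_nonneg hδ.le hpos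
  linarith

open Classical in
theorem rand_homP (PH : MvPolynomial (Var n) ℤ → Prop) (hr : 2 ≤ r) (hn : ∀ i, 1 ≤ n i)
    (hd : ∀ i, 2 ≤ d i) (hrc : ∃ i, d i ≤ n i)
    (hgP : ∃ g : MvPolynomial (Fin N) (MvPolynomial (expo (bet ε) d) ℤ),
      th ℤ (expo (bet ε) d) g ≠ 0 ∧
      ∀ {L : Type} [Field L] [CharZero L] (f : MvPolynomial (Fin N) L) (x : Fin N → L),
        f.support ⊆ expo (bet ε) d → aeval x f = 0 →
        g.eval₂ (eval₂Hom (Int.castRingHom L)
          (fun m : expo (bet ε) d => coeff (m : Fin N →₀ ℕ) f)) x ≠ 0 → Pr L f)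
    (hPH : ∀ f : MvPolynomial (Var n) ℤ, (∀ s ∈ f.support, ∀ i : Fin r,
      ∑ j : Fin (n i + 1), s ⟨i, j⟩ = d i) →
      (∀ (L : Type) [Field L] [CharZero L], (∀ i : Fin r, ¬ (X ⟨i, 0⟩ : MvPolynomial (Var n) L) ∣
        MvPolynomial.map (Int.castRingHom L) f) ∧ Irreducible (af ε d f L) ∧ Pr L (af ε d f L)) →
      PH f)
    {δ : ℝ} (hδ : 0 < δ) :
    ∃ H₀ : ℕ, ∀ H : ℕ, H₀ ≤ H →
      (((formsM n d (H : ℝ)).filter (fun f => ElsB f ∧ ¬ PH f)).card : ℝ) ≤
        δ * (formsM n d (H : ℝ)).card := by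
  obtain ⟨H₁, h1⟩ := rand_mainP ε Pr hr hn hd hrc hgP (half_pos hδ)
  obtain ⟨Φ, hΦ⟩ : ∃ Φ : MvPolynomial (expo (bet ε) d) ℤ,
    Φ = ∏ i : Fin r, X ⟨_, single_mem' ε i ⟨0, hn i⟩⟩ := ⟨_, rfl⟩
  have hΦ0 : Φ ≠ 0 := by
    rw [hΦ]
    exact Finset.prod_ne_zero_iff.mpr fun i _ => X_ne_zero _
  obtain ⟨H₂, h2⟩ := box_zeros hΦ0 (ε := δ / 2) (half_pos hδ)
  refine ⟨max H₁ H₂, fun H hH => ?_⟩
  have k1 := h1 H ((le_max_left _ _).trans hH)
  have k2 := h2 H ((le_max_right _ _).trans hH)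
  rw [← card_forms_eq ε] at k2
  have hsub : (formsM n d (H : ℝ)).filter (fun f => ElsB f ∧ ¬ PH f) ⊆
      ((formsM n d (H : ℝ)).filter (fun f => ElsB f ∧
        ¬ ∀ (L : Type) [Field L] [CharZero L], Irreducible (af ε d f L) ∧ Pr L (af ε d f L))) ∪
      ((formsM n d (H : ℝ)).filter (fun f => eval (cv ε d f) Φ = 0)) := by
    intro f hf
    rw [Finset.mem_filter] at hf
    obtain ⟨hf1, hels, hno⟩ := hf
    rw [Finset.mem_union, Finset.mem_filter, Finset.mem_filter]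
    by_contra hcon
    push Not at hcon
    obtain ⟨c1, c2⟩ := hcon
    have c1' := c1 hf1 hels
    have c2' := c2 hf1
    apply hno
    refine hPH f (mem_formsM.mp hf1).1 fun L _ _ => ⟨fun i => ?_, c1' L⟩
    apply not_dvd_of_coeff ε ⟨0, hn i⟩
    intro h0
    apply c2'
    rw [hΦ, map_prod]
    apply Finset.prod_eq_zero (Finset.mem_univ i)
    rw [eval_X]
    exact h0
  have e1 := box_le ε (d := d) (fun c => eval c Φ = 0) H
  have e1' : (((formsM n d (H : ℝ)).filter (fun f => eval (cv ε d f) Φ = 0)).card : ℝ) ≤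
      δ / 2 * (formsM n d (H : ℝ)).card := by
    refine le_trans (b := (((Fintype.piFinset fun _ : expo (bet ε) d =>
      Finset.Icc (-(H : ℤ)) H).filter (fun c => eval c Φ = 0)).card : ℝ)) ?_ ?_
    · exact_mod_cast e1
    · convert k2
  have hc := (Finset.card_le_card hsub).trans (Finset.card_union_le _ _)
  have hc' := (Nat.cast_le (α := ℝ)).mpr hc
  push_cast at hc'
  linarith


end Af

end Pool.Agent.R867.B
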