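import Pool.Agent.R867.H.Cone2
import Pool.Agent.R867.B.Core4

/-! The function field of a multihomogeneous hypersurface. -/

set_option autoImplicit false

namespace Pool.Agent.R867.B

open MvPolynomial Pool.Agent.R867.H Pool.Agent.Y716.M Pool.Agent.TH178.HI

section Ratio

variable {r : ℕ} {n d : Fin r → ℕ} {N : ℕ} (ε : (Σ i : Fin r, Fin (n i)) ≃ Fin N)
  {L : Type} [Field L]

/-- the field of the ratios of coordinates in the same block -/
def ratios (L : Type) [Field L] {Q : Type} [Field Q] [Algebra L Q] (y : Var n → Q) :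
    IntermediateField L Q :=
  IntermediateField.adjoin L {x | ∃ (i : Fin r) (j j' : Fin (n i + 1)), x = y ⟨i, j⟩ / y ⟨i, j'⟩}

theorem gp_ratio {f : MvPolynomial (Var n) ℤ} (hf : ∀ s ∈ f.support, ∀ i : Fin r,
    ∑ j : Fin (n i + 1), s ⟨i, j⟩ = d i)
    (hnd : ∀ i : Fin r, ¬ (X ⟨i, 0⟩ : MvPolynomial (Var n) L) ∣
      MvPolynomial.map (Int.castRingHom L) f)
    (hirr : Irreducible (af ε d f L)) {Q : Type} [Field Q] [Algebra L Q] {y : Var n → Q}
    (hy : ∀ G : MvPolynomial (Var n) L, aeval y G = 0 ↔ MvPolynomial.map (Int.castRingHom L) f ∣ G) :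
    ∃ ξ : Fin N → ratios L y, GP (af ε d f L) ξ := by
  classical
  have hprime := prime_form ε hf hnd hirr
  have hy0 : ∀ i : Fin r, y ⟨i, 0⟩ ≠ 0 := by
    intro i h0
    have h1 : MvPolynomial.map (Int.castRingHom L) f ∣ X ⟨i, 0⟩ := by
      rw [← hy, aeval_X]
      exact h0
    have h4 : Irreducible (X ⟨i, 0⟩ : MvPolynomial (Var n) L) := X_prime.irreducible
    exact hnd i ((hprime.irreducible.associated_of_dvd h4 h1).symm.dvd)
  obtain ⟨u, hu⟩ : ∃ u : Fin N → Q, u = fun l => y ⟨(ε.symm l).1, (ε.symm l).2.succ⟩ /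
    y ⟨(ε.symm l).1, 0⟩ := ⟨_, rfl⟩
  have huε : ∀ (i : Fin r) (j : Fin (n i)), u (ε ⟨i, j⟩) = y ⟨i, j.succ⟩ / y ⟨i, 0⟩ := by
    intro i j
    rw [hu]
    beta_reduce
    rw [ε.symm_apply_apply]
  have humem : ∀ l, u l ∈ ratios L y := by
    intro l
    rw [hu]
    exact IntermediateField.subset_adjoin _ _ ⟨_, _, _, rfl⟩
  obtain ⟨ξ, hξ⟩ : ∃ ξ : Fin N → ratios L y, ∀ l, (ξ l : Q) = u l :=
    ⟨fun l => ⟨u l, humem l⟩, fun _ => rfl⟩
  have hyhat : ∀ a : Var n, y a = y ⟨a.1, 0⟩ * hat ε u a := by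
    rintro ⟨i, j⟩
    refine Fin.cases ?_ (fun j => ?_) j
    · rw [hat_zero, mul_one]
    · rw [hat_succ, huε, mul_div_cancel₀ _ (hy0 i)]
  have hev : ∀ P : MvPolynomial (Fin N) L, ((aeval ξ P : ratios L y) : Q) = aeval u P := by
    intro P
    have h1 : (aeval u : MvPolynomial (Fin N) L →ₐ[L] Q) = (ratios L y).val.comp (aeval ξ) := by
      apply MvPolynomial.algHom_ext
      intro l
      rw [AlgHom.comp_apply, aeval_X, aeval_X]
      exact (hξ l).symm
    rw [h1]
    rfl
  refine ⟨ξ, ⟨fun P => ?_, ?_⟩⟩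
  · obtain ⟨M, K', hK'⟩ := thh_surj (n := n) ε (C P : MvPolynomial (Fin r) (MvPolynomial (Fin N) L))
    -- evaluation
    obtain ⟨ρ, hρ⟩ : ∃ ρ : MvPolynomial (Fin r) (MvPolynomial (Fin N) L) →+* Q,
      ρ = eval₂Hom (aeval u : MvPolynomial (Fin N) L →ₐ[L] Q).toRingHom (fun i => y ⟨i, 0⟩) :=
      ⟨_, rfl⟩
    have h1 : ρ.comp (thh ε L (n := n)).toRingHom =
        (aeval y : MvPolynomial (Var n) L →ₐ[L] Q).toRingHom := by
      apply MvPolynomial.ringHom_ext
      · intro a
        rw [RingHom.comp_apply]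
        change ρ (thh ε L (C a)) = aeval y (C a)
        have h2 : thh ε L (C a : MvPolynomial (Var n) L) = C (C a) := by
          unfold thh
          rw [aeval_C]
          rfl
        rw [h2, hρ, coe_eval₂Hom, eval₂_C, aeval_C]
        change aeval u (C a) = _
        rw [aeval_C]
      · intro a
        rw [RingHom.comp_apply]
        change ρ (thh ε L (X a)) = aeval y (X a)
        rw [thh_X, map_mul, hρ, coe_eval₂Hom, eval₂_X, eval₂_C, aeval_X, hyhat a]
        congr 1
        obtain ⟨i, j⟩ := a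
        refine Fin.cases ?_ (fun j => ?_) j
        · rw [hat_zero, hat_zero]
          exact map_one _
        · rw [hat_succ, hat_succ]
          exact aeval_X u _
    have h2 : aeval y K' = (∏ i : Fin r, y ⟨i, 0⟩) ^ M * aeval u P := by
      have h3 : ρ (thh ε L K') = aeval y K' :=
        congrArg (fun g : MvPolynomial (Var n) L →+* Q => g K') h1
      rw [← h3, hK', map_mul, map_pow, map_prod]
      congr 1
      · congr 1
        refine Finset.prod_congr rfl fun i _ => ?_
        rw [hρ, coe_eval₂Hom, eval₂_X]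
      · rw [hρ, coe_eval₂Hom, eval₂_C]
        rfl
    have h3 : aeval ξ P = 0 ↔ aeval y K' = 0 := by
      rw [h2, ← hev]
      constructor
      · intro h4
        rw [h4]
        simp
      · intro h4
        rcases mul_eq_zero.mp h4 with h5 | h5
        · exact absurd h5 (pow_ne_zero _ (Finset.prod_ne_zero_iff.mpr fun i _ => hy0 i))
        · exact Subtype.ext h5
    have hC : ∀ G : MvPolynomial (Var n) L, MvPolynomial.map (Int.castRingHom L) f ∣ G ↔
        C (af ε d f L) ∣ thh ε L G := by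
      intro G
      constructor
      · rintro ⟨H, rfl⟩
        rw [map_mul, thh_form ε hf]
        exact ⟨(∏ i, X i ^ d i) * thh ε L H, by ring⟩
      · exact dvd_of_thh ε hf hnd
    rw [h3, hy, hC, hK']
    constructor
    · intro h4
      rw [C_dvd_iff_dvd_coeff] at h4
      have h5 := h4 (Finsupp.equivFunOnFinite.symm fun _ => M)
      have h6 : (∏ i : Fin r, (X i : MvPolynomial (Fin r) (MvPolynomial (Fin N) L))) ^ M =
          monomial (Finsupp.equivFunOnFinite.symm fun _ => M) 1 := by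
        rw [monomial_eq, C_1, one_mul, Finsupp.prod_fintype _ _ (fun _ => pow_zero _),
          ← Finset.prod_pow]
        rfl
      rw [h6, mul_comm, coeff_C_mul, coeff_monomial, if_pos rfl, mul_one] at h5
      exact h5
    · rintro ⟨H, rfl⟩
      rw [map_mul]
      exact ⟨(∏ i, X i) ^ M * C H, by ring⟩
  · obtain ⟨D, hD⟩ : ∃ D, D = IntermediateField.adjoin L (Set.range ξ) := ⟨_, rfl⟩
    rw [← hD]
    have h1 : ∀ l, u l ∈ D.map (ratios L y).val := by
      intro l
      refine ⟨ξ l, ?_, hξ l⟩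
      rw [hD]
      exact IntermediateField.subset_adjoin _ _ ⟨l, rfl⟩
    have h2 : ∀ a : Var n, hat ε u a ∈ D.map (ratios L y).val := by
      rintro ⟨i, j⟩
      refine Fin.cases ?_ (fun j => ?_) j
      · rw [hat_zero]
        exact one_mem _
      · rw [hat_succ]
        exact h1 _
    have h3 : ratios L y ≤ D.map (ratios L y).val := by
      conv_lhs => unfold ratios
      rw [IntermediateField.adjoin_le_iff]
      rintro _ ⟨i, j, j', rfl⟩
      have h4 : y ⟨i, j⟩ / y ⟨i, j'⟩ = hat ε u ⟨i, j⟩ / hat ε u ⟨i, j'⟩ := by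
        rw [hyhat ⟨i, j⟩, hyhat ⟨i, j'⟩]
        exact mul_div_mul_left _ _ (hy0 i)
      rw [h4]
      exact div_mem (h2 _) (h2 _)
    rw [eq_top_iff]
    intro z _
    obtain ⟨z', hz', hzz⟩ := h3 z.2
    have h4 : z' = z := Subtype.ext hzz
    rw [← h4]
    exact hz'

end Ratio

end Pool.Agent.R867.B
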