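import Pool.Agent.R867.B.Tr

/-! From conditions at the origin to uniform conditions. -/

set_option autoImplicit false

namespace Pool.Agent.R867.B

open MvPolynomial Pool.Agent.R867.H

variable {N : ℕ} (E : Finset (Fin N →₀ ℕ))

/-- the universal translate -/
noncomputable def TR : MvPolynomial (Fin N) (MvPolynomial (Fin N) (MvPolynomial E ℤ)) :=
  (uR ℤ E).eval₂ ((C : MvPolynomial (Fin N) (MvPolynomial E ℤ) →+*
    MvPolynomial (Fin N) (MvPolynomial (Fin N) (MvPolynomial E ℤ))).comp C) (fun l => X l + C (X l))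

variable {E}

theorem map_TR {S : Type} [CommRing S] (ρ : MvPolynomial (Fin N) (MvPolynomial E ℤ) →+* S) :
    MvPolynomial.map ρ (TR E) = tr (fun l => ρ (X l)) (MvPolynomial.map (ρ.comp C) (uR ℤ E)) := by
  unfold TR tr
  rw [MvPolynomial.eval₂_comp_left, aeval_def, eval₂_map]
  have h1 : (MvPolynomial.map ρ).comp ((C : MvPolynomial (Fin N) (MvPolynomial E ℤ) →+*
      MvPolynomial (Fin N) (MvPolynomial (Fin N) (MvPolynomial E ℤ))).comp C) =
      (algebraMap S (MvPolynomial (Fin N) S)).comp (ρ.comp C) := by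
    apply RingHom.ext
    intro a
    rw [RingHom.comp_apply, RingHom.comp_apply, map_C, RingHom.comp_apply, RingHom.comp_apply]
    rfl
  have h2 : (⇑(MvPolynomial.map ρ) ∘ fun l => (X l + C (X l) :
      MvPolynomial (Fin N) (MvPolynomial (Fin N) (MvPolynomial E ℤ)))) =
      fun l => X l + C (ρ (X l)) := by
    funext l
    rw [Function.comp_apply, map_add, map_X, map_C]
  rw [h1, h2]

theorem map_uR {S : Type} [CommRing S] (φ : MvPolynomial E ℤ →+* S) {f : MvPolynomial (Fin N) S}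
    (hf : f.support ⊆ E) (hφ : ∀ m : E, φ (X m) = coeff (m : Fin N →₀ ℕ) f) :
    MvPolynomial.map φ (uR ℤ E) = f := by
  classical
  unfold uR
  rw [map_sum]
  have h1 : ∀ m : E, MvPolynomial.map φ (monomial (m : Fin N →₀ ℕ) (X m)) =
      monomial (m : Fin N →₀ ℕ) (coeff (m : Fin N →₀ ℕ) f) := by
    intro m
    rw [map_monomial, hφ]
  rw [Finset.sum_congr rfl (fun m _ => h1 m),
    Finset.sum_coe_sort E (fun m => monomial m (coeff m f)), ← Finset.sum_subset hf]
  · exact f.support_sum_monomial_coeff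
  · intro m _ hm
    rw [notMem_support_iff.mp hm, monomial_zero]

/-- the uniform polynomial -/
theorem unif_g {Φ : MvPolynomial (E.erase 0 : Finset (Fin N →₀ ℕ)) ℚ} (hΦ : Φ ≠ 0) :
    ∃ g : MvPolynomial (Fin N) (MvPolynomial E ℤ), th ℤ E g ≠ 0 ∧
      ∀ {L : Type} [Field L] [CharZero L] (f : MvPolynomial (Fin N) L) (x : Fin N → L),
        f.support ⊆ E →
        g.eval₂ (eval₂Hom (Int.castRingHom L) (fun m : E => coeff (m : Fin N →₀ ℕ) f)) x ≠ 0 →
        aeval (fun m : (E.erase 0 : Finset (Fin N →₀ ℕ)) =>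
          coeff (m : Fin N →₀ ℕ) (tr x f)) Φ ≠ 0 := by
  classical
  obtain ⟨s, Φ', hs, hsΦ⟩ := clear_int Φ
  have hs' : (s : ℚ) ≠ 0 := by exact_mod_cast hs
  have hΦ' : Φ' ≠ 0 := by
    rintro rfl
    rw [map_zero] at hsΦ
    rcases mul_eq_zero.mp hsΦ with h | h
    · exact hs' (C_injective _ _ (h.trans C_0.symm))
    · exact hΦ h
  obtain ⟨g, hg⟩ : ∃ g : MvPolynomial (Fin N) (MvPolynomial E ℤ),
    g = Φ'.eval₂ (Int.castRingHom _) (fun m : (E.erase 0 : Finset (Fin N →₀ ℕ)) =>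
      coeff (m : Fin N →₀ ℕ) (TR E)) := ⟨_, rfl⟩
  have key : ∀ {S : Type} [CommRing S] (ρ : MvPolynomial (Fin N) (MvPolynomial E ℤ) →+* S),
      ρ g = Φ'.eval₂ (Int.castRingHom S) (fun m : (E.erase 0 : Finset (Fin N →₀ ℕ)) =>
        coeff (m : Fin N →₀ ℕ) (tr (fun l => ρ (X l)) (MvPolynomial.map (ρ.comp C) (uR ℤ E)))) := by
    intro S _ ρ
    rw [hg, MvPolynomial.eval₂_comp_left, ← map_TR]
    have h1 : ρ.comp (Int.castRingHom _) = Int.castRingHom S := RingHom.ext_int _ _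
    rw [h1]
    congr 1
  refine ⟨g, ?_, fun {L} _ _ f x hf hne h0 => hne ?_⟩
  · intro h0
    obtain ⟨ρ, hρ⟩ : ∃ ρ : MvPolynomial (Fin N) (MvPolynomial E ℤ) →+* MvPolynomial E ℤ,
      ρ = (eval (0 : Fin N → MvPolynomial E ℤ)).comp (th ℤ E) := ⟨_, rfl⟩
    have h1 : ρ g = 0 := by
      rw [hρ, RingHom.comp_apply, h0, map_zero]
    rw [key ρ] at h1
    have h2 : (fun l => ρ (X l)) = (0 : Fin N → MvPolynomial E ℤ) := by
      funext l
      rw [hρ, RingHom.comp_apply, th_X, eval_X]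
    have h3 : ∀ P : MvPolynomial (Fin N) (MvPolynomial E ℤ), tr 0 P = P := by
      intro P
      unfold tr
      have h4 : (fun l => X l + C ((0 : Fin N → MvPolynomial E ℤ) l)) =
          (X : Fin N → MvPolynomial (Fin N) (MvPolynomial E ℤ)) := by
        funext l
        rw [Pi.zero_apply, map_zero, add_zero]
      rw [h4, aeval_X_left_apply]
    rw [h2] at h1
    simp only [h3] at h1
    have h5 : (fun m : (E.erase 0 : Finset (Fin N →₀ ℕ)) => coeff (m : Fin N →₀ ℕ)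
        (MvPolynomial.map (ρ.comp C) (uR ℤ E))) =
        fun m => X ⟨(m : Fin N →₀ ℕ), Finset.mem_of_mem_erase m.2⟩ := by
      funext m
      have h6 := coeff_uR (R := ℤ) (E := E) ⟨(m : Fin N →₀ ℕ), Finset.mem_of_mem_erase m.2⟩
      rw [coeff_map]
      have h7 : coeff (m : Fin N →₀ ℕ) (uR ℤ E) =
        X ⟨(m : Fin N →₀ ℕ), Finset.mem_of_mem_erase m.2⟩ := h6
      rw [h7, RingHom.comp_apply, hρ, RingHom.comp_apply, th_C]
      unfold thA
      rw [aeval_X, if_neg (Finset.ne_of_mem_erase m.2), eval_C]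
    rw [h5] at h1
    apply hΦ'
    have h8 : Function.Injective (fun m : (E.erase 0 : Finset (Fin N →₀ ℕ)) =>
        (⟨(m : Fin N →₀ ℕ), Finset.mem_of_mem_erase m.2⟩ : E)) := by
      intro m m' h
      exact Subtype.ext (congrArg (fun q : E => (q : Fin N →₀ ℕ)) h)
    apply rename_injective _ h8
    rw [map_zero, ← h1]
    have h9 : (rename (fun m : (E.erase 0 : Finset (Fin N →₀ ℕ)) =>
        (⟨(m : Fin N →₀ ℕ), Finset.mem_of_mem_erase m.2⟩ : E)) :
        MvPolynomial (E.erase 0 : Finset (Fin N →₀ ℕ)) ℤ →ₐ[ℤ] MvPolynomial E ℤ).toRingHom =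
        eval₂Hom (Int.castRingHom _) (fun m : (E.erase 0 : Finset (Fin N →₀ ℕ)) =>
          X ⟨(m : Fin N →₀ ℕ), Finset.mem_of_mem_erase m.2⟩) := by
      apply MvPolynomial.ringHom_ext
      · intro a
        simp
      · intro m
        simp
    exact congrArg (fun φ : MvPolynomial (E.erase 0 : Finset (Fin N →₀ ℕ)) ℤ →+*
      MvPolynomial E ℤ => φ Φ') h9
  · obtain ⟨φ, hφ⟩ : ∃ φ : MvPolynomial E ℤ →+* L, φ = eval₂Hom (Int.castRingHom L)
      (fun m : E => coeff (m : Fin N →₀ ℕ) f) := ⟨_, rfl⟩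
    have hφX : ∀ m : E, φ (X m) = coeff (m : Fin N →₀ ℕ) f := by
      intro m
      rw [hφ, coe_eval₂Hom, eval₂_X]
    rw [← hφ]
    have h1 : g.eval₂ φ x = eval₂Hom φ x g := rfl
    have h2 : ((eval₂Hom φ x).comp C : MvPolynomial E ℤ →+* L) = φ := by
      apply RingHom.ext
      intro a
      rw [RingHom.comp_apply, coe_eval₂Hom, eval₂_C]
    have h3 : (fun l => eval₂Hom φ x (X l)) = x := by
      funext l
      rw [coe_eval₂Hom, eval₂_X]
    rw [h1, key, h2, h3, map_uR φ hf hφX]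
    have h4 : aeval (fun m : (E.erase 0 : Finset (Fin N →₀ ℕ)) =>
          coeff (m : Fin N →₀ ℕ) (tr x f)) (C (s : ℚ) * Φ) = 0 := by
      rw [map_mul, h0, mul_zero]
    rw [hsΦ, aeval_def, eval₂_map] at h4
    have h5 : (algebraMap ℚ L).comp (Int.castRingHom ℚ) = Int.castRingHom L := RingHom.ext_int _ _
    rwa [h5] at h4

end Pool.Agent.R867.B
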