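import Pool.Agent.R867.B.Rand6
import Pool.Agent.R867.B.Ratio
import Pool.Agent.R867.B.Unif2

/-! The Hilbert property for general and random hypersurfaces of bidegree `(2, 2)`. -/

set_option autoImplicit false

namespace Pool.Agent.R867.B

open MvPolynomial Pool.Agent.R867.H Pool.Agent.Y716.M Pool.Agent.TH178.HI

/-- the function field is realizable -/
def PrR {N : ℕ} (L : Type) [Field L] (f : MvPolynomial (Fin N) L) : Prop :=
  ∀ (K : Type) [Field K] [Algebra L K] (ξ : Fin N → K), GP f ξ → Realizable L K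

theorem prR_tr {N : ℕ} {L : Type} [Field L] {f : MvPolynomial (Fin N) L} (x : Fin N → L)
    (h : PrR L (tr x f)) : PrR L f :=
  fun K _ _ _ hξ => h K _ (gp_tr hξ x)

section Two

variable {n : Fin 2 → ℕ} {N : ℕ} (ε : (Σ i : Fin 2, Fin (n i)) ≃ Fin N)

theorem unifR2 (h0 : 3 ≤ n 0) (h1 : 1 ≤ n 1) :
    ∃ g : MvPolynomial (Fin N) (MvPolynomial (expo (bet ε) (fun _ => 2)) ℤ),
      th ℤ (expo (bet ε) (fun _ => 2)) g ≠ 0 ∧
      ∀ {L : Type} [Field L] [CharZero L] (f : MvPolynomial (Fin N) L) (x : Fin N → L),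
        f.support ⊆ expo (bet ε) (fun _ => 2) → aeval x f = 0 →
        g.eval₂ (eval₂Hom (Int.castRingHom L)
          (fun m : expo (bet ε) (fun _ => 2) => coeff (m : Fin N →₀ ℕ) f)) x ≠ 0 → PrR L f := by
  obtain ⟨a, ha⟩ : ∃ a, a = ε ⟨0, ⟨0, by omega⟩⟩ := ⟨_, rfl⟩
  obtain ⟨b, hb⟩ : ∃ a, a = ε ⟨0, ⟨1, by omega⟩⟩ := ⟨_, rfl⟩
  obtain ⟨e, he⟩ : ∃ a, a = ε ⟨0, ⟨2, by omega⟩⟩ := ⟨_, rfl⟩
  obtain ⟨o, ho⟩ : ∃ a, a = ε ⟨1, ⟨0, by omega⟩⟩ := ⟨_, rfl⟩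
  have hab : a ≠ b := by
    rw [ha, hb]
    intro h
    have := ε.injective h
    simp at this
  have hae : a ≠ e := by
    rw [ha, he]
    intro h
    have := ε.injective h
    simp at this
  have hbe : b ≠ e := by
    rw [hb, he]
    intro h
    have := ε.injective h
    simp at this
  obtain ⟨Φ, hΦ, hcore⟩ := core0 (β := bet ε) hab hae hbe (by rw [ha, bet_apply])
    (by rw [hb, bet_apply]) (by rw [he, bet_apply]) (o := o) (by rw [ho, bet_apply])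
  obtain ⟨g, hg, hgs⟩ := unif_g (E := expo (bet ε) (fun _ => 2)) hΦ
  refine ⟨g, hg, fun {L} _ _ f x hf hfx hne => prR_tr x fun K _ _ ξ hξ => ?_⟩
  refine hcore (tr x f) ξ ?_ (hgs f x hf hne) hξ
  intro m hm
  unfold Ez
  rw [Finset.mem_erase]
  refine ⟨?_, sup_tr' x hf hm⟩
  rintro rfl
  rw [mem_support_iff, coeff_tr_zero] at hm
  apply hm
  rw [← hfx]
  rfl

end Two

section Hom

variable {r : ℕ} {n d : Fin r → ℕ} {N : ℕ} (ε : (Σ i : Fin r, Fin (n i)) ≃ Fin N)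

/-- irreducible with realizable function field -/
def RealH (f : MvPolynomial (Var n) ℤ) : Prop :=
  ∀ (L : Type) [Field L] [CharZero L], Irreducible (MvPolynomial.map (Int.castRingHom L) f) ∧
    ∀ (Q : Type) [Field Q] [Algebra L Q] (y : Var n → Q),
      (∀ G : MvPolynomial (Var n) L, aeval y G = 0 ↔ MvPolynomial.map (Int.castRingHom L) f ∣ G) →
      Realizable L (ratios L y)

theorem realH_of (f : MvPolynomial (Var n) ℤ) (hf : ∀ s ∈ f.support, ∀ i : Fin r,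
      ∑ j : Fin (n i + 1), s ⟨i, j⟩ = d i)
      (h : ∀ (L : Type) [Field L] [CharZero L],
        (∀ i : Fin r, ¬ (X ⟨i, 0⟩ : MvPolynomial (Var n) L) ∣
        MvPolynomial.map (Int.castRingHom L) f) ∧ Irreducible (af ε d f L) ∧
        PrR L (af ε d f L)) : RealH f := by
  intro L _ _
  obtain ⟨h1, h2, h3⟩ := h L
  refine ⟨(prime_form ε hf h1 h2).irreducible, fun Q _ _ y hy => ?_⟩
  obtain ⟨ξ, hξ⟩ := gp_ratio ε hf h1 h2 hy
  exact h3 _ ξ hξ

end Hom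

/-- 100% of the hypersurfaces of bidegree `(2, 2)` -/
theorem rand2 (n : Fin 2 → ℕ) (h0 : 3 ≤ n 0) (h1 : 1 ≤ n 1)
    (PH : MvPolynomial (Var n) ℤ → Prop) (hPH : ∀ f, RealH f → PH f) :
    Filter.Tendsto (fun H : ℕ =>
      (({f : MvPolynomial (Var n) ℤ | ((∀ s ∈ f.support, ∀ i : Fin 2,
          ∑ j : Fin (n i + 1), s ⟨i, j⟩ = 2) ∧ ∀ s, |f.coeff s| ≤ (H : ℤ)) ∧ ElsB f ∧
          PH f} : Set _).ncard : ℝ) /
      (({f : MvPolynomial (Var n) ℤ | ((∀ s ∈ f.support, ∀ i : Fin 2,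
          ∑ j : Fin (n i + 1), s ⟨i, j⟩ = 2) ∧ ∀ s, |f.coeff s| ≤ (H : ℤ)) ∧ ElsB f} :
          Set _).ncard : ℝ)) Filter.atTop (nhds 1) := by
  obtain ⟨N, ⟨ε⟩⟩ : ∃ N, Nonempty ((Σ i : Fin 2, Fin (n i)) ≃ Fin N) :=
    ⟨_, ⟨Fintype.equivFin _⟩⟩
  have hn : ∀ i, 1 ≤ n i := by
    intro i
    fin_cases i
    · exact le_trans (by norm_num) h0
    · exact h1
  have hcl : ClassStmtM n (fun _ => 2) := class_theoremM n _ 0 le_rfl (fun _ => le_rfl) hn
    (by omega) (by omega)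
  exact tendsto_of_bound (d := fun _ => 2) (by norm_num) hn (fun _ => le_rfl) hcl PH
    (fun δ hδ => rand_homP ε (fun L _ f => PrR L f) PH le_rfl hn (fun _ => le_rfl)
      ⟨0, by omega⟩ (unifR2 ε h0 h1) (fun f hf h => hPH f (realH_of ε f hf h)) hδ)

end Pool.Agent.R867.B
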