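import Pool.Agent.R867.B.Stereo

/-! The generic point of a quadric over a field over which it has a point. -/

set_option autoImplicit false

namespace Pool.Agent.R867.B

open Pool.Agent.TH178.HI MvPolynomial Pool.Agent.R867.H

variable {k E : Type} [Field k] [Field E] [Algebra k E]

/-- the data of the quadric -/
structure SD {N : ℕ} (f : MvPolynomial (Fin N) k) (Ex : Finset (Fin N →₀ ℕ)) (A : Finset (Fin N))
    (a b e : Fin N) (L M : IntermediateField k E) (p X : Fin N → E) : Prop where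
  hf : f.support ⊆ Ex
  hab : a ≠ b
  hae : a ≠ e
  hbe : b ≠ e
  ha : a ∈ A
  hb : b ∈ A
  he : e ∈ A
  hE : ∀ m ∈ Ex, ∑ q ∈ A, m q ≤ 2
  hLM : L ≤ M
  hrel : RelCl L M
  hy : ∀ q, q ∉ A → X q ∈ L
  hpy : ∀ q, q ∉ A → p q = X q
  hp : ∀ q, p q ∈ M
  hpf : aeval p f = 0
  hpe : aeval p (pderiv e f) ≠ 0
  hX : AlgebraicIndependent M (fun q : {q : Fin N // q ∈ A ∧ q ≠ e} => X q)
  hXf : aeval X f = 0
  hc2 : Kf Ex a b e (fun m => algebraMap k E (coeff m f)) X 0 0 2 ≠ 0
  hdisc : dB (Kf Ex a b e (fun m => algebraMap k E (coeff m f)) X) (X b) ^ 2 -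
    4 * dA (Kf Ex a b e (fun m => algebraMap k E (coeff m f)) X) *
      dC (Kf Ex a b e (fun m => algebraMap k E (coeff m f)) X) (X b) ≠ 0

variable {N : ℕ} {f : MvPolynomial (Fin N) k} {Ex : Finset (Fin N →₀ ℕ)} {A : Finset (Fin N)}
  {a b e : Fin N} {L M : IntermediateField k E} {p X : Fin N → E}

theorem SD.hE3 (h : SD f Ex A a b e L M p X) : ∀ m ∈ Ex, m a + m b + m e ≤ 2 := by
  classical
  intro m hm
  refine le_trans ?_ (h.hE m hm)
  have h1 : ({a, b, e} : Finset (Fin N)) ⊆ A := by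
    intro q hq
    simp only [Finset.mem_insert, Finset.mem_singleton] at hq
    rcases hq with rfl | rfl | rfl
    · exact h.ha
    · exact h.hb
    · exact h.he
  have h2 := Finset.sum_le_sum_of_subset (f := fun q => m q) h1
  rw [Finset.sum_insert (by simp [h.hab, h.hae]), Finset.sum_insert (by simp [h.hbe]),
    Finset.sum_singleton] at h2
  omega

/-- the variables different from `a`, `e` -/
theorem SD.main (h : SD f Ex A a b e L M p X) [CharZero E] :
    RelCl (IntermediateField.adjoin k ((L : Set E) ∪ Set.range X))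
      (IntermediateField.adjoin k ((M : Set E) ∪ Set.range X)) ∧
    X e ∉ IntermediateField.adjoin k ((M : Set E) ∪ (X '' {q | q ∈ A ∧ q ≠ e})) := by
  classical
  obtain ⟨K, hK⟩ : ∃ K, K = Kf Ex a b e (fun m => algebraMap k E (coeff m f)) X := ⟨_, rfl⟩
  have hc2 := h.hc2
  have hdisc := h.hdisc
  rw [← hK] at hc2 hdisc
  obtain ⟨s, hs⟩ : ∃ s : Finset {q : Fin N // q ∈ A ∧ q ≠ e}, s = Finset.univ.filter
    (fun q : {q : Fin N // q ∈ A ∧ q ≠ e} => (q : Fin N) ≠ a) := ⟨_, rfl⟩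
  obtain ⟨x, hx⟩ : ∃ x : {q : Fin N // q ∈ A ∧ q ≠ e} → E,
    x = fun q : {q : Fin N // q ∈ A ∧ q ≠ e} => X (q : Fin N) := ⟨_, rfl⟩
  have hXi := h.hX
  rw [← hx] at hXi
  obtain ⟨Λ, hΛ⟩ : ∃ Λ, Λ = IntermediateField.adjoin k ((L : Set E) ∪ x '' s) := ⟨_, rfl⟩
  obtain ⟨Om, hOm⟩ : ∃ Om, Om = IntermediateField.adjoin k ((M : Set E) ∪ x '' s) := ⟨_, rfl⟩
  have hΛO : Λ ≤ Om := by
    rw [hΛ, hOm]
    exact IntermediateField.adjoin.mono k _ _ (Set.union_subset_union_left _ h.hLM)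
  have hrel : RelCl Λ Om := by
    rw [hΛ, hOm]
    exact rel_fam h.hLM h.hrel hXi s
  have hLΛ : L ≤ Λ := by rw [hΛ]; exact fun y hy => memL hy
  have hMO : M ≤ Om := by rw [hOm]; exact fun y hy => memL hy
  have hXΛ : ∀ q, q ≠ a → q ≠ e → X q ∈ Λ := by
    intro q hqa hqe
    by_cases hq : q ∈ A
    · rw [hΛ]
      refine memR ⟨⟨q, hq, hqe⟩, ?_, ?_⟩
      · rw [hs]
        simpa using hqa
      · rw [hx]
    · exact hLΛ (h.hy q hq)
  have hKΛ : ∀ i j l, K i j l ∈ Λ := by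
    intro i j l
    rw [hK]
    refine Kf_mem (fun m => Λ.algebraMap_mem _) (fun q hq => ?_) i j l
    rw [mem_oth] at hq
    exact hXΛ q hq.2.2 hq.1
  have hbΛ : X b ∈ Λ := hXΛ b h.hab.symm h.hbe
  have hsplit : ev3 K (X a) (X b) (X e) = 0 := by
    have h1 := split3 h.hab h.hae h.hbe h.hE3 (fun m => algebraMap k E (coeff m f)) X
    rw [← aeval_evE h.hf, h.hXf, ← hK] at h1
    exact h1.symm
  obtain ⟨V, hV⟩ : ∃ V, V = 2 * K 0 0 2 * X e + (K 0 0 1 + K 0 1 1 * X b + K 1 0 1 * X a) :=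
    ⟨_, rfl⟩
  have hVsq := disc_eq hsplit
  rw [← hV] at hVsq
  have htr : Transcendental Om (X a) := by
    have h2 := hXi.transcendental_adjoin (s := s) (i := ⟨a, h.ha, h.hae⟩) (by rw [hs]; simp)
    rw [← IntermediateField.transcendental_adjoin_iff] at h2
    rw [hOm, ← adjoin_rs]
    have h3 : x ⟨a, h.ha, h.hae⟩ = X a := by rw [hx]
    rw [h3] at h2
    exact h2
  have hc := rel_conic hΛO hrel (dA_mem hKΛ) (dB_mem hKΛ hbΛ) (dC_mem hKΛ hbΛ) hdisc htr hVsq
  have hKO : ∀ i j l, K i j l ∈ Om := fun i j l => hΛO (hKΛ i j l)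
  have hv := v_notMem (dA_mem hKO) (dB_mem hKO (hΛO hbΛ)) (dC_mem hKO (hΛO hbΛ)) hdisc htr hVsq
  have h2c : (2 * K 0 0 2 : E) ≠ 0 := mul_ne_zero two_ne_zero hc2
  have hXe : X e = (V - (K 0 0 1 + K 0 1 1 * X b + K 1 0 1 * X a)) / (2 * K 0 0 2) := by
    rw [eq_div_iff h2c, hV]
    ring
  constructor
  · have e1 : ∀ (L' Λ' : IntermediateField k E), L ≤ L' → Λ ≤ Λ' →
        Λ' = IntermediateField.adjoin k ((L' : Set E) ∪ x '' s) →
        IntermediateField.adjoin k ((Λ' : Set E) ∪ {X a, V}) =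
        IntermediateField.adjoin k ((L' : Set E) ∪ Set.range X) := by
      intro L' Λ' hLL' hΛΛ' hΛ'
      apply le_antisymm
      · have h5 : ∀ i j l, K i j l ∈ IntermediateField.adjoin k ((L' : Set E) ∪ Set.range X) := by
          intro i j l
          rw [hK]
          exact Kf_mem (fun m => IntermediateField.algebraMap_mem _ _)
            (fun q hq => memR (Set.mem_range_self q)) i j l
        refine adjoin_le' ?_ ?_
        · rw [hΛ']
          refine adjoin_le' (fun y hy => memL hy) ?_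
          rintro _ ⟨q, -, rfl⟩
          rw [hx]
          exact memR (S := Set.range X) (Set.mem_range_self (q : Fin N))
        · rintro y (rfl | hy)
          · exact memR ⟨a, rfl⟩
          · rw [Set.mem_singleton_iff] at hy
            rw [hy, hV]
            exact add_mem (mul_mem (mul_mem (two_mem' _) (h5 _ _ _)) (memR ⟨e, rfl⟩))
              (add_mem (add_mem (h5 _ _ _) (mul_mem (h5 _ _ _) (memR ⟨b, rfl⟩)))
                (mul_mem (h5 _ _ _) (memR ⟨a, rfl⟩)))
      · have h6 : L' ≤ Λ' := by rw [hΛ']; exact fun y hy => memL hy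
        have h5 : ∀ i j l, K i j l ∈ IntermediateField.adjoin k ((Λ' : Set E) ∪ {X a, V}) :=
          fun i j l => memL (hΛΛ' (hKΛ i j l))
        refine adjoin_le' (fun y hy => memL (h6 hy)) ?_
        rintro _ ⟨q, rfl⟩
        by_cases hqa : q = a
        · rw [hqa]
          exact memR (Or.inl rfl)
        · by_cases hqe : q = e
          · rw [hqe, hXe]
            have hVm : V ∈ IntermediateField.adjoin k ((Λ' : Set E) ∪ {X a, V}) :=
              memR (Or.inr rfl)
            exact div_mem (sub_mem hVm (add_mem (add_mem (h5 _ _ _)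
              (mul_mem (h5 _ _ _) (memL (hΛΛ' hbΛ)))) (mul_mem (h5 _ _ _) (memR (Or.inl rfl)))))
              (mul_mem (two_mem' _) (h5 _ _ _))
          · exact memL (hΛΛ' (hXΛ q hqa hqe))
    rw [e1 L Λ le_rfl le_rfl hΛ, e1 M Om h.hLM hΛO hOm] at hc
    exact hc
  · intro hcon
    apply hv
    have h7 : IntermediateField.adjoin k ((M : Set E) ∪ (X '' {q | q ∈ A ∧ q ≠ e})) ≤
        IntermediateField.adjoin k ((Om : Set E) ∪ {X a}) := by
      refine adjoin_le' (fun y hy => memL (hMO hy)) ?_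
      rintro _ ⟨q, ⟨hq, hqe⟩, rfl⟩
      by_cases hqa : q = a
      · rw [hqa]
        exact memR rfl
      · exact memL (hΛO (hXΛ q hqa hqe))
    have h5 : ∀ i j l, K i j l ∈ IntermediateField.adjoin k ((Om : Set E) ∪ {X a}) :=
      fun i j l => memL (hKO i j l)
    rw [hV]
    exact add_mem (mul_mem (mul_mem (two_mem' _) (h5 _ _ _)) (h7 hcon))
      (add_mem (add_mem (h5 _ _ _) (mul_mem (h5 _ _ _) (memL (hΛO hbΛ))))
        (mul_mem (h5 _ _ _) (memR rfl)))

end Pool.Agent.R867.B
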