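import Pool.Agent.R867.B.Stereo2

/-! The stereographic projection. -/

set_option autoImplicit false

namespace Pool.Agent.R867.B

open Pool.Agent.TH178.HI MvPolynomial Pool.Agent.R867.H

section Deg

variable {k : Type} [Field k] {N : ℕ} {Om : Type} [Field Om] [Algebra k Om]

theorem lin_deg {x v : Fin N → Om} {A : Finset (Fin N)} (hv : ∀ l, l ∉ A → v l = 0) {d : ℕ}
    {g : MvPolynomial (Fin N) k} (hd : ∀ m ∈ g.support, ∑ q ∈ A, m q ≤ d) :
    (lin x v g).natDegree ≤ d := by
  classical
  have h1 : lin x v g = ∑ m ∈ g.support, lin x v (monomial m (coeff m g)) := by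
    conv_lhs => rw [g.as_sum]
    rw [map_sum]
  rw [h1]
  refine Polynomial.natDegree_sum_le_of_forall_le _ _ fun m hm => ?_
  refine le_trans ?_ (hd m hm)
  rw [monomial_eq, map_mul, lin_C]
  refine (Polynomial.natDegree_C_mul_le _ _).trans ?_
  rw [Finsupp.prod_fintype _ _ (fun _ => pow_zero _), map_prod]
  refine (Polynomial.natDegree_prod_le _ _).trans ?_
  have h2 : ∀ l ∈ (Finset.univ : Finset (Fin N)),
      (lin x v (X l ^ m l : MvPolynomial (Fin N) k)).natDegree ≤ if l ∈ A then m l else 0 := by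
    intro l _
    rw [map_pow, lin_X]
    by_cases h : l ∈ A
    · rw [if_pos h]
      refine (Polynomial.natDegree_pow_le).trans ?_
      have h3 : (Polynomial.C (x l) + Polynomial.X * Polynomial.C (v l) :
          Polynomial Om).natDegree ≤ 1 := by
        rw [add_comm, mul_comm]
        exact Polynomial.natDegree_linear_le
      calc _ ≤ m l * 1 := Nat.mul_le_mul_left _ h3
        _ = m l := mul_one _
    · rw [if_neg h, hv l h, map_zero, mul_zero, add_zero, ← Polynomial.C_pow,
        Polynomial.natDegree_C]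
  refine (Finset.sum_le_sum h2).trans ?_
  rw [Finset.sum_ite_mem, Finset.univ_inter]

theorem quad_eval {P : Polynomial Om} (hP : P.natDegree ≤ 2) (t : Om) :
    P.eval t = P.coeff 0 + P.coeff 1 * t + P.coeff 2 * t ^ 2 := by
  rw [Polynomial.eval_eq_sum_range' (n := 3) (by omega)]
  simp [Finset.sum_range_succ]

end Deg

variable {k E : Type} [Field k] [Field E] [Algebra k E]
  {N : ℕ} {f : MvPolynomial (Fin N) k} {Ex : Finset (Fin N →₀ ℕ)} {A : Finset (Fin N)}
  {a b e : Fin N} {L M : IntermediateField k E} {p X : Fin N → E}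

theorem SD.pure [CharZero E] (h : SD f Ex A a b e L M p X) (hM : Pure M) :
    Pure (IntermediateField.adjoin k ((M : Set E) ∪ Set.range X)) := by
  classical
  obtain ⟨-, hXe⟩ := h.main
  obtain ⟨δ, hδ⟩ : ∃ δ, δ = X a - p a := ⟨_, rfl⟩
  have htra : Transcendental M (X a) := h.hX.transcendental ⟨a, h.ha, h.hae⟩
  have hδ0 : δ ≠ 0 := by
    intro h0
    apply htra
    rw [hδ, sub_eq_zero] at h0
    rw [h0]
    exact isAlgebraic_algebraMap (⟨p a, h.hp a⟩ : M)
  obtain ⟨w, hw⟩ : ∃ w : Fin N → E, w = fun q => if q ∈ A then (X q - p q) / δ else 0 := ⟨_, rfl⟩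
  have hwA : ∀ q, q ∉ A → w q = 0 := by
    intro q hq
    rw [hw]
    exact if_neg hq
  have hwA' : ∀ q, q ∈ A → w q = (X q - p q) / δ := by
    intro q hq
    rw [hw]
    exact if_pos hq
  have hXw : ∀ q, p q + δ * w q = X q := by
    intro q
    by_cases hq : q ∈ A
    · rw [hwA' q hq]
      field_simp
      ring
    · rw [hwA q hq, h.hpy q hq, mul_zero, add_zero]
  obtain ⟨P, hP⟩ : ∃ P, P = lin p w f := ⟨_, rfl⟩
  have hdeg : P.natDegree ≤ 2 := by
    rw [hP]
    exact lin_deg hwA (fun m hm => h.hE m (h.hf hm))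
  have hev : ∀ t, P.eval t = aeval (fun q => p q + t * w q) f := by
    intro t
    rw [hP, lin_eval]
  have hc0 : P.coeff 0 = 0 := by
    have h1 := hev 0
    rw [← Polynomial.coeff_zero_eq_eval_zero] at h1
    rw [h1]
    have h2 : (fun q => p q + 0 * w q) = p := by
      funext q
      rw [zero_mul, add_zero]
    rw [h2, h.hpf]
  have hδP : P.coeff 1 * δ + P.coeff 2 * δ ^ 2 = 0 := by
    have h1 := quad_eval hdeg δ
    rw [hc0, zero_add, hev] at h1
    rw [← h1]
    have h2 : (fun q => p q + δ * w q) = X := funext hXw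
    rw [h2, h.hXf]
  have hc1 : P.coeff 1 = ∑ l, w l * aeval p (pderiv l f) := by
    have h1 : P.coeff 1 = (Polynomial.derivative P).eval 0 := by
      rw [← Polynomial.coeff_zero_eq_eval_zero, Polynomial.coeff_derivative]
      simp
    rw [h1, hP, lin_derG, Polynomial.eval_finset_sum]
    refine Finset.sum_congr rfl fun l _ => ?_
    rw [Polynomial.eval_mul, Polynomial.eval_C, lin_zero]
  have hder : ∀ l, aeval p (pderiv l f) ∈ M := fun l => aeval_mem' h.hp _
  have hc2 : P.coeff 2 ≠ 0 := by
    intro h0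
    rw [h0, zero_mul, add_zero] at hδP
    have h1 := (mul_eq_zero.mp hδP).resolve_right hδ0
    rw [hc1] at h1
    apply hXe
    have h2 : ∑ l, (δ * w l) * aeval p (pderiv l f) = 0 := by
      have h3 : ∑ l, (δ * w l) * aeval p (pderiv l f) = δ * ∑ l, w l * aeval p (pderiv l f) := by
        rw [Finset.mul_sum]
        exact Finset.sum_congr rfl fun l _ => by ring
      rw [h3, h1, mul_zero]
    rw [← Finset.add_sum_erase _ _ (Finset.mem_univ e)] at h2
    have h3 : δ * w e = X e - p e := by rw [← hXw e]; ring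
    rw [h3] at h2
    have h4 : X e = p e - (∑ l ∈ Finset.univ.erase e, (δ * w l) * aeval p (pderiv l f)) /
        aeval p (pderiv e f) := by
      have := h.hpe
      field_simp
      linear_combination h2
    rw [h4]
    refine sub_mem (memL (h.hp e)) (div_mem (sum_mem fun l hl => ?_) (memL (hder e)))
    refine mul_mem ?_ (memL (hder l))
    by_cases hlA : l ∈ A
    · have h5 : δ * w l = X l - p l := by rw [← hXw l]; ring
      rw [h5]
      exact sub_mem (memR ⟨l, ⟨hlA, Finset.ne_of_mem_erase hl⟩, rfl⟩) (memL (h.hp l))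
    · rw [hwA l hlA, mul_zero]
      exact zero_mem _
  have hδe : δ = - P.coeff 1 / P.coeff 2 := by
    rw [eq_div_iff hc2]
    apply mul_left_cancel₀ hδ0
    linear_combination hδP
  have hδm : ∀ D : IntermediateField k E, M ≤ D → (∀ q, w q ∈ D) → δ ∈ D := by
    intro D hMD hwD
    have m1 : P.coeff 1 ∈ D := by
      rw [hc1]
      exact sum_mem fun l _ => mul_mem (hwD l) (hMD (hder l))
    have m2 : P.coeff 2 ∈ D := by
      have h1 := quad_eval hdeg 1
      have h2 : P.coeff 2 = P.eval 1 - P.coeff 1 := by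
        rw [h1, hc0]
        ring
      rw [h2, hev]
      refine sub_mem (aeval_mem' (fun q => ?_) f) m1
      exact add_mem (hMD (h.hp q)) (mul_mem D.one_mem (hwD q))
    rw [hδe]
    exact div_mem (neg_mem m1) m2
  -- the new family
  obtain ⟨w', hw'⟩ : ∃ w' : {q : Fin N // q ∈ A ∧ q ≠ e} → E,
    w' = fun q : {q : Fin N // q ∈ A ∧ q ≠ e} => if (q : Fin N) = a then w e else w q := ⟨_, rfl⟩
  have hww : ∀ D : IntermediateField k E, (∀ q, w' q ∈ D) → ∀ q, w q ∈ D := by
    intro D hD q
    by_cases hq : q ∈ A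
    · by_cases hqe : q = e
      · have h1 := hD ⟨a, h.ha, h.hae⟩
        rw [hw'] at h1
        simp only [if_true] at h1
        rw [hqe]
        exact h1
      · by_cases hqa : q = a
        · rw [hqa, hwA' a h.ha, ← hδ, div_self hδ0]
          exact D.one_mem
        · have h1 := hD ⟨q, hq, hqe⟩
          rw [hw'] at h1
          simp only [if_neg hqa] at h1
          exact h1
    · rw [hwA q hq]
      exact D.zero_mem
  have hXm : ∀ D : IntermediateField k E, M ≤ D → (∀ q, w' q ∈ D) → ∀ q, X q ∈ D := by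
    intro D hMD hD q
    rw [← hXw q]
    exact add_mem (hMD (h.hp q)) (mul_mem (hδm D hMD (hww D hD)) (hww D hD q))
  have hind : AlgebraicIndependent M w' := by
    refine swap h.hX ?_
    intro q
    obtain ⟨D, hD⟩ : ∃ D, D = IntermediateField.adjoin M (Set.range w') := ⟨_, rfl⟩
    rw [← hD]
    refine hXm (D.restrictScalars k) (fun y hy => D.algebraMap_mem (⟨y, hy⟩ : M)) ?_ q
    intro q
    rw [IntermediateField.mem_restrictScalars, hD]
    exact IntermediateField.subset_adjoin _ _ ⟨q, rfl⟩
  have hfin := Pure.fam hM hind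
  have heq : IntermediateField.adjoin k ((M : Set E) ∪ Set.range w') =
      IntermediateField.adjoin k ((M : Set E) ∪ Set.range X) := by
    apply le_antisymm
    · refine adjoin_le' (fun y hy => memL hy) ?_
      rintro _ ⟨q, rfl⟩
      have h1 : ∀ l, w l ∈ IntermediateField.adjoin k ((M : Set E) ∪ Set.range X) := by
        intro l
        by_cases hl : l ∈ A
        · rw [hwA' l hl, hδ]
          exact div_mem (sub_mem (memR ⟨l, rfl⟩) (memL (h.hp l)))
            (sub_mem (memR ⟨a, rfl⟩) (memL (h.hp a)))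
        · rw [hwA l hl]
          exact zero_mem _
      rw [hw']
      dsimp only
      split_ifs
      · exact h1 e
      · exact h1 _
    · refine adjoin_le' (fun y hy => memL hy) ?_
      rintro _ ⟨q, rfl⟩
      exact hXm _ (fun y hy => memL hy) (fun q => memR (Set.mem_range_self q)) q
  rw [← heq]
  exact hfin

end Pool.Agent.R867.B
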