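import Pool.Agent.R867.H.Irr
import Pool.Agent.R867.H.Rand1
import Pool.Agent.R867.H.Unif

/-! Translations. -/

set_option autoImplicit false

namespace Pool.Agent.R867.B

open MvPolynomial Pool.Agent.R867.H

section Tr

variable {N : ℕ} {S : Type} [CommRing S]

/-- the translation `g(X + x)` -/
noncomputable def tr (x : Fin N → S) : MvPolynomial (Fin N) S →ₐ[S] MvPolynomial (Fin N) S :=
  aeval (fun l => X l + C (x l))

theorem tr_X (x : Fin N → S) (l : Fin N) : tr x (X l) = X l + C (x l) := by
  unfold tr
  rw [aeval_X]

theorem tr_tr (x : Fin N → S) (P : MvPolynomial (Fin N) S) : tr x (tr (-x) P) = P := by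
  have h : (tr x).comp (tr (-x)) = AlgHom.id S _ := by
    apply MvPolynomial.algHom_ext
    intro l
    rw [AlgHom.comp_apply, tr_X, map_add, tr_X]
    have h1 : tr x (C ((-x) l)) = C ((-x) l) := (tr x).commutes _
    rw [h1]
    simp
  exact congrArg (fun φ : MvPolynomial (Fin N) S →ₐ[S] MvPolynomial (Fin N) S => φ P) h

theorem aeval_tr {Om : Type} [CommRing Om] [Algebra S Om] (x : Fin N → S) (y : Fin N → Om)
    (P : MvPolynomial (Fin N) S) :
    aeval y (tr x P) = aeval (fun l => y l + algebraMap S Om (x l)) P := by
  have h : (aeval y).comp (tr x) = aeval (fun l => y l + algebraMap S Om (x l)) := by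
    apply MvPolynomial.algHom_ext
    intro l
    rw [AlgHom.comp_apply, tr_X, map_add, aeval_X, aeval_C, aeval_X]
  exact congrArg (fun φ : MvPolynomial (Fin N) S →ₐ[S] Om => φ P) h

theorem sup_mul {g h : MvPolynomial (Fin N) S} {m n : Fin N →₀ ℕ}
    (hg : ∀ s ∈ g.support, s ≤ m) (hh : ∀ s ∈ h.support, s ≤ n) :
    ∀ s ∈ (g * h).support, s ≤ m + n := by
  classical
  intro s hs
  have h1 := support_mul g h hs
  obtain ⟨s1, h2, s2, h3, rfl⟩ := Finset.mem_add.mp h1
  exact add_le_add (hg s1 h2) (hh s2 h3)

theorem sup_tr (x : Fin N → S) (m : Fin N →₀ ℕ) :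
    ∀ s ∈ (tr x (monomial m 1)).support, s ≤ m := by
  classical
  induction m using Finsupp.induction_linear with
  | zero =>
    intro s hs
    have h1 : (monomial (0 : Fin N →₀ ℕ) (1 : S)) = 1 := rfl
    rw [h1, map_one] at hs
    have h2 : s = 0 := by
      by_contra hcon
      rw [mem_support_iff, coeff_one, if_neg (Ne.symm hcon)] at hs
      exact hs rfl
    rw [h2]
  | add m n hm hn =>
    have h1 : (monomial (m + n) (1 : S)) = monomial m 1 * monomial n 1 := by
      rw [monomial_mul, one_mul]
    rw [h1, map_mul]
    exact sup_mul hm hn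
  | single l k =>
    induction k with
    | zero =>
      intro s hs
      have h1 : (monomial (Finsupp.single l 0) (1 : S)) = 1 := by
        rw [Finsupp.single_zero]
        rfl
      rw [h1, map_one] at hs
      have h2 : s = 0 := by
        by_contra hcon
        rw [mem_support_iff, coeff_one, if_neg (Ne.symm hcon)] at hs
        exact hs rfl
      rw [h2]
      exact zero_le
    | succ k ih =>
      have h1 : (monomial (Finsupp.single l (k + 1)) (1 : S)) =
          monomial (Finsupp.single l k) 1 * X l := by
        rw [X, monomial_mul, one_mul, ← Finsupp.single_add]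
      rw [h1, map_mul, tr_X, Finsupp.single_add]
      refine sup_mul ih ?_
      intro s hs
      have h2 := support_add hs
      rcases Finset.mem_union.mp h2 with h3 | h3
      · by_cases hn : Nontrivial S
        · rw [support_X, Finset.mem_singleton] at h3
          rw [h3]
        · exfalso
          rw [mem_support_iff] at h3
          rw [not_nontrivial_iff_subsingleton] at hn
          exact h3 (Subsingleton.elim _ _)
      · have h4 : s = 0 := by
          by_contra hcon
          rw [mem_support_iff, coeff_C, if_neg (Ne.symm hcon)] at h3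
          exact h3 rfl
        rw [h4]
        exact zero_le

theorem sup_tr' {ι : Type} [DecidableEq ι] {β : Fin N → ι} {d : ι → ℕ} (x : Fin N → S)
    {f : MvPolynomial (Fin N) S} (hf : f.support ⊆ expo β d) : (tr x f).support ⊆ expo β d := by
  classical
  intro s hs
  have h1 : tr x f = ∑ m ∈ f.support, C (coeff m f) * tr x (monomial m 1) := by
    conv_lhs => rw [f.as_sum]
    rw [map_sum]
    refine Finset.sum_congr rfl fun m _ => ?_
    have h2 : monomial m (coeff m f) = C (coeff m f) * monomial m 1 := by
      rw [C_mul_monomial, mul_one]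
    rw [h2, map_mul]
    congr 1
    exact (tr x).commutes _
  rw [h1] at hs
  have h3 := support_sum hs
  rw [Finset.mem_biUnion] at h3
  obtain ⟨m, hm, hsm⟩ := h3
  have h4 : s ∈ (tr x (monomial m 1)).support := by
    rw [mem_support_iff, coeff_C_mul] at hsm
    rw [mem_support_iff]
    exact right_ne_zero_of_mul hsm
  have h5 := sup_tr x m s h4
  have h6 := mem_expo.mp (hf hm)
  rw [mem_expo]
  intro j
  exact le_trans (Finset.sum_le_sum fun l _ => h5 l) (h6 j)

theorem coeff_tr_zero (x : Fin N → S) (f : MvPolynomial (Fin N) S) :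
    coeff 0 (tr x f) = eval x f := by
  have h1 : coeff 0 (tr x f) = aeval (0 : Fin N → S) (tr x f) := by
    rw [aeval_zero, constantCoeff_eq]
    rfl
  rw [h1, aeval_tr]
  have h2 : (fun l => (0 : Fin N → S) l + algebraMap S S (x l)) = x := by
    funext l
    simp
  rw [h2]
  rfl

end Tr

section GP

variable {N : ℕ} {L K : Type} [Field L] [Field K] [Algebra L K]

theorem gp_tr {f : MvPolynomial (Fin N) L} {ξ : Fin N → K} (h : GP f ξ) (x : Fin N → L) :
    GP (tr x f) (fun l => ξ l - algebraMap L K (x l)) := by
  constructor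
  · intro P
    have h1 : aeval (fun l => ξ l - algebraMap L K (x l)) P = aeval ξ (tr (-x) P) := by
      rw [aeval_tr]
      congr 2
      funext l
      rw [Pi.neg_apply, map_neg, sub_eq_add_neg]
    rw [h1, h.zero_iff]
    constructor
    · rintro ⟨Q, hQ⟩
      refine ⟨tr x Q, ?_⟩
      rw [← map_mul, ← hQ, tr_tr]
    · rintro ⟨Q, hQ⟩
      refine ⟨tr (-x) Q, ?_⟩
      rw [hQ, map_mul]
      congr 1
      have h2 := tr_tr (-x) f
      rwa [neg_neg] at h2
  · rw [eq_top_iff, ← h.gen, IntermediateField.adjoin_le_iff]
    rintro _ ⟨l, rfl⟩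
    have h2 : ξ l = (ξ l - algebraMap L K (x l)) + algebraMap L K (x l) := by ring
    rw [h2]
    exact add_mem (IntermediateField.subset_adjoin _ _ ⟨l, rfl⟩)
      (IntermediateField.algebraMap_mem _ _)

end GP

end Pool.Agent.R867.B
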